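import Mathlib
import Pool.Agent.WT7.Defs

/-!
# WTK: weak Turan-goodness for all `k` (MP_aeb998_co, helper93; builds on WT7 of helper7)

Goal (Fin.lean). Let `k = q + 2 ≥ 3`, let `H` be weakly `K_k`-Turan-good and `K_k`-free, and let `F` be a `k`-chromatic graph with a
homomorphism to the graph `M q` (below) which takes every vertex `x i` at most once. Then `H` is weakly `F`-Turan-good.

Notation: `h = |V(H)|`, `inj`, `hom`, `dg`, `D`, `Ext`, `Cl`, `bF`, `NoIso` as in WT7; `a n = bF H K_k n`; `π = piK q H = inf_M a(M) / (M)_h`; `cq G S ι` the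
labelled cliques with index type `ι` in `S`. `H` has no isolated vertices until the last file and is `(k-1)`-colourable.

Overview of the proof. By progressive induction (Main.lean) it is enough to get a contradiction from a sequence of `F`-free graphs `G m` on
`n m → ∞` vertices with `inj H (G m) > a (n m)` in which every vertex has `dg ≥ (π h - o(1)) n^(h-1)`. We fix an ultrafilter `U` and call a sequence of
sets of `j`-tuples `Few` if its density tends to `0` along `U`, and `Many` otherwise (structure `Sit`).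
* (Sup) sampling: a graph with few `K_k` has `hom H G ≤ (π + o(1)) n^h`. (Star) If `S` contains few `K_(k-1)` then `D S ≤ (π h + o(1)) n^(h-1)` (attach `σ n` new vertices to `S`).
* (Tight) So if `N(x) ⊆ T` and `T` contains few `K_(k-1)`, then there are few `(k-1)`-cliques `f` with `f i ∈ T` for `i ≠ b` and `f i₀ ∉ N(x)`, for `i₀ ≠ b`
  (Use: otherwise `D T ≥ D (N(x)) + c n^(h-1)`).
* (LemR) Let `S = N(x)`, `R` the set of the vertices `v` with at least `δ n^(k-2)` cliques of size `k - 2` in `N(v) ∩ S`. There are at most `ρ n^(k-1)` `(k-1)`-cliques with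
  `k - 2` vertices outside of `R`, not all of these in `S`, if `δ = δ(ρ)` is small. (Add sparse sets of vertices outside of `S ∪ R`, which are common
  neighbourhoods of `(k-2)`-cliques, to `S`, use Tight. Induction on the number of the vertices outside of `S`.)
* (KCount) `G` contains many `K_(k-1)`.
* (Pigeon) Let `x 0, .., x (k-1)` be a clique of `G`. Almost every `(k-1)`-clique has for every `i` a vertex in `R (N(x i))`; there are `k` indices and `k - 1` vertices, so we
  find `i ≠ i'` and many vertices in `R (N(x i)) ∩ R (N(x i'))`, even in `N(x l)`.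
* (FinEmb) This gives a copy of `F` (Box: blow-up of many tuples).
-/

set_option autoImplicit false

namespace Pool.Agent.WTK

open Pool.Agent.WT7 Filter

variable {α β V : Type}

/-- the labelled cliques with index type `ι` in `S` -/
def cq (G : SimpleGraph V) (S : Set V) (ι : Type) : Set (ι → V) :=
  {f | (∀ i, f i ∈ S) ∧ ∀ i j, i ≠ j → G.Adj (f i) (f j)}

/-- `inf_M a(M) / (M)_h` -/
noncomputable def piK (q : ℕ) (H : SimpleGraph α) : ℝ :=
  sInf {r | ∃ M : ℕ, Nat.card α ≤ M ∧
    r = (bF H (⊤ : SimpleGraph (Fin (q + 2))) M : ℝ) / ((M.descFactorial (Nat.card α) : ℕ) : ℝ)}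

/-- the density of the sets of tuples `T m` tends to `0` -/
def Few (U : Ultrafilter ℕ) (n : ℕ → ℕ) {ι : Type} (T : ∀ m, Set (ι → Fin (n m))) : Prop :=
  ∀ ε : ℝ, 0 < ε → ∀ᶠ m in (U : Filter ℕ), ((T m).ncard : ℝ) ≤ ε * (n m : ℝ) ^ Nat.card ι

/-- the density of the sets of tuples `T m` is bounded from below -/
def Many (U : Ultrafilter ℕ) (n : ℕ → ℕ) {ι : Type} (T : ∀ m, Set (ι → Fin (n m))) : Prop :=
  ∃ c : ℝ, 0 < c ∧ ∀ᶠ m in (U : Filter ℕ), c * (n m : ℝ) ^ Nat.card ι ≤ ((T m).ncard : ℝ)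

/-- the density of the sets `Z m` is bounded from below -/
def Large (U : Ultrafilter ℕ) (n : ℕ → ℕ) (Z : ∀ m, Set (Fin (n m))) : Prop :=
  ∃ c : ℝ, 0 < c ∧ ∀ᶠ m in (U : Filter ℕ), c * (n m : ℝ) ≤ ((Z m).ncard : ℝ)

/-- the situation of the proof -/
structure Sit (q : ℕ) (H : SimpleGraph α) (U : Ultrafilter ℕ) (n : ℕ → ℕ) (G : ∀ m, SimpleGraph (Fin (n m))) :
    Prop where
  pos : ∀ m, 0 < n m
  ntop : Tendsto n (U : Filter ℕ) atTop
  few : Few U n (fun m => cq (G m) Set.univ (Fin (q + 2)))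
  few1 : ∀ x : ∀ m, Fin (n m), Few U n (fun m => cq (G m) ((G m).neighborSet (x m)) (Fin (q + 1)))
  inj : ∀ ε : ℝ, 0 < ε → ∀ᶠ m in (U : Filter ℕ),
    (piK q H - ε) * (n m : ℝ) ^ Nat.card α ≤ (WT7.inj H (G m) : ℝ)
  deg : ∀ ε : ℝ, 0 < ε → ∀ᶠ m in (U : Filter ℕ), ∀ x,
    (piK q H * Nat.card α - ε) * (n m : ℝ) ^ (Nat.card α - 1) ≤ (dg H (G m) x : ℝ)

/-- the vertices `v` with at least `δ n^q` cliques of size `q` in `N(v) ∩ S` -/
def R (G : SimpleGraph V) (q : ℕ) (S : Set V) (δ : ℝ) : Set V :=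
  {v | δ * (Nat.card V : ℝ) ^ q ≤ ((cq G (G.neighborSet v ∩ S) (Fin q)).ncard : ℝ)}

/-- the `(q+1)`-cliques `f` with `f i` outside of `S ∪ R` for `i ∈ J` and `f i ∈ S` for the other `i ≠ b` -/
def Uq (G : SimpleGraph V) (q : ℕ) (S : Set V) (δ : ℝ) (J : Finset (Fin (q + 1))) (b : Fin (q + 1)) :
    Set (Fin (q + 1) → V) :=
  {f | f ∈ cq G Set.univ (Fin (q + 1)) ∧ (∀ i ∈ J, f i ∉ S ∧ f i ∉ R G q S δ) ∧ ∀ i, i ∉ J → i ≠ b → f i ∈ S}

/-- the vertices of the graph `M q` -/
inductive MV (q : ℕ) : Type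
  | x (i : Fin (q + 2)) : MV q
  | b : MV q
  | a (i : Fin q) : MV q
  | a' (i : Fin q) : MV q
  | u (i : Fin (q + 2)) : MV q
  | w (i : Fin (q + 2)) : MV q

/-- the edges of the graph `M q` -/
def Mrel (q : ℕ) : MV q → MV q → Prop
  | .x _, .x _ => True
  | .a _, .a _ => True
  | .a' _, .a' _ => True
  | .x i, .a _ => i.val = 0
  | .x i, .a' _ => i.val = 1
  | .x i, .b => i.val = 2
  | .b, .a _ => True
  | .b, .a' _ => True
  | .x i, .u j => i = j
  | .u i, .w j => i = j
  | _, _ => False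

/-- the graph `M q`: cliques `{x i}` (`k = q + 2` vertices), `{a i}`, `{a' i}` (`k - 2` vertices each), `x 0` is adjacent to all `a i`, `x 1` to all
`a' i`, the vertex `b` to all `a i`, all `a' i` and to `x 2`; paths `x i - u i - w i` -/
def M (q : ℕ) : SimpleGraph (MV q) := SimpleGraph.fromRel (Mrel q)

end Pool.Agent.WTK
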