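import Pool.Agent.WTK.Box

/-!
# [WTK-EmbG] embedding a graph into a blow-up with fixed vertices

The vertices `u` with `c u = none` are mapped to `x u`, the others by a blow-up `f` in `T`. `κ = {u | c u ≠ none}` with the map to `ι`; `box` gives at least `γ n^|κ|` blow-ups; at most `|κ|² n^(|κ|-1)` maps are not injective, at most `|κ| |β| n^(|κ|-1)` hit the
range of `x` (`ncard_noninj_le`, `ncard_hit_le`); so for large `n` (if `κ` is empty there is no problem: all maps are injective and nothing is hit; the count is `≥ γ > 0`) there is an injective blow-up `f` which avoids the range of `x`. For an edge `u v` with `c u = some i`, `c v = some j` we have `i ≠ j` (as `g ∈ T` and `G` has no loops),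
and `Q` = `g` changed to `f u` at `i`, `f v` at `j` is in `T`. So the map is a copy of `F`.
`embs`: the version for sequences.
-/

set_option autoImplicit false

namespace Pool.Agent.WTK

open Pool.Agent.WT7 Filter

private theorem embG_pick {κ β V : Type} [Finite κ] [Finite β] [Finite V] [Nonempty V] {γ : ℝ} (hγ : 0 < γ)
    (hbig : ((Nat.card κ ^ 2 + Nat.card κ * Nat.card β : ℕ) : ℝ) < γ * (Nat.card V : ℝ)) (x : β → V)
    (B : Set (κ → V)) (hB : γ * (Nat.card V : ℝ) ^ Nat.card κ ≤ (B.ncard : ℝ)) :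
    ∃ f ∈ B, Function.Injective f ∧ ∀ v, f v ∉ Set.range x := by
  by_contra hcon
  push Not at hcon
  have hsub : B ⊆ {f : κ → V | ¬ Function.Injective f} ∪ {f : κ → V | ∃ v, f v ∈ Set.range x} := by
    intro f hf
    by_cases hi : Function.Injective f
    · exact Or.inr (hcon f hf hi)
    · exact Or.inl hi
  have h1 : B.ncard ≤ Nat.card κ ^ 2 * Nat.card V ^ (Nat.card κ - 1) +
      Nat.card κ * ((Set.range x).ncard * Nat.card V ^ (Nat.card κ - 1)) :=
    (Set.ncard_le_ncard hsub (Set.toFinite _)).trans ((Set.ncard_union_le _ _).trans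
      (Nat.add_le_add ncard_noninj_le (ncard_hit_le _)))
  have h2 : (Set.range x).ncard ≤ Nat.card β := by
    rw [← Set.image_univ, ← Set.ncard_univ]
    exact Set.ncard_image_le (Set.toFinite _)
  have h3 : B.ncard ≤ (Nat.card κ ^ 2 + Nat.card κ * Nat.card β) * Nat.card V ^ (Nat.card κ - 1) := by
    refine h1.trans ?_
    have h4 : Nat.card κ * ((Set.range x).ncard * Nat.card V ^ (Nat.card κ - 1)) ≤
        Nat.card κ * (Nat.card β * Nat.card V ^ (Nat.card κ - 1)) :=
      Nat.mul_le_mul_left _ (Nat.mul_le_mul_right _ h2)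
    calc _ ≤ Nat.card κ ^ 2 * Nat.card V ^ (Nat.card κ - 1) +
        Nat.card κ * (Nat.card β * Nat.card V ^ (Nat.card κ - 1)) := Nat.add_le_add_left h4 _
      _ = _ := by ring
  have h5 : (B.ncard : ℝ) ≤ ((Nat.card κ ^ 2 + Nat.card κ * Nat.card β : ℕ) : ℝ) *
      (Nat.card V : ℝ) ^ (Nat.card κ - 1) := by exact_mod_cast h3
  have hn : (0 : ℝ) < (Nat.card V : ℝ) := by exact_mod_cast (Nat.card_pos (α := V))
  rcases Nat.eq_zero_or_pos (Nat.card κ) with h0 | h0
  · rw [h0] at h5 hB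
    norm_num at h5 hB
    rw [h5, Nat.cast_zero] at hB
    linarith
  · obtain ⟨t, ht⟩ : ∃ t, Nat.card κ = t + 1 := ⟨Nat.card κ - 1, by omega⟩
    have h6 : γ * (Nat.card V : ℝ) ^ Nat.card κ = (γ * (Nat.card V : ℝ)) * (Nat.card V : ℝ) ^ (Nat.card κ - 1) := by
      rw [ht, Nat.add_sub_cancel, pow_succ]; ring
    have h7 : ((Nat.card κ ^ 2 + Nat.card κ * Nat.card β : ℕ) : ℝ) * (Nat.card V : ℝ) ^ (Nat.card κ - 1) <
        (γ * (Nat.card V : ℝ)) * (Nat.card V : ℝ) ^ (Nat.card κ - 1) :=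
      mul_lt_mul_of_pos_right hbig (by positivity)
    linarith

private theorem embG_copy {ι β V : Type} {F : SimpleGraph β} (c : β → Option ι) (G : SimpleGraph V) (x : β → V)
    (T : Set (ι → V))
    (h1 : ∀ u v, c u = none → c v = none → x u = x v → u = v)
    (h2 : ∀ u v, F.Adj u v → c u = none → c v = none → G.Adj (x u) (x v))
    (h3 : ∀ u v i, F.Adj u v → c u = none → c v = some i → ∀ Q ∈ T, G.Adj (x u) (Q i))
    (h4 : ∀ u v i j, F.Adj u v → c u = some i → c v = some j → ∀ Q ∈ T, G.Adj (Q i) (Q j))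
    (d : {u : β // c u ≠ none} → ι) (hd : ∀ u, c u.1 = some (d u)) (f : {u : β // c u ≠ none} → V)
    (hf : Blow d T f) (hinj : Function.Injective f) (hx : ∀ v, f v ∉ Set.range x) : F.IsContained G := by
  classical
  obtain ⟨g, hg⟩ := hf
  have hgT : g ∈ T := hg g fun i => Or.inl rfl
  have hone : ∀ v : {u : β // c u ≠ none}, ∃ Q ∈ T, Q (d v) = f v := by
    intro v
    refine ⟨Function.update g (d v) (f v), hg _ fun i => ?_, Function.update_self _ _ _⟩
    by_cases hi : i = d v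
    · subst hi
      exact Or.inr ⟨v, rfl, Function.update_self _ _ _⟩
    · exact Or.inl (Function.update_of_ne hi _ _)
  have htwo : ∀ u v : {u : β // c u ≠ none}, d u ≠ d v → ∃ Q ∈ T, Q (d u) = f u ∧ Q (d v) = f v := by
    intro u v huv
    refine ⟨Function.update (Function.update g (d u) (f u)) (d v) (f v), hg _ fun i => ?_, ?_, ?_⟩
    · by_cases hi : i = d v
      · subst hi
        exact Or.inr ⟨v, rfl, Function.update_self _ _ _⟩
      · rw [Function.update_of_ne hi]
        by_cases hi' : i = d u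
        · subst hi'
          exact Or.inr ⟨u, rfl, Function.update_self _ _ _⟩
        · exact Or.inl (Function.update_of_ne hi' _ _)
    · rw [Function.update_of_ne huv, Function.update_self]
    · exact Function.update_self _ _ _
  let φ : β → V := fun u => if h : c u ≠ none then f ⟨u, h⟩ else x u
  have φs : ∀ u (h : c u ≠ none), φ u = f ⟨u, h⟩ := fun u h => dif_pos h
  have φn : ∀ u, c u = none → φ u = x u := fun u h => dif_neg (not_not.2 h)
  refine ⟨⟨⟨φ, ?_⟩, ?_⟩⟩
  · intro u v huv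
    by_cases hu : c u = none
    · by_cases hv : c v = none
      · rw [φn u hu, φn v hv]
        exact h2 u v huv hu hv
      · rw [φn u hu, φs v hv]
        obtain ⟨Q, hQ, hQv⟩ := hone ⟨v, hv⟩
        rw [← hQv]
        exact h3 u v _ huv hu (hd ⟨v, hv⟩) Q hQ
    · by_cases hv : c v = none
      · rw [φs u hu, φn v hv]
        obtain ⟨Q, hQ, hQu⟩ := hone ⟨u, hu⟩
        rw [← hQu]
        exact (h3 v u _ huv.symm hv (hd ⟨u, hu⟩) Q hQ).symm
      · rw [φs u hu, φs v hv]
        have hne : d ⟨u, hu⟩ ≠ d ⟨v, hv⟩ := by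
          intro heq
          have h5 := h4 u v _ _ huv (hd ⟨u, hu⟩) (hd ⟨v, hv⟩) g hgT
          rw [heq] at h5
          exact h5.ne rfl
        obtain ⟨Q, hQ, hQu, hQv⟩ := htwo ⟨u, hu⟩ ⟨v, hv⟩ hne
        rw [← hQu, ← hQv]
        exact h4 u v _ _ huv (hd ⟨u, hu⟩) (hd ⟨v, hv⟩) Q hQ
  · intro u v huv
    change φ u = φ v at huv
    by_cases hu : c u = none
    · by_cases hv : c v = none
      · rw [φn u hu, φn v hv] at huv
        exact h1 u v hu hv huv
      · rw [φn u hu, φs v hv] at huv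
        exact absurd ⟨u, huv⟩ (hx ⟨v, hv⟩)
    · by_cases hv : c v = none
      · rw [φs u hu, φn v hv] at huv
        exact absurd ⟨v, huv.symm⟩ (hx ⟨u, hu⟩)
      · rw [φs u hu, φs v hv] at huv
        exact congrArg Subtype.val (hinj huv)

theorem emb_gen {ι β : Type} [Finite ι] [Finite β] {F : SimpleGraph β} (c : β → Option ι) {ρ : ℝ} (hρ : 0 < ρ) :
    ∃ n₀ : ℕ, ∀ (V : Type) [Finite V], n₀ ≤ Nat.card V → ∀ (G : SimpleGraph V) (x : β → V) (T : Set (ι → V)),
      (∀ u v, c u = none → c v = none → x u = x v → u = v) →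
      (∀ u v, F.Adj u v → c u = none → c v = none → G.Adj (x u) (x v)) →
      (∀ u v i, F.Adj u v → c u = none → c v = some i → ∀ Q ∈ T, G.Adj (x u) (Q i)) →
      (∀ u v i j, F.Adj u v → c u = some i → c v = some j → ∀ Q ∈ T, G.Adj (Q i) (Q j)) →
      ρ * (Nat.card V : ℝ) ^ Nat.card ι ≤ (T.ncard : ℝ) → F.IsContained G := by
  classical
  have hdef : ∀ u : {u : β // c u ≠ none}, ∃ i, c u.1 = some i := fun u => Option.ne_none_iff_exists'.1 u.2
  choose d hd using hdef
  obtain ⟨γ, hγ, hbox⟩ := box d hρ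
  obtain ⟨n₁, hn₁⟩ := exists_nat_gt
    (((Nat.card {u : β // c u ≠ none} ^ 2 + Nat.card {u : β // c u ≠ none} * Nat.card β : ℕ) : ℝ) / γ)
  refine ⟨n₁ + 1, fun V _ hV G x T h1 h2 h3 h4 hT => ?_⟩
  have hpos : 0 < Nat.card V := by omega
  have : Nonempty V := (Nat.card_pos_iff.1 hpos).1
  have hbig : ((Nat.card {u : β // c u ≠ none} ^ 2 + Nat.card {u : β // c u ≠ none} * Nat.card β : ℕ) : ℝ) <
      γ * (Nat.card V : ℝ) := by
    rw [div_lt_iff₀ hγ] at hn₁
    have h5 : (n₁ : ℝ) ≤ (Nat.card V : ℝ) := by exact_mod_cast (show n₁ ≤ Nat.card V by omega)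
    have h6 := mul_le_mul_of_nonneg_right h5 hγ.le
    linarith
  obtain ⟨f, hf, hinj, hx⟩ := embG_pick hγ hbig x _ (hbox V T hT)
  exact embG_copy c G x T h1 h2 h3 h4 d hd f hf hinj hx

theorem embs {ι β : Type} [Finite ι] [Finite β] {F : SimpleGraph β} (c : β → Option ι) {U : Ultrafilter ℕ}
    {n : ℕ → ℕ} (hn : Tendsto n (U : Filter ℕ) atTop) {G : ∀ m, SimpleGraph (Fin (n m))}
    (hF : ∀ m, F.Free (G m)) (x : ∀ m, β → Fin (n m)) {T : ∀ m, Set (ι → Fin (n m))}
    (h1 : ∀ m u v, c u = none → c v = none → x m u = x m v → u = v)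
    (h2 : ∀ m u v, F.Adj u v → c u = none → c v = none → (G m).Adj (x m u) (x m v))
    (h3 : ∀ m u v i, F.Adj u v → c u = none → c v = some i → ∀ Q ∈ T m, (G m).Adj (x m u) (Q i))
    (h4 : ∀ m u v i j, F.Adj u v → c u = some i → c v = some j → ∀ Q ∈ T m, (G m).Adj (Q i) (Q j)) :
    ¬ Many U n T := by
  rintro ⟨ρ, hρ, hT⟩
  obtain ⟨n₀, hn₀⟩ := emb_gen (F := F) c hρ
  obtain ⟨m, hm1, hm2⟩ := (hT.and (hn.eventually_ge_atTop n₀)).exists
  refine hF m (hn₀ (Fin (n m)) ?_ (G m) (x m) (T m) (h1 m) (h2 m) (h3 m) (h4 m) ?_)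
  · rw [Nat.card_fin]
    exact hm2
  · rw [Nat.card_fin]
    exact hm1

end Pool.Agent.WTK
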