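import Pool.Agent.WTK.Sup

/-!
# [WTK-GrowK] growth of the extremal numbers

`lowerK`: `piK_le` and `(n)_h ≥ (n - h)^h ≥ n^h - h² n^(h-1)`. `growthK`: `k_step` (WT7.KGrow): `a(n+1) ≥ a(n) + h a(n) / n ≥ a(n) + h π (n)_h / n` and `(n)_h / n = (n-1)_(h-1) ≥ (n + 1 - h)^(h-1)`, so this is `≥ (h π - ε) (n+1)^(h-1)` for large `n`
(compare WT7.Growth, WT7.PiB; `π ≤ 1` is not needed: `(1 - h/(n+1))^(h-1) ≥ 1 - ε / (h π + 1)` for large `n`, Bernoulli `one_add_mul_le_pow`).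
-/

set_option autoImplicit false

namespace Pool.Agent.WTK

open Pool.Agent.WT7 Filter

variable {α : Type}

private theorem growK_tendsto (a x : ℝ) (k : ℕ) :
    Tendsto (fun n : ℕ => a * ((1 + x / ((n : ℝ) + 1))) ^ k) atTop (nhds a) := by
  have h1 : Tendsto (fun n : ℕ => x / ((n : ℝ) + 1)) atTop (nhds 0) := by
    have := (tendsto_const_div_atTop_nhds_zero_nat x).comp (tendsto_add_atTop_nat 1)
    refine this.congr fun n => ?_
    simp
  have h2 := ((h1.const_add 1).pow k).const_mul a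
  simpa using h2

/-- `(a - ε) (n+1)^k ≤ a (n+1-h)^k` for large `n` -/
private theorem growK_shift (a : ℝ) {ε : ℝ} (hε : 0 < ε) (h k : ℕ) :
    ∃ n₀ : ℕ, ∀ n ≥ n₀, (a - ε) * ((n : ℝ) + 1) ^ k ≤ a * ((n : ℝ) + 1 - h) ^ k := by
  have ht := growK_tendsto a (-(h : ℝ)) k
  have hev := ht.eventually (eventually_gt_nhds (show a - ε < a by linarith))
  obtain ⟨n₀, h0⟩ := eventually_atTop.1 hev
  refine ⟨n₀, fun n hn => ?_⟩
  have h1 := h0 n hn
  have hp : (0 : ℝ) < (n : ℝ) + 1 := by positivity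
  have h2 : a * ((n : ℝ) + 1 - h) ^ k = a * (1 + -(h : ℝ) / ((n : ℝ) + 1)) ^ k * ((n : ℝ) + 1) ^ k := by
    rw [mul_assoc, ← mul_pow]
    congr 2
    field_simp
    ring
  rw [h2]
  exact mul_le_mul_of_nonneg_right h1.le (by positivity)

theorem lowerK [Finite α] (H : SimpleGraph α) (q : ℕ) {ε : ℝ} (hε : 0 < ε) :
    ∃ n₀ : ℕ, ∀ n ≥ n₀, (piK q H - ε) * (n : ℝ) ^ Nat.card α ≤ bF H (⊤ : SimpleGraph (Fin (q + 2))) n := by
  obtain ⟨n₀, h0⟩ := growK_shift (piK q H) hε (Nat.card α) (Nat.card α)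
  refine ⟨max (n₀ + 1) (Nat.card α + 1), fun n hn => ?_⟩
  have hn1 : n₀ + 1 ≤ n := (le_max_left _ _).trans hn
  have hn2 : Nat.card α + 1 ≤ n := (le_max_right _ _).trans hn
  obtain ⟨m, rfl⟩ : ∃ m, n = m + 1 := ⟨n - 1, by omega⟩
  have h1 := h0 m (by omega)
  have h2 := piK_le H q (m + 1)
  have h3 := Nat.pow_sub_le_descFactorial (m + 1) (Nat.card α)
  have h4 : (((m + 1 - Nat.card α : ℕ) : ℝ)) ^ Nat.card α ≤ (((m + 1).descFactorial (Nat.card α) : ℕ) : ℝ) := by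
    have h5 : (m + 1 - Nat.card α) ^ Nat.card α ≤ (m + 1).descFactorial (Nat.card α) :=
      le_trans (Nat.pow_le_pow_left (by omega) _) h3
    exact_mod_cast h5
  have h5 : ((m + 1 - Nat.card α : ℕ) : ℝ) = (m : ℝ) + 1 - Nat.card α := by
    rw [Nat.cast_sub (by omega)]
    push_cast
    ring
  rw [h5] at h4
  push_cast
  calc (piK q H - ε) * ((m : ℝ) + 1) ^ Nat.card α ≤ _ := h1
    _ ≤ piK q H * (((m + 1).descFactorial (Nat.card α) : ℕ) : ℝ) :=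
        mul_le_mul_of_nonneg_left h4 (piK_nonneg q H)
    _ ≤ _ := h2

private theorem growK_top (q : ℕ) : 2 ≤ q + 2 := by omega

theorem growthK [Finite α] [Nonempty α] (H : SimpleGraph α) (q : ℕ) {ε : ℝ} (hε : 0 < ε) :
    ∃ n₀ : ℕ, ∀ n ≥ n₀, (bF H (⊤ : SimpleGraph (Fin (q + 2))) n : ℝ) +
      (piK q H * Nat.card α - ε) * ((n : ℝ) + 1) ^ (Nat.card α - 1) ≤
        bF H (⊤ : SimpleGraph (Fin (q + 2))) (n + 1) := by
  obtain ⟨n₀, h0⟩ := growK_shift (piK q H * Nat.card α) hε (Nat.card α) (Nat.card α - 1)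
  have hc : 0 < Nat.card α := Nat.card_pos
  refine ⟨max n₀ (Nat.card α + 1), fun n hn => ?_⟩
  have hn1 : n₀ ≤ n := (le_max_left _ _).trans hn
  have hn2 : Nat.card α + 1 ≤ n := (le_max_right _ _).trans hn
  have h1 := h0 n hn1
  obtain ⟨m, rfl⟩ : ∃ m, n = m + 1 := ⟨n - 1, by omega⟩
  obtain ⟨c, hcc⟩ : ∃ c, Nat.card α = c + 1 := ⟨Nat.card α - 1, by omega⟩
  have h2 := piK_le H q (m + 1)
  have h3 := k_step H (k := q + 2) (by omega) (n := m + 1) (by omega)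
  have h3' : (((m + 1 : ℕ) : ℝ) + Nat.card α) * (bF H (⊤ : SimpleGraph (Fin (q + 2))) (m + 1) : ℝ) ≤
      ((m + 1 : ℕ) : ℝ) * (bF H (⊤ : SimpleGraph (Fin (q + 2))) (m + 1 + 1) : ℝ) := by exact_mod_cast h3
  set b0 : ℝ := (bF H (⊤ : SimpleGraph (Fin (q + 2))) (m + 1) : ℝ)
  set b1 : ℝ := (bF H (⊤ : SimpleGraph (Fin (q + 2))) (m + 1 + 1) : ℝ)
  have hm : (0 : ℝ) < ((m + 1 : ℕ) : ℝ) := by positivity
  have h4 : (((m + 1).descFactorial (Nat.card α) : ℕ) : ℝ) =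
      ((m + 1 : ℕ) : ℝ) * ((m.descFactorial c : ℕ) : ℝ) := by
    rw [hcc, Nat.succ_descFactorial_succ]
    push_cast
    ring
  have h5 : (((m + 1 : ℕ) : ℝ) + 1 - Nat.card α) ^ (Nat.card α - 1) ≤ ((m.descFactorial c : ℕ) : ℝ) := by
    have h6 := Nat.pow_sub_le_descFactorial m c
    have h7 : ((m + 1 - c : ℕ) : ℝ) = ((m + 1 : ℕ) : ℝ) + 1 - Nat.card α := by
      rw [Nat.cast_sub (by omega), hcc]
      push_cast
      ring
    rw [← h7, hcc, Nat.add_sub_cancel]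
    exact_mod_cast h6
  rw [h4] at h2
  have hcR : (0 : ℝ) < (Nat.card α : ℝ) := by exact_mod_cast hc
  have h6 : ((m + 1 : ℕ) : ℝ) * (b0 + piK q H * Nat.card α *
      (((m + 1 : ℕ) : ℝ) + 1 - Nat.card α) ^ (Nat.card α - 1)) ≤ ((m + 1 : ℕ) : ℝ) * b1 := by
    have h7 : piK q H * Nat.card α * (((m + 1 : ℕ) : ℝ) + 1 - Nat.card α) ^ (Nat.card α - 1) ≤
        piK q H * Nat.card α * ((m.descFactorial c : ℕ) : ℝ) :=
      mul_le_mul_of_nonneg_left h5 (mul_nonneg (piK_nonneg q H) hcR.le)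
    have h8 := mul_le_mul_of_nonneg_left h7 hm.le
    have h9 := mul_le_mul_of_nonneg_left h2 hcR.le
    nlinarith
  have h7 := le_of_mul_le_mul_left h6 hm
  linarith

end Pool.Agent.WTK
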