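import Pool.Agent.WTK.Defs
import Pool.Agent.WT7.KGrow

/-!
# [WTK-Sup] sampling, the limit density `π`

`sup_ineq`: count the pairs `(ψ, φ)`, `ψ : Fin M → V`, `φ : α → Fin M` injective, `ψ ∘ φ` a homomorphism: for every `φ` there are `hom H G * n^(M - h)` maps `ψ` (the values of `ψ` on the range of `φ` and outside are independent); `(M)_h` injective `φ`. For every `ψ` the number of `φ` is
`inj H (G.comap ψ)`; if `G.comap ψ` is `K_k`-free it is `≤ bF H K_k M`, otherwise `≤ (M)_h`, and there is `t : Fin k → Fin M` with `ψ ∘ t ∈ cq G univ`, `t` injective: at most `M^k * |cq| * n^(M-k)` such `ψ`. (`k = q + 2`; if `M < k` there are none.) Divide by `(M)_h n^M`.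
`piK_le`: infimum (bounded below by `0`) for `h ≤ M`; for `M < h` the left side is `0`.
`hom_le_piK`: choose `M ≥ h` with `a(M) / (M)_h ≤ π + ε / 2` (the set in the definition of `piK` is nonempty), `τ = ε / (2 M^k)` (`M ≥ 1`).
`piK_pos`: `c` from `k_lower` (WT7.KGrow); for `M ≥ h`: take `n` large and `G` `K_k`-free with `inj H G = bF n` (`exists_bF`), `sup_ineq` with `cq = ∅`: `c n^h ≤ inj ≤ hom ≤ (a(M) / (M)_h) n^h`. So `π ≥ c`.
-/

set_option autoImplicit false

namespace Pool.Agent.WTK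

open Pool.Agent.WT7 Filter

variable {α V : Type}

private theorem sup_fiber {β : Type} [Finite β] [Finite V] {M : ℕ} (φ : β → Fin M) (hφ : Function.Injective φ)
    (T : Set (β → V)) :
    ({ψ : Fin M → V | ψ ∘ φ ∈ T}.ncard) * Nat.card V ^ Nat.card β = T.ncard * Nat.card V ^ M := by
  classical
  set C : Set (Fin M) := (Set.range φ)ᶜ with hC
  let f : β ⊕ C ≃ Fin M :=
    (Equiv.sumCongr (Equiv.ofInjective φ hφ) (Equiv.refl _)).trans (Equiv.Set.sumCompl (Set.range φ))
  have hf : ∀ b, f (Sum.inl b) = φ b := by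
    intro b
    exact Equiv.Set.sumCompl_apply_inl _ _
  let e : (Fin M → V) ≃ (β → V) × (C → V) :=
    (Equiv.arrowCongr f (Equiv.refl V)).symm.trans (Equiv.sumArrowEquivProdArrow β C V)
  have he : ∀ ψ, (e ψ).1 = ψ ∘ φ := by
    intro ψ
    funext b
    simp [e, hf, Equiv.sumArrowEquivProdArrow]
  have h1 : e '' {ψ : Fin M → V | ψ ∘ φ ∈ T} = T ×ˢ (Set.univ : Set (C → V)) := by
    ext p
    constructor
    · rintro ⟨ψ, hψ, rfl⟩
      refine ⟨?_, trivial⟩
      rw [he]
      exact hψ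
    · rintro ⟨hp, -⟩
      refine ⟨e.symm p, ?_, by simp⟩
      show (e.symm p) ∘ φ ∈ T
      rw [← he, Equiv.apply_symm_apply]
      exact hp
  have h2 : {ψ : Fin M → V | ψ ∘ φ ∈ T}.ncard = T.ncard * Nat.card V ^ Nat.card C := by
    rw [← Set.ncard_image_of_injective _ e.injective, h1, Set.ncard_prod, Set.ncard_univ, Nat.card_fun]
  have h3 : Nat.card β + Nat.card C = M := by
    have := Nat.card_congr f
    rw [Nat.card_sum, Nat.card_fin] at this
    exact this
  rw [h2, mul_assoc, ← pow_add, add_comm (Nat.card C), h3]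

open Classical in
private theorem sup_card_inj [Fintype α] (M : ℕ) :
    (Finset.univ.filter (fun φ : α → Fin M => Function.Injective φ)).card = M.descFactorial (Nat.card α) := by
  rw [← Fintype.card_subtype, Fintype.card_congr (Equiv.subtypeInjectiveEquivEmbedding α (Fin M)),
    Fintype.card_embedding_eq, Fintype.card_fin, Nat.card_eq_fintype_card]

private theorem sup_inj_le [Finite α] (H : SimpleGraph α) {M : ℕ} (G : SimpleGraph (Fin M)) :
    inj H G ≤ M.descFactorial (Nat.card α) := by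
  classical
  have := Fintype.ofFinite α
  rw [← sup_card_inj (α := α) M]
  unfold inj
  rw [← Set.ncard_coe_finset]
  refine Set.ncard_le_ncard ?_ (Set.toFinite _)
  intro φ hφ
  simp only [Finset.coe_filter, Finset.mem_univ, true_and]
  exact hφ.1

private theorem sup_double [Finite α] (H : SimpleGraph α) {M : ℕ} [Fintype V] (G : SimpleGraph V) :
    (∑ ψ : Fin M → V, inj H (G.comap ψ)) * Nat.card V ^ Nat.card α =
      M.descFactorial (Nat.card α) * (hom H G * Nat.card V ^ M) := by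
  classical
  have := Fintype.ofFinite α
  have h1 := Finset.sum_card_bipartiteAbove_eq_sum_card_bipartiteBelow
    (s := (Finset.univ : Finset (Fin M → V))) (t := (Finset.univ : Finset (α → Fin M)))
    (fun ψ φ => Function.Injective φ ∧ IsHom H G (ψ ∘ φ))
  have h2 : ∀ ψ : Fin M → V, inj H (G.comap ψ) = ((Finset.univ : Finset (α → Fin M)).bipartiteAbove
      (fun ψ φ => Function.Injective φ ∧ IsHom H G (ψ ∘ φ)) ψ).card := by
    intro ψ
    unfold inj
    rw [← Set.ncard_coe_finset]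
    congr 1
    ext φ
    simp only [Finset.bipartiteAbove, Finset.coe_filter, Finset.mem_univ, true_and]
    exact Iff.rfl
  have h3 : ∀ φ : α → Fin M, ((Finset.univ : Finset (Fin M → V)).bipartiteBelow
      (fun ψ φ => Function.Injective φ ∧ IsHom H G (ψ ∘ φ)) φ).card * Nat.card V ^ Nat.card α =
      if Function.Injective φ then hom H G * Nat.card V ^ M else 0 := by
    intro φ
    by_cases hφ : Function.Injective φ
    · rw [if_pos hφ]
      unfold hom
      rw [← sup_fiber φ hφ {f : α → V | IsHom H G f}, ← Set.ncard_coe_finset]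
      congr 2
      ext ψ
      simp only [Finset.bipartiteBelow, Finset.coe_filter, Finset.mem_univ, true_and]
      exact ⟨fun h => h.2, fun h => ⟨hφ, h⟩⟩
    · rw [if_neg hφ]
      have : ((Finset.univ : Finset (Fin M → V)).bipartiteBelow
          (fun ψ φ => Function.Injective φ ∧ IsHom H G (ψ ∘ φ)) φ) = ∅ := by
        ext ψ
        simp [Finset.bipartiteBelow, hφ]
      rw [this]
      simp
  rw [Finset.sum_congr rfl (fun ψ _ => h2 ψ), h1, Finset.sum_mul, Finset.sum_congr rfl (fun φ _ => h3 φ),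
    ← Finset.sum_filter, Finset.sum_const, smul_eq_mul, sup_card_inj]

private theorem sup_bad [Fintype V] (q M : ℕ) (G : SimpleGraph V)
    [DecidablePred (fun ψ : Fin M → V => ¬ (⊤ : SimpleGraph (Fin (q + 2))).Free (G.comap ψ))] :
    (Finset.univ.filter (fun ψ : Fin M → V => ¬ (⊤ : SimpleGraph (Fin (q + 2))).Free (G.comap ψ))).card *
      Nat.card V ^ (q + 2) ≤ M ^ (q + 2) * ((cq G Set.univ (Fin (q + 2))).ncard * Nat.card V ^ M) := by
  classical
  have hsub : (Finset.univ.filter (fun ψ : Fin M → V => ¬ (⊤ : SimpleGraph (Fin (q + 2))).Free (G.comap ψ))) ⊆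
      (Finset.univ.filter (fun t : Fin (q + 2) → Fin M => Function.Injective t)).biUnion
        (fun t => Finset.univ.filter (fun ψ : Fin M → V => ψ ∘ t ∈ cq G Set.univ (Fin (q + 2)))) := by
    intro ψ hψ
    rw [Finset.mem_filter] at hψ
    have h1 := hψ.2
    rw [SimpleGraph.Free, not_not] at h1
    obtain ⟨t⟩ := h1
    rw [Finset.mem_biUnion]
    refine ⟨fun i => t i, ?_, ?_⟩
    · rw [Finset.mem_filter]
      exact ⟨Finset.mem_univ _, t.injective⟩
    · rw [Finset.mem_filter]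
      refine ⟨Finset.mem_univ _, fun i => trivial, fun i j hij => ?_⟩
      exact t.toHom.map_adj (show (⊤ : SimpleGraph (Fin (q + 2))).Adj i j from hij)
  have h2 := (Finset.card_le_card hsub).trans Finset.card_biUnion_le
  have h3 : ∀ t ∈ Finset.univ.filter (fun t : Fin (q + 2) → Fin M => Function.Injective t),
      (Finset.univ.filter (fun ψ : Fin M → V => ψ ∘ t ∈ cq G Set.univ (Fin (q + 2)))).card *
        Nat.card V ^ (q + 2) = (cq G Set.univ (Fin (q + 2))).ncard * Nat.card V ^ M := by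
    intro t ht
    rw [Finset.mem_filter] at ht
    have h4 := sup_fiber t ht.2 (cq G Set.univ (Fin (q + 2)))
    rw [Nat.card_fin] at h4
    rw [← h4, ← Set.ncard_coe_finset]
    congr 2
    ext ψ
    simp
  calc _ ≤ (∑ t ∈ Finset.univ.filter (fun t : Fin (q + 2) → Fin M => Function.Injective t),
        (Finset.univ.filter (fun ψ : Fin M → V => ψ ∘ t ∈ cq G Set.univ (Fin (q + 2)))).card) *
          Nat.card V ^ (q + 2) := Nat.mul_le_mul_right _ h2
    _ = (Finset.univ.filter (fun t : Fin (q + 2) → Fin M => Function.Injective t)).card *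
          ((cq G Set.univ (Fin (q + 2))).ncard * Nat.card V ^ M) := by
        rw [Finset.sum_mul, Finset.sum_congr rfl h3, Finset.sum_const, smul_eq_mul]
    _ ≤ M ^ (q + 2) * ((cq G Set.univ (Fin (q + 2))).ncard * Nat.card V ^ M) := by
        refine Nat.mul_le_mul_right _ ?_
        refine (Finset.card_filter_le _ _).trans ?_
        rw [Finset.card_univ, Fintype.card_fun, Fintype.card_fin, Fintype.card_fin]

theorem sup_ineq [Finite α] (H : SimpleGraph α) (q : ℕ) {M : ℕ} (hM : Nat.card α ≤ M) [Finite V] [Nonempty V]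
    (G : SimpleGraph V) : (hom H G : ℝ) ≤
      ((bF H (⊤ : SimpleGraph (Fin (q + 2))) M : ℝ) / ((M.descFactorial (Nat.card α) : ℕ) : ℝ)
        + (M : ℝ) ^ (q + 2) * ((cq G Set.univ (Fin (q + 2))).ncard : ℝ) / (Nat.card V : ℝ) ^ (q + 2))
      * (Nat.card V : ℝ) ^ Nat.card α := by
  classical
  have := Fintype.ofFinite V
  have hn : (0 : ℝ) < (Nat.card V : ℝ) := by exact_mod_cast Nat.card_pos
  have hd : (0 : ℝ) < ((M.descFactorial (Nat.card α) : ℕ) : ℝ) := by
    exact_mod_cast Nat.descFactorial_pos.mpr hM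
  have h1 := sup_double H (M := M) G
  have h2 := sup_bad q M G
  have h3 : (∑ ψ : Fin M → V, inj H (G.comap ψ)) ≤
      Nat.card V ^ M * bF H (⊤ : SimpleGraph (Fin (q + 2))) M +
        (Finset.univ.filter (fun ψ : Fin M → V => ¬ (⊤ : SimpleGraph (Fin (q + 2))).Free (G.comap ψ))).card *
          M.descFactorial (Nat.card α) := by
    have h4 : ∀ ψ : Fin M → V, inj H (G.comap ψ) ≤ bF H (⊤ : SimpleGraph (Fin (q + 2))) M +
        if ¬ (⊤ : SimpleGraph (Fin (q + 2))).Free (G.comap ψ) then M.descFactorial (Nat.card α) else 0 := by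
      intro ψ
      by_cases hψ : (⊤ : SimpleGraph (Fin (q + 2))).Free (G.comap ψ)
      · have := inj_le_bF H _ hψ
        rw [Nat.card_fin] at this
        exact this.trans (Nat.le_add_right _ _)
      · rw [if_pos hψ]
        exact (sup_inj_le H (G.comap ψ)).trans (Nat.le_add_left _ _)
    refine (Finset.sum_le_sum (fun ψ _ => h4 ψ)).trans ?_
    rw [Finset.sum_add_distrib, Finset.sum_const, ← Finset.sum_filter, Finset.sum_const, smul_eq_mul,
      smul_eq_mul, Finset.card_univ, Fintype.card_fun, Fintype.card_fin, Nat.card_eq_fintype_card (α := V)]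
  set a : ℝ := (bF H (⊤ : SimpleGraph (Fin (q + 2))) M : ℝ) with ha
  set d : ℝ := ((M.descFactorial (Nat.card α) : ℕ) : ℝ) with hdd
  set c : ℝ := ((cq G Set.univ (Fin (q + 2))).ncard : ℝ) with hc
  set n : ℝ := (Nat.card V : ℝ) with hnn
  set b : ℝ := ((Finset.univ.filter
    (fun ψ : Fin M → V => ¬ (⊤ : SimpleGraph (Fin (q + 2))).Free (G.comap ψ))).card : ℝ) with hb
  set s : ℝ := ((∑ ψ : Fin M → V, inj H (G.comap ψ) : ℕ) : ℝ) with hs
  have h1' : s * n ^ Nat.card α = d * ((hom H G : ℝ) * n ^ M) := by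
    rw [hs, hnn, hdd]
    exact_mod_cast h1
  have h2' : b * n ^ (q + 2) ≤ (M : ℝ) ^ (q + 2) * (c * n ^ M) := by
    rw [hb, hnn, hc]
    exact_mod_cast h2
  have h3' : s ≤ n ^ M * a + b * d := by
    rw [hs, hnn, ha, hb, hdd]
    exact_mod_cast h3
  have h5 : b ≤ (M : ℝ) ^ (q + 2) * c / n ^ (q + 2) * n ^ M := by
    rw [div_mul_eq_mul_div, le_div_iff₀ (by positivity)]
    calc b * n ^ (q + 2) ≤ (M : ℝ) ^ (q + 2) * (c * n ^ M) := h2'
      _ = _ := by ring
  have h6 : d * n ^ M * (hom H G : ℝ) ≤ d * n ^ M * ((a / d + (M : ℝ) ^ (q + 2) * c / n ^ (q + 2)) *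
      n ^ Nat.card α) := by
    calc d * n ^ M * (hom H G : ℝ) = s * n ^ Nat.card α := by rw [h1']; ring
      _ ≤ (n ^ M * a + ((M : ℝ) ^ (q + 2) * c / n ^ (q + 2) * n ^ M) * d) * n ^ Nat.card α := by
          refine mul_le_mul_of_nonneg_right (h3'.trans ?_) (by positivity)
          have := mul_le_mul_of_nonneg_right h5 hd.le
          linarith
      _ = _ := by
          have : a = a / d * d := by field_simp
          rw [this]
          have h7 : a / d * d / d = a / d := by field_simp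
          rw [h7]
          ring
  exact le_of_mul_le_mul_left h6 (by positivity)

theorem piK_nonneg (q : ℕ) (H : SimpleGraph α) : 0 ≤ piK q H := by
  unfold piK
  apply Real.sInf_nonneg
  rintro r ⟨M, -, rfl⟩
  positivity

private theorem piK_bdd (q : ℕ) (H : SimpleGraph α) : BddBelow {r : ℝ | ∃ M : ℕ, Nat.card α ≤ M ∧
    r = (bF H (⊤ : SimpleGraph (Fin (q + 2))) M : ℝ) / ((M.descFactorial (Nat.card α) : ℕ) : ℝ)} := by
  refine ⟨0, ?_⟩
  rintro r ⟨M, -, rfl⟩
  positivity

theorem piK_le (H : SimpleGraph α) (q : ℕ) (M : ℕ) :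
    piK q H * ((M.descFactorial (Nat.card α) : ℕ) : ℝ) ≤ bF H (⊤ : SimpleGraph (Fin (q + 2))) M := by
  by_cases hM : Nat.card α ≤ M
  · have hd : (0 : ℝ) < ((M.descFactorial (Nat.card α) : ℕ) : ℝ) := by
      exact_mod_cast Nat.descFactorial_pos.mpr hM
    rw [← le_div_iff₀ hd]
    exact csInf_le (piK_bdd q H) ⟨M, hM, rfl⟩
  · rw [Nat.descFactorial_of_lt (by omega)]
    simp

theorem hom_le_piK [Finite α] (H : SimpleGraph α) (q : ℕ) {ε : ℝ} (hε : 0 < ε) :
    ∃ τ : ℝ, 0 < τ ∧ ∀ (V : Type) [Finite V] [Nonempty V] (G : SimpleGraph V),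
      ((cq G Set.univ (Fin (q + 2))).ncard : ℝ) ≤ τ * (Nat.card V : ℝ) ^ (q + 2) →
      (hom H G : ℝ) ≤ (piK q H + ε) * (Nat.card V : ℝ) ^ Nat.card α := by
  obtain ⟨r, ⟨M, hM, rfl⟩, hr⟩ : ∃ r ∈ {r : ℝ | ∃ M : ℕ, Nat.card α ≤ M ∧
      r = (bF H (⊤ : SimpleGraph (Fin (q + 2))) M : ℝ) / ((M.descFactorial (Nat.card α) : ℕ) : ℝ)},
      r < piK q H + ε / 2 := by
    apply exists_lt_of_csInf_lt
    · exact ⟨_, Nat.card α, le_rfl, rfl⟩
    · change piK q H < piK q H + ε / 2
      linarith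
  refine ⟨ε / (2 * ((M : ℝ) ^ (q + 2) + 1)), by positivity, ?_⟩
  intro V _ _ G hG
  have hn : (0 : ℝ) < (Nat.card V : ℝ) := by exact_mod_cast Nat.card_pos
  refine (sup_ineq H q hM G).trans ?_
  refine mul_le_mul_of_nonneg_right ?_ (by positivity)
  have h1 : (M : ℝ) ^ (q + 2) * ((cq G Set.univ (Fin (q + 2))).ncard : ℝ) / (Nat.card V : ℝ) ^ (q + 2) ≤
      ε / 2 := by
    rw [div_le_iff₀ (by positivity)]
    calc (M : ℝ) ^ (q + 2) * ((cq G Set.univ (Fin (q + 2))).ncard : ℝ)
        ≤ ((M : ℝ) ^ (q + 2) + 1) *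
          (ε / (2 * ((M : ℝ) ^ (q + 2) + 1)) * (Nat.card V : ℝ) ^ (q + 2)) := by
          refine mul_le_mul (by linarith) hG (by positivity) (by positivity)
      _ = ε / 2 * (Nat.card V : ℝ) ^ (q + 2) := by
          field_simp
  linarith

theorem piK_pos [Finite α] [Nonempty α] {H : SimpleGraph α} {q : ℕ} (hH : H.CliqueFree (q + 2)) : 0 < piK q H := by
  obtain ⟨c, hc, n₀, hn₀⟩ := k_lower (k := q + 2) (by omega) hH
  refine lt_of_lt_of_le hc ?_
  unfold piK
  refine le_csInf ⟨_, Nat.card α, le_rfl, rfl⟩ ?_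
  rintro r ⟨M, hM, rfl⟩
  set n := max n₀ 1 with hn
  have hn1 : 1 ≤ n := le_max_right _ _
  obtain ⟨G, hG, hGn⟩ := exists_bF H (F := (⊤ : SimpleGraph (Fin (q + 2))))
    ⟨⟨0, by omega⟩, ⟨1, by omega⟩, by simp [SimpleGraph.top_adj]⟩ n
  have : Nonempty (Fin n) := ⟨⟨0, hn1⟩⟩
  have hcq : cq G Set.univ (Fin (q + 2)) = ∅ := by
    rw [Set.eq_empty_iff_forall_notMem]
    rintro f ⟨-, hf⟩
    have hinj : Function.Injective f := by
      intro i j hij
      by_contra hne
      have := hf i j hne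
      rw [hij] at this
      exact this.ne rfl
    exact hG ⟨⟨⟨f, fun {i j} hij => hf i j hij.ne⟩, hinj⟩⟩
  have h1 := sup_ineq H q hM G
  rw [hcq] at h1
  simp only [Set.ncard_empty, Nat.cast_zero, mul_zero, zero_div, add_zero, Nat.card_fin] at h1
  have h2 := hn₀ n (le_max_left _ _)
  have h3 := inj_le_hom H G
  rw [hGn] at h3
  have h3' : (bF H (⊤ : SimpleGraph (Fin (q + 2))) n : ℝ) ≤ (hom H G : ℝ) := by exact_mod_cast h3
  have hnpos : (0 : ℝ) < (n : ℝ) := by exact_mod_cast hn1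
  have h4 : c * (n : ℝ) ^ Nat.card α ≤
      (bF H (⊤ : SimpleGraph (Fin (q + 2))) M : ℝ) / ((M.descFactorial (Nat.card α) : ℕ) : ℝ) *
        (n : ℝ) ^ Nat.card α := by linarith
  exact le_of_mul_le_mul_right h4 (by positivity)

end Pool.Agent.WTK
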