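import Pool.Agent.WTK.ClK
import Pool.Agent.WTK.Sup
import Pool.Agent.WT7.Clone
import Pool.Agent.WT7.Basic

/-!
# [WTK-StarK] a set with few `(k-1)`-cliques

Choose `σ ∈ (0, 1]` with `π h (1 + 2 σ)^(h-1) ≤ π h + ε / 2`, `η = σ ε / 2^(h + 3)`, `τ₀` from `hom_le_piK` for `η`, and `τ ≤ η`, `τ (1 + 2 (q + 2)) ≤ τ₀`. Let `m = ⌈σ n⌉`, `σ n ≤ m ≤ 2 σ n` for large `n`. By `cq_clone` the graph `Cl G S m` (on `n + m` vertices) has at most
`τ n^(q+2) + (q + 2) m τ n^(q+1) ≤ τ₀ (n + m)^(q+2)` labelled `k`-cliques. By `inj_clone`, `inj_le_hom`, `hom_le_piK`: `(π - τ) n^h + m D ≤ (π + η) (n + m)^h`, so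
`m D ≤ π ((n + m)^h - n^h) + η (n + m)^h + τ n^h ≤ π h m (n + m)^(h-1) + 2^(h+1) η n^h` and `D ≤ π h (1 + 2 σ)^(h-1) n^(h-1) + 2^(h+1) (η / σ) n^(h-1)`. (`(n+m)^h - n^h ≤ h m (n+m)^(h-1)`; see also WT7.Star.) `h ≥ 1`.
-/

set_option autoImplicit false

namespace Pool.Agent.WTK

open Pool.Agent.WT7 Filter

variable {α : Type}

private theorem star_pow (k : ℕ) {x y : ℝ} (hx : 0 ≤ x) (hxy : x ≤ y) :
    y ^ (k + 1) - x ^ (k + 1) ≤ (k + 1) * y ^ k * (y - x) := by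
  have hy : 0 ≤ y := hx.trans hxy
  induction k with
  | zero => simp
  | succ k ih =>
    have h1 : x ^ (k + 1) ≤ y ^ (k + 1) := pow_le_pow_left₀ hx hxy _
    have h2 : 0 ≤ y - x := sub_nonneg.2 hxy
    have h3 : y * (y ^ (k + 1) - x ^ (k + 1)) ≤ y * ((k + 1) * y ^ k * (y - x)) :=
      mul_le_mul_of_nonneg_left ih hy
    have h4 : x ^ (k + 1) * (y - x) ≤ y ^ (k + 1) * (y - x) :=
      mul_le_mul_of_nonneg_right h1 h2
    push_cast
    calc y ^ (k + 1 + 1) - x ^ (k + 1 + 1)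
        = y * (y ^ (k + 1) - x ^ (k + 1)) + x ^ (k + 1) * (y - x) := by ring
      _ ≤ y * ((k + 1) * y ^ k * (y - x)) + y ^ (k + 1) * (y - x) := add_le_add h3 h4
      _ = ((k : ℝ) + 1 + 1) * y ^ (k + 1) * (y - x) := by ring

private theorem star_sigma (k : ℕ) (P : ℝ) {ε : ℝ} (hε : 0 < ε) :
    ∃ σ : ℝ, 0 < σ ∧ σ ≤ 1 ∧ P * ((k : ℝ) + 1) * ((1 + 2 * σ) ^ k - 1) ≤ ε / 2 := by
  have hc : ContinuousAt (fun σ : ℝ => P * ((k : ℝ) + 1) * ((1 + 2 * σ) ^ k - 1)) 0 := by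
    fun_prop
  have h0 : P * ((k : ℝ) + 1) * ((1 + 2 * (0 : ℝ)) ^ k - 1) < ε / 2 := by
    have : (0 : ℝ) < ε / 2 := by positivity
    simpa using this
  have hev := hc.eventually_lt_const h0
  obtain ⟨δ, hδ, hball⟩ := Metric.eventually_nhds_iff.1 hev
  refine ⟨min 1 (δ / 2), by positivity, min_le_left _ _, ?_⟩
  have hpos : 0 < min 1 (δ / 2) := by positivity
  have := hball (y := min 1 (δ / 2)) (by
    rw [Real.dist_eq, sub_zero, abs_of_pos hpos]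
    exact (min_le_right _ _).trans_lt (by linarith))
  exact this.le

private theorem star_arith (k : ℕ) {n m d p t s e η : ℝ} (hn : 0 < n) (hs : 0 < s) (hs1 : s ≤ 1)
    (hm1 : s * n ≤ m) (hm2 : m ≤ 2 * s * n) (hp0 : 0 ≤ p)
    (hK : p * ((k : ℝ) + 1) * ((1 + 2 * s) ^ k - 1) ≤ e / 2)
    (hη : η * (4 * 3 ^ (k + 1)) = s * e) (hη0 : 0 ≤ η) (ht : t ≤ η)
    (hmain : (p - t) * n ^ (k + 1) + m * d ≤ (p + η) * (n + m) ^ (k + 1)) :
    d ≤ (p * ((k : ℝ) + 1) + e) * n ^ k := by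
  have hm0 : 0 < m := lt_of_lt_of_le (by positivity) hm1
  have hN : 0 ≤ n ^ k := by positivity
  have hnm : n + m ≤ (1 + 2 * s) * n := by linarith
  have hnm3 : n + m ≤ 3 * n := by nlinarith
  have h1 : (n + m) ^ (k + 1) - n ^ (k + 1) ≤ ((k : ℝ) + 1) * (n + m) ^ k * m := by
    have := star_pow k hn.le (show n ≤ n + m by linarith)
    have e1 : n + m - n = m := by ring
    rw [e1] at this
    exact this
  have h2 : (n + m) ^ k ≤ (1 + 2 * s) ^ k * n ^ k := by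
    rw [← mul_pow]
    exact pow_le_pow_left₀ (by linarith) hnm _
  have h3 : (n + m) ^ (k + 1) ≤ 3 ^ (k + 1) * (n * n ^ k) := by
    calc (n + m) ^ (k + 1) ≤ (3 * n) ^ (k + 1) := pow_le_pow_left₀ (by linarith) hnm3 _
      _ = 3 ^ (k + 1) * (n * n ^ k) := by rw [mul_pow]; ring
  have h6 : n ^ (k + 1) = n * n ^ k := by ring
  set K := (1 + 2 * s) ^ k with hKdef
  set N := n ^ k with hNdef
  have h4 : p * ((n + m) ^ (k + 1) - n ^ (k + 1)) ≤ p * (((k : ℝ) + 1) * (K * N) * m) := by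
    refine mul_le_mul_of_nonneg_left (h1.trans ?_) hp0
    exact mul_le_mul_of_nonneg_right (mul_le_mul_of_nonneg_left h2 (by positivity)) hm0.le
  have h31 : (1 : ℝ) ≤ 3 ^ (k + 1) := one_le_pow₀ (by norm_num)
  have h5 : η * (n + m) ^ (k + 1) ≤ η * (3 ^ (k + 1) * (n * N)) :=
    mul_le_mul_of_nonneg_left h3 hη0
  have h5b : t * n ^ (k + 1) ≤ η * (3 ^ (k + 1) * (n * N)) := by
    rw [h6]
    have hnN : 0 ≤ n * N := by positivity
    calc t * (n * N) ≤ η * (n * N) := mul_le_mul_of_nonneg_right ht hnN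
      _ = η * (1 * (n * N)) := by ring
      _ ≤ η * (3 ^ (k + 1) * (n * N)) :=
        mul_le_mul_of_nonneg_left (mul_le_mul_of_nonneg_right h31 hnN) hη0
  have h7 : m * d ≤ p * (((k : ℝ) + 1) * (K * N) * m) + 2 * (η * (3 ^ (k + 1) * (n * N))) := by
    nlinarith [h4, h5, h5b, hmain]
  have h8 : 2 * (η * (3 ^ (k + 1) * (n * N))) = (e / 2) * (s * n) * N := by
    have : η * 3 ^ (k + 1) = s * e / 4 := by linarith
    calc 2 * (η * (3 ^ (k + 1) * (n * N))) = 2 * (η * 3 ^ (k + 1)) * (n * N) := by ring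
      _ = _ := by rw [this]; ring
  have he : 0 ≤ e := by
    have : 0 ≤ s * e := by rw [← hη]; positivity
    exact nonneg_of_mul_nonneg_right this hs
  have h9 : (e / 2) * (s * n) * N ≤ (e / 2) * m * N :=
    mul_le_mul_of_nonneg_right (mul_le_mul_of_nonneg_left hm1 (by positivity)) hN
  have h11 : p * (((k : ℝ) + 1) * (K * N) * m) ≤ (p * ((k : ℝ) + 1) + e / 2) * N * m := by
    have h12 : p * ((k : ℝ) + 1) * (K - 1) * (N * m) ≤ e / 2 * (N * m) :=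
      mul_le_mul_of_nonneg_right hK (by positivity)
    nlinarith [h12]
  have h13 : m * d ≤ m * ((p * ((k : ℝ) + 1) + e) * N) := by
    rw [h8] at h7
    nlinarith [h7, h9, h11]
  exact le_of_mul_le_mul_left h13 hm0

theorem starK [Finite α] [Nonempty α] (H : SimpleGraph α) (q : ℕ) {ε : ℝ} (hε : 0 < ε) :
    ∃ τ : ℝ, 0 < τ ∧ ∃ n₀ : ℕ, ∀ (V : Type) [Finite V], n₀ ≤ Nat.card V → ∀ (G : SimpleGraph V) (S : Set V),
      ((cq G Set.univ (Fin (q + 2))).ncard : ℝ) ≤ τ * (Nat.card V : ℝ) ^ (q + 2) →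
      ((cq G S (Fin (q + 1))).ncard : ℝ) ≤ τ * (Nat.card V : ℝ) ^ (q + 1) →
      (piK q H - τ) * (Nat.card V : ℝ) ^ Nat.card α ≤ inj H G →
      (D H G S : ℝ) ≤ (piK q H * Nat.card α + ε) * (Nat.card V : ℝ) ^ (Nat.card α - 1) := by
  have hα : 0 < Nat.card α := Nat.card_pos
  obtain ⟨k, hk⟩ : ∃ k, Nat.card α = k + 1 := ⟨Nat.card α - 1, by omega⟩
  obtain ⟨σ, hσ, hσ1, hK⟩ := star_sigma k (piK q H) hε
  set η : ℝ := σ * ε / (4 * 3 ^ (k + 1)) with hη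
  have hη0 : 0 < η := by positivity
  obtain ⟨τ₀, hτ₀, hpi⟩ := hom_le_piK H q hη0
  set τ : ℝ := min η (τ₀ / (1 + 2 * ((q : ℝ) + 2))) with hτ
  have hτ0 : 0 < τ := by positivity
  have hτ1 : τ ≤ η := min_le_left _ _
  have hτ2 : τ * (1 + 2 * ((q : ℝ) + 2)) ≤ τ₀ := by
    have h1 : τ ≤ τ₀ / (1 + 2 * ((q : ℝ) + 2)) := min_le_right _ _
    rwa [le_div_iff₀ (by positivity)] at h1
  refine ⟨τ, hτ0, ⌈1 / σ⌉₊ + 1, ?_⟩
  intro V _ hV G S hcq hcS hinj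
  set n : ℝ := (Nat.card V : ℝ) with hn
  have hn1 : 1 ≤ Nat.card V := by omega
  have hn1' : (1 : ℝ) ≤ n := by rw [hn]; exact_mod_cast hn1
  have hn0 : 0 < n := by linarith
  have : Nonempty V := (Nat.card_pos_iff.1 (by omega)).1
  have hσn : 1 ≤ σ * n := by
    have h1 : 1 / σ ≤ n := by
      have h2 : (1 / σ : ℝ) ≤ (⌈1 / σ⌉₊ : ℝ) := Nat.le_ceil _
      have h3 : ((⌈1 / σ⌉₊ + 1 : ℕ) : ℝ) ≤ n := by rw [hn]; exact_mod_cast hV
      push_cast at h3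
      linarith
    rw [div_le_iff₀ hσ] at h1
    linarith
  set m : ℕ := ⌈σ * n⌉₊ with hm
  have hm1 : σ * n ≤ (m : ℝ) := Nat.le_ceil _
  have hm2 : (m : ℝ) ≤ 2 * σ * n := by
    have := Nat.ceil_lt_add_one (show 0 ≤ σ * n by positivity)
    linarith
  have hm3 : (m : ℝ) ≤ 2 * n := by
    have : σ * n ≤ 1 * n := mul_le_mul_of_nonneg_right hσ1 hn0.le
    linarith
  have hcard : Nat.card (V ⊕ Fin m) = Nat.card V + m := by
    rw [Nat.card_sum, Nat.card_eq_fintype_card (α := Fin m), Fintype.card_fin]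
  have hcardr : (Nat.card (V ⊕ Fin m) : ℝ) = n + m := by rw [hcard]; push_cast; rfl
  have hc1 := inj_clone H G S m
  have hc2 := inj_le_hom H (Cl G S m)
  have hc3 := cq_clone G S m q
  have hc4 : ((cq (Cl G S m) Set.univ (Fin (q + 2))).ncard : ℝ) ≤ τ₀ * (Nat.card (V ⊕ Fin m) : ℝ) ^ (q + 2) := by
    have h1 : ((cq (Cl G S m) Set.univ (Fin (q + 2))).ncard : ℝ) ≤
        ((cq G Set.univ (Fin (q + 2))).ncard : ℝ) + ((q : ℝ) + 2) * ((m : ℝ) * ((cq G S (Fin (q + 1))).ncard : ℝ)) := by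
      exact_mod_cast hc3
    have h2 : (m : ℝ) * ((cq G S (Fin (q + 1))).ncard : ℝ) ≤ (2 * n) * (τ * n ^ (q + 1)) :=
      mul_le_mul hm3 hcS (by positivity) (by positivity)
    have h3 : ((q : ℝ) + 2) * ((m : ℝ) * ((cq G S (Fin (q + 1))).ncard : ℝ)) ≤
        ((q : ℝ) + 2) * ((2 * n) * (τ * n ^ (q + 1))) :=
      mul_le_mul_of_nonneg_left h2 (by positivity)
    have h4 : n ^ (q + 2) ≤ (Nat.card (V ⊕ Fin m) : ℝ) ^ (q + 2) := by
      rw [hcardr]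
      have hm0 : (0 : ℝ) ≤ m := Nat.cast_nonneg m
      exact pow_le_pow_left₀ hn0.le (by linarith) _
    calc ((cq (Cl G S m) Set.univ (Fin (q + 2))).ncard : ℝ) ≤
        τ * n ^ (q + 2) + ((q : ℝ) + 2) * ((2 * n) * (τ * n ^ (q + 1))) :=
          h1.trans (add_le_add hcq h3)
      _ = τ * (1 + 2 * ((q : ℝ) + 2)) * n ^ (q + 2) := by ring
      _ ≤ τ₀ * n ^ (q + 2) := mul_le_mul_of_nonneg_right hτ2 (by positivity)
      _ ≤ τ₀ * (Nat.card (V ⊕ Fin m) : ℝ) ^ (q + 2) := mul_le_mul_of_nonneg_left h4 hτ₀.le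
  have hc5 := hpi (V ⊕ Fin m) (Cl G S m) hc4
  rw [hcardr, hk] at hc5
  have hc6 : (inj H G : ℝ) + m * (D H G S : ℝ) ≤ (hom H (Cl G S m) : ℝ) := by
    exact_mod_cast hc1.trans hc2
  rw [hk] at hinj ⊢
  have h21 : k + 1 - 1 = k := by omega
  rw [h21]
  push_cast
  refine star_arith k hn0 hσ hσ1 hm1 hm2 (piK_nonneg q H) hK (η := η) (t := τ) ?_ hη0.le hτ1 ?_
  · rw [hη]; field_simp
  · linarith

/-- the same for sequences -/
theorem Sit.star [Finite α] [Nonempty α] {q : ℕ} {H : SimpleGraph α} {U : Ultrafilter ℕ} {n : ℕ → ℕ}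
    {G : ∀ m, SimpleGraph (Fin (n m))} (h : Sit q H U n G) {S : ∀ m, Set (Fin (n m))}
    (hS : Few U n (fun m => cq (G m) (S m) (Fin (q + 1)))) {ε : ℝ} (hε : 0 < ε) :
    ∀ᶠ m in (U : Filter ℕ), (D H (G m) (S m) : ℝ) ≤
      (piK q H * Nat.card α + ε) * (n m : ℝ) ^ (Nat.card α - 1) := by
  obtain ⟨τ, hτ, n₀, hst⟩ := starK H q hε
  filter_upwards [h.few τ hτ, hS τ hτ, h.inj τ hτ, h.ntop.eventually_ge_atTop n₀] with m h1 h2 h3 h4
  have hc : Nat.card (Fin (n m)) = n m := by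
    rw [Nat.card_eq_fintype_card, Fintype.card_fin]
  have hq2 : Nat.card (Fin (q + 2)) = q + 2 := by
    rw [Nat.card_eq_fintype_card, Fintype.card_fin]
  have hq1 : Nat.card (Fin (q + 1)) = q + 1 := by
    rw [Nat.card_eq_fintype_card, Fintype.card_fin]
  rw [hq2] at h1
  rw [hq1] at h2
  have := hst (Fin (n m)) (by rw [hc]; exact h4) (G m) (S m)
  rw [hc] at this
  exact this h1 h2 h3

end Pool.Agent.WTK
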