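import Pool.Agent.WTK.Defs

/-!
# [WTK-Box] blow-ups of many tuples

`box`: first for `ι = Fin p`, by induction on `p` (for all `κ`, `c`, `ρ`). `p = 0`: `κ` is empty, `T` is nonempty, `γ = 1`. Step: `ι = Fin (p + 1)`, `κ₀ = {v | c v = 0}`, `s = |κ₀| + 1`; for `y : Fin p → V` let `T_y = {x | Fin.cons x y ∈ T}`.
`∑_y |T_y|^s ≥ n^p (ρ n)^s` (power mean, `inner_le_nnorm_mul_nnorm` / `inv_mul_le..`, `Finset.inner_le_Lp_mul_Lq`, or `inner_pow_le`: `(∑ a_y)^s ≤ n^(p (s-1)) ∑ a_y^s`, `inv_pow_sum..`: `inner_le`; Mathlib: `Finset.inner_mul_le_norm_mul_norm`,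
`inner..`; the right one is `inner_le` = `Real.inner_le_Lp_mul_Lq` or better `Finset.pow_arith_mean_le_arith_mean_pow` / `inv_mul_sum..` = `inner_sum_pow_le_pow_mul_sum_pow`), which is the number of triples `(f₀, g₀, y)` with `f₀ : κ₀ → V`, `g₀ : V`, `Fin.cons (f₀ v) y ∈ T` for all `v`, `Fin.cons g₀ y ∈ T`.
So at least `(ρ^s / 2) n^s` pairs `(f₀, g₀)` have `T' = {y | ..}` of size `≥ (ρ^s / 2) n^p`; at least `(ρ^s / 2) n^(s-1)` maps `f₀` have such a `g₀`. Apply the induction hypothesis to `T'`, `κ₁ = {v | c v ≠ 0} → Fin p`.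
For general `ι` use an equivalence with `Fin (Nat.card ι)`.
`ncard_noninj_le`: union over the pairs of indices. `ncard_hit_le`: union over the indices.
-/

set_option autoImplicit false

namespace Pool.Agent.WTK

/-- `f` is a blow-up in `T`: with a further tuple `g`, all tuples `Q` with `Q i = g i` or `Q i = f v` with `c v = i` are in `T` -/
def Blow {ι κ V : Type} (c : κ → ι) (T : Set (ι → V)) (f : κ → V) : Prop :=
  ∃ g : ι → V, ∀ Q : ι → V, (∀ i, Q i = g i ∨ ∃ v, c v = i ∧ Q i = f v) → Q ∈ T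

private theorem box_nc {A : Type} [Fintype A] (P : A → Prop) [DecidablePred P] :
    ({a | P a} : Set A).ncard = (Finset.univ.filter P).card := by
  rw [Set.ncard_eq_toFinset_card']
  congr 1
  ext a
  simp

/-- many tuples of elements of `X` have many common neighbours in `Y` -/
private theorem box_bip {X Y K : Type} [Fintype X] [Fintype Y] [Fintype K] [Nonempty Y]
    (R : X → Y → Prop) {ρ : ℝ} (hρ : 0 < ρ)
    (h : ρ * (Fintype.card X * Fintype.card Y) ≤ (({z : X × Y | R z.1 z.2}).ncard : ℝ)) :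
    ρ ^ Fintype.card K / 2 * (Fintype.card X : ℝ) ^ Fintype.card K ≤
      (({f : K → X | ρ ^ Fintype.card K / 2 * (Fintype.card Y : ℝ) ≤
        (({y | ∀ v, R (f v) y}).ncard : ℝ)}).ncard : ℝ) := by
  classical
  simp only [box_nc] at h ⊢
  set s := Fintype.card K with hs
  set NX : ℝ := (Fintype.card X : ℝ) with hNX
  set NY : ℝ := (Fintype.card Y : ℝ) with hNY
  have hNYpos : 0 < NY := by rw [hNY]; exact_mod_cast Fintype.card_pos
  have hNX0 : 0 ≤ NX := by rw [hNX]; positivity
  set a : Y → ℝ := fun y => ((Finset.univ.filter fun x => R x y).card : ℝ) with ha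
  set d : (K → X) → ℝ := fun f => ((Finset.univ.filter fun y => ∀ v, R (f v) y).card : ℝ) with hd
  have ha0 : ∀ y, 0 ≤ a y := fun y => by simp only [ha]; positivity
  have h1 : ∑ y, a y = ((Finset.univ.filter fun z : X × Y => R z.1 z.2).card : ℝ) := by
    rw [Finset.card_filter, Nat.cast_sum, Fintype.sum_prod_type_right]
    refine Finset.sum_congr rfl fun y _ => ?_
    simp only [ha]
    rw [Finset.card_filter, Nat.cast_sum]
  have h2 : ∑ f, d f = ∑ y, a y ^ s := by
    have e1 : ∀ f : K → X, d f = ∑ y, (if (∀ v, R (f v) y) then (1 : ℝ) else 0) := by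
      intro f
      simp only [hd]
      rw [Finset.card_filter, Nat.cast_sum]
      refine Finset.sum_congr rfl fun y _ => ?_
      split <;> simp
    rw [Finset.sum_congr rfl fun f _ => e1 f, Finset.sum_comm]
    refine Finset.sum_congr rfl fun y _ => ?_
    have e2 : ∑ f : K → X, (if (∀ v, R (f v) y) then (1 : ℝ) else 0) =
        ((Finset.univ.filter fun f : K → X => ∀ v, R (f v) y).card : ℝ) := by
      rw [Finset.card_filter, Nat.cast_sum]
      refine Finset.sum_congr rfl fun f _ => ?_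
      split <;> simp
    rw [e2]
    have e3 : (Finset.univ.filter fun f : K → X => ∀ v, R (f v) y) =
        Fintype.piFinset fun _ : K => Finset.univ.filter fun x => R x y := by
      ext f
      simp [Fintype.mem_piFinset]
    rw [e3, Fintype.card_piFinset, Finset.prod_const, Finset.card_univ, Nat.cast_pow]
  have h3 : NY * (ρ * NX) ^ s ≤ ∑ y, a y ^ s := by
    have e1 := Real.pow_arith_mean_le_arith_mean_pow Finset.univ (fun _ : Y => 1 / NY) a
      (fun _ _ => by positivity) (by
        rw [Finset.sum_const, Finset.card_univ, nsmul_eq_mul, ← hNY]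
        field_simp) (fun y _ => ha0 y) s
    rw [← Finset.mul_sum, ← Finset.mul_sum] at e1
    have e2 : ρ * NX ≤ 1 / NY * ∑ y, a y := by
      rw [h1]
      rw [one_div, inv_mul_eq_div, le_div_iff₀ hNYpos]
      calc ρ * NX * NY = ρ * (NX * NY) := by ring
        _ ≤ _ := h
    have e3 : (ρ * NX) ^ s ≤ (1 / NY * ∑ y, a y) ^ s :=
      pow_le_pow_left₀ (mul_nonneg hρ.le hNX0) e2 s
    have e4 := e3.trans e1
    rw [one_div, inv_mul_eq_div, le_div_iff₀ hNYpos] at e4
    linarith
  set good := Finset.univ.filter fun f : K → X => ρ ^ s / 2 * NY ≤ d f with hgood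
  have h4 : ∑ f, d f ≤ good.card * NY + NX ^ s * (ρ ^ s / 2 * NY) := by
    have e1 : ∀ f, d f ≤ (if f ∈ good then NY else 0) + ρ ^ s / 2 * NY := by
      intro f
      by_cases hf : f ∈ good
      · rw [if_pos hf]
        have e2 : d f ≤ NY := by
          simp only [hd, hNY]
          exact_mod_cast Finset.card_le_univ _
        have e3 : 0 ≤ ρ ^ s / 2 * NY := by positivity
        linarith
      · rw [if_neg hf]
        have e2 : ¬ ρ ^ s / 2 * NY ≤ d f := fun h => hf (Finset.mem_filter.2 ⟨Finset.mem_univ _, h⟩)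
        linarith
    calc ∑ f, d f ≤ ∑ f : K → X, ((if f ∈ good then NY else 0) + ρ ^ s / 2 * NY) :=
          Finset.sum_le_sum fun f _ => e1 f
      _ = _ := by
          rw [Finset.sum_add_distrib, Finset.sum_ite_mem, Finset.univ_inter, Finset.sum_const,
            Finset.sum_const, Finset.card_univ, Fintype.card_fun, nsmul_eq_mul, nsmul_eq_mul,
            Nat.cast_pow]
  rw [h2] at h4
  have h5 : NY * (ρ ^ s / 2 * NX ^ s) ≤ NY * good.card := by
    have e1 := h3.trans h4
    rw [mul_pow] at e1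
    nlinarith
  exact le_of_mul_le_mul_left h5 hNYpos

/-- strong blow-ups: all sections are in `T` -/
private theorem box_sec (p : ℕ) : ∀ (κ : Type) [Finite κ] (c : κ → Fin p) (ρ : ℝ), 0 < ρ →
    ∃ γ : ℝ, 0 < γ ∧ ∀ (V : Type) [Finite V] [Nonempty V] (T : (Fin p → V) → Prop),
      ρ * (Nat.card V : ℝ) ^ p ≤ (({y | T y}).ncard : ℝ) →
      γ * (Nat.card V : ℝ) ^ Nat.card κ ≤
        (({f : κ → V | ∀ s : Fin p → κ, (∀ i, c (s i) = i) → T (fun i => f (s i))}).ncard : ℝ) := by
  induction p with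
  | zero =>
    intro κ _ c ρ hρ
    have : IsEmpty κ := ⟨fun v => (c v).elim0⟩
    refine ⟨1, one_pos, ?_⟩
    intro V _ _ T hT
    have h1 : T (fun i => i.elim0) := by
      by_contra hcon
      have h2 : {y | T y} = ∅ := by
        rw [Set.eq_empty_iff_forall_notMem]
        intro y hy
        apply hcon
        have : y = fun i => i.elim0 := Subsingleton.elim _ _
        rw [← this]
        exact hy
      rw [h2] at hT
      simp at hT
      linarith
    have h2 : ({f : κ → V | ∀ s : Fin 0 → κ, (∀ i, c (s i) = i) → T (fun i => f (s i))}) =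
        Set.univ := by
      rw [Set.eq_univ_iff_forall]
      intro f s _
      have : (fun i => f (s i)) = fun i : Fin 0 => i.elim0 := Subsingleton.elim _ _
      rw [this]
      exact h1
    rw [h2, Set.ncard_univ, Nat.card_fun]
    simp
  | succ p ih =>
    intro κ _ c ρ hρ
    set s := Nat.card {v // c v = 0} with hs
    obtain ⟨γ, hγ, hmain⟩ := ih {v // c v ≠ 0} (fun v => (c v.1).pred v.2) (ρ ^ s / 2) (by positivity)
    refine ⟨ρ ^ s / 2 * γ, by positivity, ?_⟩
    intro V _ _ T hT
    have := Fintype.ofFinite V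
    have := Fintype.ofFinite {v // c v = 0}
    set N : ℝ := (Nat.card V : ℝ) with hN
    have hNpos : 0 < N := by rw [hN]; exact_mod_cast Nat.card_pos
    -- the bipartite graph
    have hb := box_bip (X := V) (Y := Fin p → V) (K := {v // c v = 0})
      (fun x y => T (Fin.cons x y)) hρ (by
        refine le_trans (le_of_eq ?_) (hT.trans (le_of_eq ?_))
        · rw [Fintype.card_fun, Fintype.card_fin, Nat.cast_pow, ← Nat.card_eq_fintype_card, ← hN,
            pow_succ]
          ring
        · rw [Nat.cast_inj]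
          refine Set.ncard_congr (fun y _ => (y 0, fun i => y i.succ)) ?_ ?_ ?_
          · intro y hy
            have : (Fin.cons (y 0) (fun i => y i.succ) : Fin (p + 1) → V) = y := Fin.cons_self_tail y
            show T (Fin.cons (y 0) (fun i => y i.succ))
            rw [this]
            exact hy
          · intro y z _ _ h
            have h1 := (Prod.ext_iff.1 h).1
            have h2 := (Prod.ext_iff.1 h).2
            funext i
            refine Fin.cases h1 (fun i => congrFun h2 i) i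
          · rintro ⟨x, y⟩ hz
            exact ⟨Fin.cons x y, hz, by simp⟩)
    rw [Fintype.card_fun, Fintype.card_fin, Nat.cast_pow, ← Nat.card_eq_fintype_card,
      ← Nat.card_eq_fintype_card, ← hN, ← hs] at hb
    set good : Set ({v // c v = 0} → V) := {f | ρ ^ s / 2 * N ^ p ≤
        (({y : Fin p → V | ∀ v, T (Fin.cons (f v) y)}).ncard : ℝ)} with hgood
    set S₁ : ({v // c v = 0} → V) → Set ({v // c v ≠ 0} → V) := fun f₀ =>
      {f | ∀ s : Fin p → {v // c v ≠ 0}, (∀ i, (c (s i).1).pred (s i).2 = i) →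
          ∀ v, T (Fin.cons (f₀ v) (fun i => f (s i)))} with hS₁
    have hS : ∀ f₀ ∈ good, γ * N ^ Nat.card {v // c v ≠ 0} ≤ ((S₁ f₀).ncard : ℝ) := by
      intro f₀ hf₀
      exact hmain V (fun y => ∀ v, T (Fin.cons (f₀ v) y)) hf₀
    -- gluing
    set Z : Set (κ → V) := {f | ∀ s : Fin (p + 1) → κ, (∀ i, c (s i) = i) →
      T (fun i => f (s i))} with hZ
    have hcard : ((Set.toFinite good).toFinset.sigma fun f₀ => (Set.toFinite (S₁ f₀)).toFinset).card ≤
        (Set.toFinite Z).toFinset.card := by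
      refine Finset.card_le_card_of_injOn
        (fun z v => if h : c v = 0 then z.1 ⟨v, h⟩ else z.2 ⟨v, h⟩) ?_ ?_
      · rintro ⟨f₀, f₁⟩ hz
        have hz' := Finset.mem_sigma.1 (Finset.mem_coe.1 hz)
        rw [Finset.mem_coe, Set.Finite.mem_toFinset]
        intro t ht
        have h1 := (Set.Finite.mem_toFinset _).1 hz'.2
        have hne : ∀ i : Fin p, c (t i.succ) ≠ 0 := fun i => by
          rw [ht]
          exact Fin.succ_ne_zero i
        have h2 := h1 (fun i => ⟨t i.succ, hne i⟩) (fun i => by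
          simp only [ht, Fin.pred_succ]) ⟨t 0, ht 0⟩
        have h3 : (fun i => if h : c (t i) = 0 then f₀ ⟨t i, h⟩ else f₁ ⟨t i, h⟩) =
            (Fin.cons (f₀ ⟨t 0, ht 0⟩) (fun i => f₁ ⟨t i.succ, hne i⟩) : Fin (p + 1) → V) := by
          funext i
          refine Fin.cases ?_ (fun i => ?_) i
          · rw [dif_pos (ht 0), Fin.cons_zero]
          · rw [dif_neg (hne i), Fin.cons_succ]
        show T (fun i => if h : c (t i) = 0 then f₀ ⟨t i, h⟩ else f₁ ⟨t i, h⟩)
        rw [h3]
        exact h2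
      · rintro ⟨f₀, f₁⟩ _ ⟨g₀, g₁⟩ _ he
        have he' : ∀ v, (if h : c v = 0 then f₀ ⟨v, h⟩ else f₁ ⟨v, h⟩) =
            if h : c v = 0 then g₀ ⟨v, h⟩ else g₁ ⟨v, h⟩ := fun v => congrFun he v
        have e1 : f₀ = g₀ := by
          funext v
          have := he' v.1
          rw [dif_pos v.2, dif_pos v.2] at this
          exact this
        have e2 : f₁ = g₁ := by
          funext v
          have := he' v.1
          rw [dif_neg v.2, dif_neg v.2] at this
          exact this
        rw [e1, e2]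
    have hκ : Nat.card κ = s + Nat.card {v // c v ≠ 0} := by
      rw [hs, ← Nat.card_sum]
      exact Nat.card_congr (Equiv.sumCompl (fun v => c v = 0)).symm
    rw [Finset.card_sigma, ← Set.ncard_eq_toFinset_card] at hcard
    have hcard' : (∑ f₀ ∈ (Set.toFinite good).toFinset, ((S₁ f₀).ncard : ℝ)) ≤ (Z.ncard : ℝ) := by
      have e1 : ∀ f₀, (S₁ f₀).ncard = ((Set.toFinite (S₁ f₀)).toFinset).card := fun f₀ =>
        Set.ncard_eq_toFinset_card _ _
      rw [Finset.sum_congr rfl fun f₀ _ => by rw [e1 f₀]]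
      exact_mod_cast hcard
    refine le_trans ?_ hcard'
    calc ρ ^ s / 2 * γ * N ^ Nat.card κ
        = (ρ ^ s / 2 * N ^ s) * (γ * N ^ Nat.card {v // c v ≠ 0}) := by
          rw [hκ, pow_add]
          ring
      _ ≤ good.ncard * (γ * N ^ Nat.card {v // c v ≠ 0}) :=
          mul_le_mul_of_nonneg_right hb (by positivity)
      _ = ∑ _f₀ ∈ (Set.toFinite good).toFinset, γ * N ^ Nat.card {v // c v ≠ 0} := by
          rw [Finset.sum_const, nsmul_eq_mul, Set.ncard_eq_toFinset_card]
      _ ≤ _ := Finset.sum_le_sum fun f₀ hf₀ => hS f₀ ((Set.Finite.mem_toFinset _).1 hf₀)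

theorem box {ι κ : Type} [Finite ι] [Finite κ] (c : κ → ι) {ρ : ℝ} (hρ : 0 < ρ) :
    ∃ γ : ℝ, 0 < γ ∧ ∀ (V : Type) [Finite V] [Nonempty V] (T : Set (ι → V)),
      ρ * (Nat.card V : ℝ) ^ Nat.card ι ≤ (T.ncard : ℝ) →
      γ * (Nat.card V : ℝ) ^ Nat.card κ ≤ (({f : κ → V | Blow c T f}).ncard : ℝ) := by
  let e : ι ≃ Fin (Nat.card ι) := Finite.equivFin ι
  obtain ⟨γ, hγ, h⟩ := box_sec (Nat.card ι) (κ ⊕ ι) (fun v => e (Sum.elim c id v)) ρ hρ
  refine ⟨γ, hγ, ?_⟩
  intro V _ _ T hT
  set N : ℝ := (Nat.card V : ℝ) with hN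
  have hNpos : 0 < N := by rw [hN]; exact_mod_cast Nat.card_pos
  have h1 := h V (fun y => (fun i => y (e i)) ∈ T) (by
    refine hT.trans (le_of_eq ?_)
    rw [Nat.cast_inj]
    refine Set.ncard_congr (fun y _ i => y (e.symm i)) ?_ ?_ ?_
    · intro y hy
      show (fun i => y (e.symm (e i))) ∈ T
      simp only [Equiv.symm_apply_apply]
      exact hy
    · intro y z _ _ hyz
      funext i
      have := congrFun hyz (e i)
      simpa using this
    · intro y hy
      refine ⟨fun i => y (e i), hy, ?_⟩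
      funext i
      simp)
  set Z : Set (κ ⊕ ι → V) := {f | ∀ s : Fin (Nat.card ι) → κ ⊕ ι,
    (∀ i, e (Sum.elim c id (s i)) = i) → (fun i => (fun j => f (s j)) (e i)) ∈ T} with hZ
  have h2 : Z.ncard ≤ ({f : κ → V | Blow c T f}).ncard * (Set.univ : Set (ι → V)).ncard := by
    rw [← Set.ncard_prod]
    refine Set.ncard_le_ncard_of_injOn (fun f => (fun v => f (Sum.inl v), fun i => f (Sum.inr i)))
      ?_ ?_ (Set.toFinite _)
    · intro f hf
      refine ⟨⟨fun i => f (Sum.inr i), ?_⟩, Set.mem_univ _⟩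
      intro Q hQ
      have h3 : ∀ i, ∃ z : κ ⊕ ι, Sum.elim c id z = i ∧ Q i = f z := by
        intro i
        rcases hQ i with h4 | ⟨v, hv, h4⟩
        · exact ⟨Sum.inr i, rfl, h4⟩
        · exact ⟨Sum.inl v, hv, h4⟩
      choose z hz1 hz2 using h3
      have h4 := hf (fun j => z (e.symm j)) (fun j => by rw [hz1]; simp)
      have h5 : (fun i => f (z (e.symm (e i)))) = Q := by
        funext i
        rw [Equiv.symm_apply_apply, ← hz2]
      have h6 : (fun i => f (z (e.symm (e i)))) ∈ T := h4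
      rw [h5] at h6
      exact h6
    · intro f _ g _ hfg
      have h3 := (Prod.ext_iff.1 hfg).1
      have h4 := (Prod.ext_iff.1 hfg).2
      funext z
      rcases z with v | i
      · exact congrFun h3 v
      · exact congrFun h4 i
  have h3 : γ * N ^ Nat.card (κ ⊕ ι) ≤ (Z.ncard : ℝ) := h1
  have h4 : (Z.ncard : ℝ) ≤ (({f : κ → V | Blow c T f}).ncard : ℝ) * N ^ Nat.card ι := by
    rw [Set.ncard_univ, Nat.card_fun] at h2
    rw [hN]
    exact_mod_cast h2
  have h5 := h3.trans h4
  rw [Nat.card_sum, pow_add, ← mul_assoc] at h5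
  exact le_of_mul_le_mul_right h5 (by positivity)

/-- restriction to the indices different from `v` -/
private theorem box_card_ne {κ : Type} [Finite κ] (v : κ) :
    Nat.card {w // w ≠ v} = Nat.card κ - 1 := by
  classical
  have h1 : Nat.card κ = Nat.card {w // w = v} + Nat.card {w // w ≠ v} := by
    rw [← Nat.card_sum]
    exact Nat.card_congr (Equiv.sumCompl (fun w => w = v)).symm
  have h2 : Nat.card {w // w = v} = 1 := by
    rw [Nat.card_eq_one_iff_unique]
    exact ⟨⟨fun a b => Subtype.ext (a.2.trans b.2.symm)⟩, ⟨⟨v, rfl⟩⟩⟩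
  omega

theorem ncard_noninj_le {κ V : Type} [Finite κ] [Finite V] :
    ({f : κ → V | ¬ Function.Injective f}).ncard ≤ Nat.card κ ^ 2 * Nat.card V ^ (Nat.card κ - 1) := by
  have := Fintype.ofFinite κ
  have h1 : ({f : κ → V | ¬ Function.Injective f}) ⊆
      ⋃ z ∈ (Finset.univ : Finset (κ × κ)), {f : κ → V | z.1 ≠ z.2 ∧ f z.1 = f z.2} := by
    intro f hf
    have hf' : ¬ Function.Injective f := hf
    unfold Function.Injective at hf'
    push Not at hf'
    obtain ⟨a, b, hab, hne⟩ := hf'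
    simp only [Set.mem_iUnion]
    exact ⟨(a, b), Finset.mem_univ _, hne, hab⟩
  refine (Set.ncard_le_ncard h1 (Set.toFinite _)).trans ?_
  refine (Finset.set_ncard_biUnion_le _ _).trans ?_
  have h2 : ∀ z ∈ (Finset.univ : Finset (κ × κ)),
      ({f : κ → V | z.1 ≠ z.2 ∧ f z.1 = f z.2}).ncard ≤ Nat.card V ^ (Nat.card κ - 1) := by
    intro z _
    by_cases hz : z.1 = z.2
    · have : ({f : κ → V | z.1 ≠ z.2 ∧ f z.1 = f z.2}) = ∅ := by
        rw [Set.eq_empty_iff_forall_notMem]
        rintro f ⟨h, -⟩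
        exact h hz
      rw [this, Set.ncard_empty]
      exact Nat.zero_le _
    · rw [← box_card_ne z.1, ← Nat.card_fun, ← Set.ncard_univ]
      refine Set.ncard_le_ncard_of_injOn (fun f w => f w.1) (fun _ _ => Set.mem_univ _) ?_
        (Set.toFinite _)
      rintro f ⟨-, hf⟩ g ⟨-, hg⟩ hfg
      have h3 : ∀ w, w ≠ z.1 → f w = g w := fun w hw => congrFun hfg ⟨w, hw⟩
      funext w
      by_cases hw : w = z.1
      · rw [hw, hf, hg]
        exact h3 _ (Ne.symm hz)
      · exact h3 w hw
  refine (Finset.sum_le_sum h2).trans (le_of_eq ?_)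
  rw [Finset.sum_const, Finset.card_univ, Fintype.card_prod, smul_eq_mul,
    ← Nat.card_eq_fintype_card (α := κ), sq]

theorem ncard_hit_le {κ V : Type} [Finite κ] [Finite V] (X : Set V) :
    ({f : κ → V | ∃ v, f v ∈ X}).ncard ≤ Nat.card κ * (X.ncard * Nat.card V ^ (Nat.card κ - 1)) := by
  have := Fintype.ofFinite κ
  have h1 : ({f : κ → V | ∃ v, f v ∈ X}) ⊆
      ⋃ v ∈ (Finset.univ : Finset κ), {f : κ → V | f v ∈ X} := by
    rintro f ⟨v, hv⟩
    simp only [Set.mem_iUnion]
    exact ⟨v, Finset.mem_univ _, hv⟩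
  refine (Set.ncard_le_ncard h1 (Set.toFinite _)).trans ?_
  refine (Finset.set_ncard_biUnion_le _ _).trans ?_
  have h2 : ∀ v ∈ (Finset.univ : Finset κ),
      ({f : κ → V | f v ∈ X}).ncard ≤ X.ncard * Nat.card V ^ (Nat.card κ - 1) := by
    intro v _
    rw [← box_card_ne v, ← Nat.card_fun, ← Set.ncard_univ, ← Set.ncard_prod]
    refine Set.ncard_le_ncard_of_injOn (fun f => (f v, fun w => f w.1))
      (fun f hf => ⟨hf, Set.mem_univ _⟩) ?_ (Set.toFinite _)
    intro f _ g _ hfg
    have h3 := (Prod.ext_iff.1 hfg).1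
    have h4 := (Prod.ext_iff.1 hfg).2
    funext w
    by_cases hw : w = v
    · rw [hw]
      exact h3
    · exact congrFun h4 ⟨w, hw⟩
  refine (Finset.sum_le_sum h2).trans (le_of_eq ?_)
  rw [Finset.sum_const, Finset.card_univ, smul_eq_mul, ← Nat.card_eq_fintype_card (α := κ)]

end Pool.Agent.WTK
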