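import Pool.Agent.WTK.Defs

/-!
# [WTK-ClK] cliques in `Cl G S m`

Two new vertices are not adjacent, so a clique `f : Fin (q + 2) → V ⊕ Fin m` has at most one new vertex. If it has none, then `f = inl ∘ g`, `g` a clique of `G`. If `f i = inr j`, then the other vertices `f (i.succAbove t)`, `t : Fin (q + 1)`, are `inl` of a clique in `S`; the map
`f ↦ (i, j, clique)` is injective.
-/

set_option autoImplicit false

namespace Pool.Agent.WTK

open Pool.Agent.WT7 Filter

theorem cq_clone {V : Type} [Finite V] (G : SimpleGraph V) (S : Set V) (m q : ℕ) :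
    (cq (Cl G S m) Set.univ (Fin (q + 2))).ncard ≤
      (cq G Set.univ (Fin (q + 2))).ncard + (q + 2) * (m * (cq G S (Fin (q + 1))).ncard) := by
  classical
  set φ : (Fin (q + 2) → V) → (Fin (q + 2) → V ⊕ Fin m) := fun g i => Sum.inl (g i)
  set ψ : Fin (q + 2) × Fin m × (Fin (q + 1) → V) → (Fin (q + 2) → V ⊕ Fin m) := fun p =>
    Fin.insertNth (α := fun _ => V ⊕ Fin m) p.1 (Sum.inr p.2.1) (fun t => Sum.inl (p.2.2 t))
  set B : Set (Fin (q + 2) × Fin m × (Fin (q + 1) → V)) :=
    Set.univ ×ˢ (Set.univ ×ˢ (cq G S (Fin (q + 1))))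
  have hsub : cq (Cl G S m) Set.univ (Fin (q + 2)) ⊆ φ '' (cq G Set.univ (Fin (q + 2))) ∪ ψ '' B := by
    intro f hf
    obtain ⟨-, hf⟩ := hf
    by_cases h : ∃ i j, f i = Sum.inr j
    · right
      obtain ⟨i, j, hij⟩ := h
      have h1 : ∀ t : Fin (q + 1), ∃ x, f (i.succAbove t) = Sum.inl x := by
        intro t
        have h2 := hf i (i.succAbove t) (Fin.succAbove_ne i t).symm
        rw [hij] at h2
        cases h3 : f (i.succAbove t) with
        | inl x => exact ⟨x, rfl⟩
        | inr y =>
          rw [h3] at h2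
          exact h2.elim
      choose g hg using h1
      refine ⟨(i, j, g), ⟨Set.mem_univ _, Set.mem_univ _, ?_, ?_⟩, ?_⟩
      · intro t
        have h2 := hf i (i.succAbove t) (Fin.succAbove_ne i t).symm
        rw [hij, hg t] at h2
        exact h2
      · intro t t' htt
        have h2 := hf (i.succAbove t) (i.succAbove t') (fun e => htt (Fin.succAbove_right_injective e))
        rw [hg t, hg t'] at h2
        exact h2
      · funext l
        refine Fin.succAboveCases i ?_ (fun t => ?_) l
        · show Fin.insertNth (α := fun _ => V ⊕ Fin m) i (Sum.inr j) (fun t => Sum.inl (g t)) i = f i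
          rw [Fin.insertNth_apply_same, hij]
        · show Fin.insertNth (α := fun _ => V ⊕ Fin m) i (Sum.inr j) (fun t => Sum.inl (g t))
            (i.succAbove t) = f (i.succAbove t)
          rw [Fin.insertNth_apply_succAbove, hg t]
    · left
      push Not at h
      have h1 : ∀ i, ∃ x, f i = Sum.inl x := by
        intro i
        cases h3 : f i with
        | inl x => exact ⟨x, rfl⟩
        | inr y => exact absurd h3 (h i y)
      choose g hg using h1
      refine ⟨g, ⟨fun _ => Set.mem_univ _, ?_⟩, ?_⟩
      · intro i i' hii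
        have h2 := hf i i' hii
        rw [hg i, hg i'] at h2
        exact h2
      · funext i
        exact (hg i).symm
  have hB : B.ncard = (q + 2) * (m * (cq G S (Fin (q + 1))).ncard) := by
    rw [Set.ncard_prod, Set.ncard_prod, Set.ncard_univ, Set.ncard_univ, Nat.card_fin, Nat.card_fin]
  calc (cq (Cl G S m) Set.univ (Fin (q + 2))).ncard
      ≤ (φ '' (cq G Set.univ (Fin (q + 2))) ∪ ψ '' B).ncard := Set.ncard_le_ncard hsub (Set.toFinite _)
    _ ≤ (φ '' (cq G Set.univ (Fin (q + 2)))).ncard + (ψ '' B).ncard := Set.ncard_union_le _ _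
    _ ≤ (cq G Set.univ (Fin (q + 2))).ncard + B.ncard :=
      Nat.add_le_add (Set.ncard_image_le (Set.toFinite _)) (Set.ncard_image_le (Set.toFinite _))
    _ = _ := by rw [hB]

end Pool.Agent.WTK
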