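import Pool.Agent.WTK.Defs

/-!
# [WTK-Col1] the colouring of `M q` minus an edge

`x 0, x 1, b ↦ 0`, `x i ↦ i - 1` for `i ≥ 2`, `a i, a' i ↦ i + 1`, `w i ↦` the colour of `x i`, `u i ↦ 1` if the colour of `x i` is `0`, else `0` (`q ≥ 1`). It is proper except for the edge `x 0 x 1` (cases on `u`, `v`; `SimpleGraph.fromRel_adj`).
-/

set_option autoImplicit false

namespace Pool.Agent.WTK

open Pool.Agent.WT7 Filter

/-- `F` has a homomorphism to `M q` which takes every `x i` at most once -/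
def InM {β : Type} (F : SimpleGraph β) (q : ℕ) : Prop :=
  ∃ φ : β → MV q, (∀ u v, F.Adj u v → (M q).Adj (φ u) (φ v)) ∧ ∀ u v i, φ u = .x i → φ v = .x i → u = v

/-- the colouring with natural numbers as colours -/
private def cN (q : ℕ) : MV q → ℕ
  | .x i => i.val - 1
  | .b => 0
  | .a i => i.val + 1
  | .a' i => i.val + 1
  | .u i => if i.val - 1 = 0 then 1 else 0
  | .w i => i.val - 1

private theorem cN_lt {q : ℕ} (hq : 1 ≤ q) (v : MV q) : cN q v < q + 1 := by
  cases v with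
  | x i => have := i.2; simp only [cN]; omega
  | b => simp only [cN]; omega
  | a i => have := i.2; simp only [cN]; omega
  | a' i => have := i.2; simp only [cN]; omega
  | u i => simp only [cN]; split_ifs <;> omega
  | w i => have := i.2; simp only [cN]; omega

private theorem cN_rel {q : ℕ} {u v : MV q} (hne : u ≠ v) (h : Mrel q u v) (hc : cN q u = cN q v) :
    (∃ i j : Fin (q + 2), u = .x i ∧ v = .x j ∧ ((i.val = 0 ∧ j.val = 1) ∨ (i.val = 1 ∧ j.val = 0))) := by
  cases u <;> cases v <;> simp only [Mrel, cN] at h hc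
  · rename_i i j
    have hij : i.val ≠ j.val := fun h => hne (by rw [Fin.ext h])
    exact ⟨i, j, rfl, rfl, by omega⟩
  all_goals first
    | omega
    | (exfalso; subst h; split_ifs at hc <;> omega)
    | (exfalso; apply hne; rename_i i j; have : i = j := Fin.ext (by omega); rw [this])

theorem exists_col1 {q : ℕ} (hq : 1 ≤ q) : ∃ c : MV q → Fin (q + 1), c (.x 0) = 0 ∧ c (.x 1) = 0 ∧
    ∀ u v, (M q).Adj u v → c u = c v → (u = .x 0 ∧ v = .x 1) ∨ (u = .x 1 ∧ v = .x 0) := by
  refine ⟨fun v => ⟨cN q v, cN_lt hq v⟩, ?_, ?_, ?_⟩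
  · apply Fin.ext
    simp [cN]
  · apply Fin.ext
    simp [cN]
  · intro u v huv hc
    have hc' : cN q u = cN q v := congrArg Fin.val hc
    rw [M, SimpleGraph.fromRel_adj] at huv
    obtain ⟨hne, h | h⟩ := huv
    · obtain ⟨i, j, rfl, rfl, hij⟩ := cN_rel hne h hc'
      have h0 : ∀ k : Fin (q + 2), k.val = 0 → k = 0 := fun k hk => Fin.ext (by simpa using hk)
      have h1 : ∀ k : Fin (q + 2), k.val = 1 → k = 1 := fun k hk => Fin.ext (by simpa using hk)
      rcases hij with ⟨ha, hb⟩ | ⟨ha, hb⟩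
      · left; rw [h0 i ha, h1 j hb]; exact ⟨rfl, rfl⟩
      · right; rw [h1 i ha, h0 j hb]; exact ⟨rfl, rfl⟩
    · obtain ⟨i, j, rfl, rfl, hij⟩ := cN_rel hne.symm h hc'.symm
      have h0 : ∀ k : Fin (q + 2), k.val = 0 → k = 0 := fun k hk => Fin.ext (by simpa using hk)
      have h1 : ∀ k : Fin (q + 2), k.val = 1 → k = 1 := fun k hk => Fin.ext (by simpa using hk)
      rcases hij with ⟨ha, hb⟩ | ⟨ha, hb⟩
      · right; rw [h0 i ha, h1 j hb]; exact ⟨rfl, rfl⟩
      · left; rw [h1 i ha, h0 j hb]; exact ⟨rfl, rfl⟩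

end Pool.Agent.WTK
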