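import Pool.Agent.WTK.FM

/-!
# [WTK-FM2] few and many, products

`large_of_many`: `{f | f i ∈ Z}` has `|Z| n^(|ι| - 1)` elements (the map `f ↦ (f i, f` on the other indices`)`; or `Set.pi`, or fibres over `f i`).
`large_mul_many`: the maps `Sum.elim f g` with `f ∈ S m`, `g ∈ E m f` (bijection of `(ι ⊕ κ → V)` with the pairs, `Equiv.sumArrowEquivProdArrow`), sum over `f` of `|E m f|`.
-/

set_option autoImplicit false

namespace Pool.Agent.WTK

open Pool.Agent.WT7 Filter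

variable {U : Ultrafilter ℕ} {n : ℕ → ℕ} {ι κ : Type}

theorem large_of_many [Finite ι] (hn : ∀ m, 0 < n m) {T : ∀ m, Set (ι → Fin (n m))} (h : Many U n T)
    {Z : ∀ m, Set (Fin (n m))} (i : ι) (hZ : ∀ᶠ m in (U : Filter ℕ), ∀ f ∈ T m, f i ∈ Z m) : Large U n Z := by
  classical
  obtain ⟨c, hc, h⟩ := h
  refine ⟨c, hc, ?_⟩
  filter_upwards [h, hZ] with m h1 h2
  have h3 : T m ⊆ (Equiv.funSplitAt i (Fin (n m))) ⁻¹' (Z m ×ˢ Set.univ) := by
    intro f hf
    simp only [Set.mem_preimage, Set.mem_prod, Set.mem_univ, and_true, Equiv.funSplitAt_apply]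
    exact h2 f hf
  have h4 : ((T m).ncard : ℝ) ≤ ((Z m).ncard : ℝ) * (n m : ℝ) ^ (Nat.card ι - 1) := by
    have h5 := Set.ncard_le_ncard h3 (Set.toFinite _)
    rw [Set.ncard_preimage_of_injective_subset_range (Equiv.injective _)
      (by rw [Equiv.range_eq_univ]; exact Set.subset_univ _), Set.ncard_prod, Set.ncard_univ,
      Nat.card_fun, Nat.card_fin] at h5
    have h6 : Nat.card {j // j ≠ i} = Nat.card ι - 1 := by
      classical
      have := Fintype.ofFinite ι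
      rw [Nat.card_eq_fintype_card, Nat.card_eq_fintype_card, Fintype.card_subtype_compl,
        Fintype.card_subtype_eq]
    rw [h6] at h5
    exact_mod_cast h5
  have h7 : (0 : ℝ) < (n m : ℝ) ^ (Nat.card ι - 1) := pow_pos (by exact_mod_cast hn m) _
  have h8 : 0 < Nat.card ι := by
    have : Nonempty ι := ⟨i⟩
    exact Nat.card_pos
  have h9 : (n m : ℝ) ^ Nat.card ι = n m * (n m : ℝ) ^ (Nat.card ι - 1) := by
    rw [← pow_succ']
    congr 1
    omega
  rw [h9] at h1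
  refine le_of_mul_le_mul_right ?_ h7
  linarith

theorem many_of_large {Z : ∀ m, Set (Fin (n m))} (h : Large U n Z) :
    Many U n (fun m => {f : Unit → Fin (n m) | f () ∈ Z m}) := by
  obtain ⟨c, hc, h⟩ := h
  refine ⟨c, hc, ?_⟩
  filter_upwards [h] with m h1
  have h2 : (Z m).ncard ≤ {f : Unit → Fin (n m) | f () ∈ Z m}.ncard := by
    rw [← Set.ncard_image_of_injective (Z m)
      (f := fun x : Fin (n m) => (fun _ : Unit => x)) (fun x y hxy => congrFun hxy ())]
    refine Set.ncard_le_ncard ?_ (Set.toFinite _)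
    rintro f ⟨x, hx, rfl⟩
    exact hx
  have h3 : ((Z m).ncard : ℝ) ≤ ({f : Unit → Fin (n m) | f () ∈ Z m}.ncard : ℝ) := by
    exact_mod_cast h2
  rw [Nat.card_unique, pow_one]
  exact h1.trans h3

theorem large_mul_many [Finite ι] [Finite κ] {S : ∀ m, Set (ι → Fin (n m))} (hS : Many U n S)
    (E : ∀ m, (ι → Fin (n m)) → Set (κ → Fin (n m)))
    (hE : ∃ c : ℝ, 0 < c ∧ ∀ᶠ m in (U : Filter ℕ), ∀ f ∈ S m, c * (n m : ℝ) ^ Nat.card κ ≤ ((E m f).ncard : ℝ)) :
    Many U n (fun m => {f : ι ⊕ κ → Fin (n m) | (fun i => f (Sum.inl i)) ∈ S m ∧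
      (fun j => f (Sum.inr j)) ∈ E m (fun i => f (Sum.inl i))}) := by
  classical
  have := Fintype.ofFinite ι
  have := Fintype.ofFinite κ
  obtain ⟨c, hc, hS⟩ := hS
  obtain ⟨c', hc', hE⟩ := hE
  refine ⟨c * c', by positivity, ?_⟩
  filter_upwards [hS, hE] with m h1 h2
  obtain ⟨A, hA⟩ : ∃ A : Set (ι ⊕ κ → Fin (n m)), A = {f | (fun i => f (Sum.inl i)) ∈ S m ∧
      (fun j => f (Sum.inr j)) ∈ E m (fun i => f (Sum.inl i))} := ⟨_, rfl⟩
  rw [← hA]
  have h3 : ((S m).toFinset.sigma (fun f => (E m f).toFinset)).card ≤ A.toFinset.card := by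
    refine Finset.card_le_card_of_injOn (fun x => Sum.elim x.1 x.2) ?_ ?_
    · rintro ⟨f, g⟩ hx
      simp only [Finset.mem_coe, Finset.mem_sigma, Set.mem_toFinset] at hx
      simp only [Finset.mem_coe, Set.mem_toFinset, hA, Set.mem_ofPred_eq, Sum.elim_inl,
        Sum.elim_inr]
      exact hx
    · rintro ⟨f, g⟩ - ⟨f', g'⟩ - hx
      simp only at hx
      have e1 : f = f' := funext fun i => congrFun hx (Sum.inl i)
      have e2 : g = g' := funext fun i => congrFun hx (Sum.inr i)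
      rw [e1, e2]
  rw [Finset.card_sigma, ← Set.ncard_eq_toFinset_card'] at h3
  have h4 : ((∑ f ∈ (S m).toFinset, (E m f).toFinset.card : ℕ) : ℝ) ≤ (A.ncard : ℝ) := by
    exact_mod_cast h3
  have h5 : (S m).ncard * (c' * (n m : ℝ) ^ Nat.card κ) ≤
      ((∑ f ∈ (S m).toFinset, (E m f).toFinset.card : ℕ) : ℝ) := by
    rw [Set.ncard_eq_toFinset_card', ← nsmul_eq_mul, ← Finset.sum_const]
    push_cast
    refine Finset.sum_le_sum fun f hf => ?_
    rw [← Set.ncard_eq_toFinset_card']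
    exact h2 f (Set.mem_toFinset.mp hf)
  have h6 : c * (n m : ℝ) ^ Nat.card ι * (c' * (n m : ℝ) ^ Nat.card κ) ≤
      (S m).ncard * (c' * (n m : ℝ) ^ Nat.card κ) :=
    mul_le_mul_of_nonneg_right h1 (by positivity)
  rw [Nat.card_sum, pow_add]
  refine le_trans (le_of_eq ?_) ((h6.trans h5).trans h4)
  ring

end Pool.Agent.WTK
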