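import Pool.Agent.WTK.EmbG
import Pool.Agent.WTK.FM2
import Pool.Agent.WTK.Col1

/-!
# [WTK-Col] first consequences of being `F`-free

`c = col1` is the colouring of `exists_col1`.
`few_nbr`: if not few then many; `embs` with `ι = Fin (q + 1)`, `c v = none` if `φ v = x 0`, else `some (col1 (φ v))`, the constant map `x`, `T = cq (N(x)) (Fin (q + 1))`.
`few_all`: a `(q+2)`-clique `f` gives the `(q+1)`-clique `f ∘ succ` in `N(f 0)`; so `|cq univ (Fin (q+2))| ≤ ∑_v |cq (N(v)) (Fin (q+1))| ≤ n max`; apply `few_nbr` to vertices `x m` for which the number is maximal.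
`few_edge`: `embs` with `c v = none` if `φ v = x 0` or `φ v = x 1`, else `some (σ (col1 (φ v)))`, `σ` a permutation with `σ 0 = b`; `x v = x m i` if `φ v = x 0`, else `x m j`. (For an edge from `x 0` or `x 1` to a vertex with another colour, this colour is not `0`.)
-/

set_option autoImplicit false

namespace Pool.Agent.WTK

open Pool.Agent.WT7 Filter

variable {β : Type} [Finite β] {F : SimpleGraph β} {q : ℕ} {U : Ultrafilter ℕ} {n : ℕ → ℕ}
  {G : ∀ m, SimpleGraph (Fin (n m))}

theorem few_nbr (hq : 1 ≤ q) (hFM : InM F q) (hn : Tendsto n (U : Filter ℕ) atTop) (hF : ∀ m, F.Free (G m))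
    (x : ∀ m, Fin (n m)) : Few U n (fun m => cq (G m) ((G m).neighborSet (x m)) (Fin (q + 1))) := by
  classical
  obtain ⟨φ, hφ, hinj⟩ := hFM
  obtain ⟨col, hc0, hc1, hcol⟩ := exists_col1 hq
  refine (few_or_many _).resolve_right ?_
  set c : β → Option (Fin (q + 1)) := fun v => if φ v = .x 0 then none else some (col (φ v)) with hc
  have hnone : ∀ v, c v = none → φ v = .x 0 := by
    intro v hv
    by_contra hne
    simp [hc, hne] at hv
  have hsome : ∀ v i, c v = some i → φ v ≠ .x 0 ∧ col (φ v) = i := by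
    intro v i hv
    by_cases hne : φ v = .x 0
    · simp [hc, hne] at hv
    · simp only [hc, hne, if_false, Option.some.injEq] at hv
      exact ⟨hne, hv⟩
  refine embs c hn hF (fun m _ => x m) ?_ ?_ ?_ ?_
  · intro m u v hu hv _
    exact hinj u v 0 (hnone u hu) (hnone v hv)
  · intro m u v huv hu hv
    exact absurd (hinj u v 0 (hnone u hu) (hnone v hv)) huv.ne
  · intro m u v i huv hu hv Q hQ
    exact hQ.1 i
  · intro m u v i j huv hu hv Q hQ
    obtain ⟨hu1, hu2⟩ := hsome u i hu
    obtain ⟨hv1, hv2⟩ := hsome v j hv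
    refine hQ.2 i j ?_
    rintro rfl
    rcases hcol _ _ (hφ u v huv) (hu2.trans hv2.symm) with h | h
    · exact hu1 h.1
    · exact hv1 h.2

private theorem card_cq_le {V : Type} [Finite V] (G : SimpleGraph V) (q M : ℕ)
    (hM : ∀ v, (cq G (G.neighborSet v) (Fin (q + 1))).ncard ≤ M) :
    (cq G Set.univ (Fin (q + 2))).ncard ≤ M * Nat.card V := by
  classical
  have := Fintype.ofFinite V
  rw [Set.ncard_eq_toFinset_card']
  have h1 := Finset.card_le_mul_card_image (f := fun f : Fin (q + 2) → V => f 0)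
    (cq G Set.univ (Fin (q + 2))).toFinset M ?_
  · refine h1.trans (Nat.mul_le_mul_left _ ?_)
    rw [Nat.card_eq_fintype_card]
    exact Finset.card_le_univ _
  · intro a _
    refine le_trans ?_ (hM a)
    rw [Set.ncard_eq_toFinset_card']
    refine Finset.card_le_card_of_injOn (fun f => fun i : Fin (q + 1) => f i.succ) ?_ ?_
    · intro f hf
      simp only [Finset.coe_filter, Set.mem_toFinset, Set.mem_ofPred_eq] at hf
      obtain ⟨hf, rfl⟩ := hf
      simp only [Finset.mem_coe, Set.mem_toFinset]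
      refine ⟨fun i => ?_, fun i j hij => ?_⟩
      · rw [SimpleGraph.mem_neighborSet]
        exact hf.2 0 i.succ (Fin.succ_ne_zero i).symm
      · exact hf.2 _ _ (fun h => hij (Fin.succ_injective _ h))
    · intro f hf g hg hfg
      simp only [Finset.coe_filter, Set.mem_toFinset, Set.mem_ofPred_eq] at hf hg
      funext i
      refine Fin.cases ?_ (fun i => ?_) i
      · rw [hf.2, hg.2]
      · exact congrFun hfg i

theorem few_all (hq : 1 ≤ q) (hFM : InM F q) (hpos : ∀ m, 0 < n m) (hn : Tendsto n (U : Filter ℕ) atTop)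
    (hF : ∀ m, F.Free (G m)) : Few U n (fun m => cq (G m) Set.univ (Fin (q + 2))) := by
  classical
  have hmax : ∀ m, ∃ x : Fin (n m), ∀ v, (cq (G m) ((G m).neighborSet v) (Fin (q + 1))).ncard ≤
      (cq (G m) ((G m).neighborSet x) (Fin (q + 1))).ncard := by
    intro m
    have : Nonempty (Fin (n m)) := ⟨⟨0, hpos m⟩⟩
    exact Finite.exists_max (fun v => (cq (G m) ((G m).neighborSet v) (Fin (q + 1))).ncard)
  choose x hx using hmax
  have h := few_nbr hq hFM hn hF x
  intro ε hε
  filter_upwards [h ε hε] with m h1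
  have h2 := card_cq_le (G m) q _ (hx m)
  have h3 : ((cq (G m) Set.univ (Fin (q + 2))).ncard : ℝ) ≤
      ((cq (G m) ((G m).neighborSet (x m)) (Fin (q + 1))).ncard : ℝ) * (n m : ℝ) := by
    rw [Nat.card_fin] at h2
    exact_mod_cast h2
  rw [Nat.card_fin] at h1 ⊢
  refine h3.trans ?_
  calc ((cq (G m) ((G m).neighborSet (x m)) (Fin (q + 1))).ncard : ℝ) * (n m : ℝ)
      ≤ (ε * (n m : ℝ) ^ (q + 1)) * (n m : ℝ) := mul_le_mul_of_nonneg_right h1 (by positivity)
    _ = ε * (n m : ℝ) ^ (q + 2) := by ring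

theorem few_edge (hq : 1 ≤ q) (hFM : InM F q) (hn : Tendsto n (U : Filter ℕ) atTop) (hF : ∀ m, F.Free (G m))
    (x y : ∀ m, Fin (n m)) (hxy : ∀ m, (G m).Adj (x m) (y m)) (b : Fin (q + 1)) :
    Few U n (fun m => {f | f ∈ cq (G m) Set.univ (Fin (q + 1)) ∧
      ∀ t, t ≠ b → (G m).Adj (x m) (f t) ∧ (G m).Adj (y m) (f t)}) := by
  classical
  obtain ⟨φ, hφ, hinj⟩ := hFM
  obtain ⟨col, hc0, hc1, hcol⟩ := exists_col1 hq
  refine (few_or_many _).resolve_right ?_
  set σ : Equiv.Perm (Fin (q + 1)) := Equiv.swap 0 b with hσ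
  have hσ0 : σ 0 = b := Equiv.swap_apply_left 0 b
  set c : β → Option (Fin (q + 1)) :=
    fun v => if φ v = .x 0 ∨ φ v = .x 1 then none else some (σ (col (φ v))) with hc
  have hnone : ∀ v, c v = none → φ v = .x 0 ∨ φ v = .x 1 := by
    intro v hv
    by_contra hne
    simp [hc, hne] at hv
  have hsome : ∀ v i, c v = some i → ¬ (φ v = .x 0 ∨ φ v = .x 1) ∧ σ (col (φ v)) = i := by
    intro v i hv
    by_cases hne : φ v = .x 0 ∨ φ v = .x 1
    · simp [hc, hne] at hv
    · simp only [hc, hne, if_false, Option.some.injEq] at hv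
      exact ⟨hne, hv⟩
  refine embs c hn hF (fun m v => if φ v = .x 0 then x m else y m) ?_ ?_ ?_ ?_
  · intro m u v hu hv h
    rcases hnone u hu with hu1 | hu1 <;> rcases hnone v hv with hv1 | hv1
    · exact hinj u v 0 hu1 hv1
    · simp only [hu1, hv1] at h
      exact absurd (by simpa using h) (hxy m).ne
    · simp only [hu1, hv1] at h
      exact absurd (by simpa using h) (hxy m).ne'
    · exact hinj u v 1 hu1 hv1
  · intro m u v huv hu hv
    rcases hnone u hu with hu1 | hu1 <;> rcases hnone v hv with hv1 | hv1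
    · exact absurd (hinj u v 0 hu1 hv1) huv.ne
    · simp only [hu1, hv1]
      simpa using hxy m
    · simp only [hu1, hv1]
      simpa using (hxy m).symm
    · exact absurd (hinj u v 1 hu1 hv1) huv.ne
  · intro m u v i huv hu hv Q hQ
    obtain ⟨hv1, hv2⟩ := hsome v i hv
    have hib : i ≠ b := by
      rintro rfl
      have h0 : col (φ v) = 0 := by
        apply σ.injective
        rw [hv2, hσ0]
      have hu0 : col (φ u) = 0 := by
        rcases hnone u hu with hu1 | hu1
        · rw [hu1, hc0]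
        · rw [hu1, hc1]
      rcases hcol _ _ (hφ u v huv) (hu0.trans h0.symm) with h | h
      · exact hv1 (Or.inr h.2)
      · exact hv1 (Or.inl h.2)
    have h3 := hQ.2 i hib
    show (G m).Adj (if φ u = .x 0 then x m else y m) (Q i)
    split_ifs
    · exact h3.1
    · exact h3.2
  · intro m u v i j huv hu hv Q hQ
    obtain ⟨hu1, hu2⟩ := hsome u i hu
    obtain ⟨hv1, hv2⟩ := hsome v j hv
    refine hQ.1.2 i j ?_
    rintro rfl
    have h0 : col (φ u) = col (φ v) := σ.injective (hu2.trans hv2.symm)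
    rcases hcol _ _ (hφ u v huv) h0 with h | h
    · exact hu1 (Or.inl h.1)
    · exact hu1 (Or.inr h.1)

end Pool.Agent.WTK
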