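import Pool.Agent.WTK.Link

/-!
# [WTK-Pigeon] the pigeonhole argument

Let `b = 0 : Fin (q + 1)` and `𝒬` the cliques `f` with `f t ∈ N(x l)` for `t ≠ b`: many (`Sit.link`), of density `≥ c`. For every `i ≠ l` the cliques `f ∈ 𝒬` with `f t ∉ R(N(x i)) δ` for all `t ≠ b` are few or `≤ ρ n^(q+1)`: if all `f t` (`t ≠ b`) are in `N(x i)`, then they are in the set of `hii`; otherwise use `lemR'` for `x i`. With `ρ` small
(`ρ = c / (4 (q + 2))`) and `δ` the minimum over `i`, `many_diff` gives: many `f ∈ 𝒬` such that for all `i ≠ l` there is `t ≠ b` with `f t ∈ R(N(x i)) δ`. There are `q + 1` indices `i` and `q` indices `t`: `i ≠ i'` have the same `t` (pigeonhole, `Fintype.exists_ne_map_eq_of_card_lt` or `Finset.exists_ne_map_eq_of_card_lt_of_maps_to`). `Many.pigeon` over `(i, i', t)`, then `large_of_many`.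
-/

set_option autoImplicit false

namespace Pool.Agent.WTK

open Pool.Agent.WT7 Filter

variable {α : Type}

theorem Sit.pigeon [Finite α] [Nonempty α] {q : ℕ} (hq : 1 ≤ q) {H : SimpleGraph α} (hH : H.Colorable (q + 1))
    (hI : NoIso H) (hπ : 0 < piK q H) {U : Ultrafilter ℕ} {n : ℕ → ℕ} {G : ∀ m, SimpleGraph (Fin (n m))}
    (h : Sit q H U n G) (x : ∀ m, Fin (q + 2) → Fin (n m))
    (hii : ∀ i j, i ≠ j → ∀ b, Few U n (fun m => {f | f ∈ cq (G m) Set.univ (Fin (q + 1)) ∧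
      ∀ t, t ≠ b → (G m).Adj (x m i) (f t) ∧ (G m).Adj (x m j) (f t)})) (l : Fin (q + 2)) :
    ∃ δ : ℝ, 0 < δ ∧ ∃ i i', i ≠ l ∧ i' ≠ l ∧ i ≠ i' ∧ Large U n (fun m => {v | (G m).Adj (x m l) v ∧
      v ∈ R (G m) q ((G m).neighborSet (x m i)) δ ∧ v ∈ R (G m) q ((G m).neighborSet (x m i')) δ}) := by
  obtain ⟨c, hc, hQ⟩ := Sit.link hq hH hI hπ h (fun m => x m l) 0
  have hq0 : (0 : ℝ) < (q : ℝ) + 2 := by positivity
  have hρ : 0 < c / (4 * ((q : ℝ) + 2)) := by positivity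
  choose d hd hR using fun i : Fin (q + 2) => lemR' hH hI h (fun m => x m i) hρ
  obtain ⟨i0, hi0⟩ := Finite.exists_min d
  refine ⟨d i0, hd i0, ?_⟩
  have hbad : ∀ i : {i : Fin (q + 2) // i ≠ l}, ∀ᶠ m in (U : Filter ℕ),
      ((({f | f ∈ cq (G m) Set.univ (Fin (q + 1)) ∧
        (∀ t, t ≠ 0 → f t ∉ R (G m) q ((G m).neighborSet (x m i.1)) (d i0)) ∧
        ∃ t, t ≠ 0 ∧ f t ∉ (G m).neighborSet (x m i.1)} ∪
        {f | f ∈ cq (G m) Set.univ (Fin (q + 1)) ∧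
          ∀ t, t ≠ 0 → (G m).Adj (x m l) (f t) ∧ (G m).Adj (x m i.1) (f t)}).ncard : ℕ) : ℝ) ≤
      c / (2 * ((q : ℝ) + 2)) * (n m : ℝ) ^ Nat.card (Fin (q + 1)) := by
    rintro ⟨i, hi⟩
    filter_upwards [hR i (d i0) (hd i0) (hi0 i) 0, hii l i (Ne.symm hi) 0 _ hρ] with m h1 h2
    have h3 : ((({f | f ∈ cq (G m) Set.univ (Fin (q + 1)) ∧
        (∀ t, t ≠ 0 → f t ∉ R (G m) q ((G m).neighborSet (x m i)) (d i0)) ∧
        ∃ t, t ≠ 0 ∧ f t ∉ (G m).neighborSet (x m i)} ∪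
        {f | f ∈ cq (G m) Set.univ (Fin (q + 1)) ∧
          ∀ t, t ≠ 0 → (G m).Adj (x m l) (f t) ∧ (G m).Adj (x m i) (f t)}).ncard : ℕ) : ℝ) ≤
        (({f | f ∈ cq (G m) Set.univ (Fin (q + 1)) ∧
        (∀ t, t ≠ 0 → f t ∉ R (G m) q ((G m).neighborSet (x m i)) (d i0)) ∧
        ∃ t, t ≠ 0 ∧ f t ∉ (G m).neighborSet (x m i)}).ncard : ℝ) +
        (({f | f ∈ cq (G m) Set.univ (Fin (q + 1)) ∧
          ∀ t, t ≠ 0 → (G m).Adj (x m l) (f t) ∧ (G m).Adj (x m i) (f t)}).ncard : ℝ) := by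
      exact_mod_cast Set.ncard_union_le _ _
    refine h3.trans ?_
    rw [Nat.card_fin] at h2 ⊢
    refine (add_le_add h1 h2).trans (le_of_eq ?_)
    field_simp
    ring
  have hU := eventually_iUnion_le (U := U) (n := n) (ι := Fin (q + 1))
    (J := {i : Fin (q + 2) // i ≠ l}) (ρ := c / (2 * ((q : ℝ) + 2)))
    (T := fun i m => {f | f ∈ cq (G m) Set.univ (Fin (q + 1)) ∧
        (∀ t, t ≠ 0 → f t ∉ R (G m) q ((G m).neighborSet (x m i.1)) (d i0)) ∧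
        ∃ t, t ≠ 0 ∧ f t ∉ (G m).neighborSet (x m i.1)} ∪
        {f | f ∈ cq (G m) Set.univ (Fin (q + 1)) ∧
          ∀ t, t ≠ 0 → (G m).Adj (x m l) (f t) ∧ (G m).Adj (x m i.1) (f t)}) hbad
  have hcardJ : Nat.card {i : Fin (q + 2) // i ≠ l} = q + 1 := by
    rw [Nat.card_eq_fintype_card, Fintype.card_subtype_compl, Fintype.card_fin,
      Fintype.card_unique]
    omega
  have hT' : ∀ᶠ m in (U : Filter ℕ),
      (((⋃ i : {i : Fin (q + 2) // i ≠ l}, ({f | f ∈ cq (G m) Set.univ (Fin (q + 1)) ∧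
        (∀ t, t ≠ 0 → f t ∉ R (G m) q ((G m).neighborSet (x m i.1)) (d i0)) ∧
        ∃ t, t ≠ 0 ∧ f t ∉ (G m).neighborSet (x m i.1)} ∪
        {f | f ∈ cq (G m) Set.univ (Fin (q + 1)) ∧
          ∀ t, t ≠ 0 → (G m).Adj (x m l) (f t) ∧ (G m).Adj (x m i.1) (f t)})).ncard : ℕ) : ℝ) ≤
      c / 2 * (n m : ℝ) ^ Nat.card (Fin (q + 1)) := by
    filter_upwards [hU] with m hm
    refine hm.trans ?_
    rw [hcardJ]
    refine mul_le_mul_of_nonneg_right ?_ (by positivity)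
    rw [mul_div_assoc', div_le_div_iff₀ (by positivity) (by positivity)]
    push_cast
    nlinarith [hc]
  have hdiff := many_diff hc hQ hT'
  obtain ⟨⟨⟨i, i', t⟩, h1, h2, h3, h4⟩, hM⟩ := Many.pigeon
    (J := {p : Fin (q + 2) × Fin (q + 2) × Fin (q + 1) // p.1 ≠ l ∧ p.2.1 ≠ l ∧ p.1 ≠ p.2.1 ∧ p.2.2 ≠ 0})
    h.pos hdiff
    (T' := fun p m => {f | (G m).Adj (x m l) (f p.1.2.2) ∧
      f p.1.2.2 ∈ R (G m) q ((G m).neighborSet (x m p.1.1)) (d i0) ∧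
      f p.1.2.2 ∈ R (G m) q ((G m).neighborSet (x m p.1.2.1)) (d i0)})
    (Filter.Eventually.of_forall fun m => by
      rintro f ⟨⟨hf1, hf2⟩, hf3⟩
      have key : ∀ i : {i : Fin (q + 2) // i ≠ l}, ∃ t : {t : Fin (q + 1) // t ≠ 0},
          f t.1 ∈ R (G m) q ((G m).neighborSet (x m i.1)) (d i0) := by
        intro i
        by_contra hcon
        push Not at hcon
        refine hf3 (Set.mem_iUnion.2 ⟨i, ?_⟩)
        by_cases hall : ∀ t, t ≠ 0 → f t ∈ (G m).neighborSet (x m i.1)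
        · exact Or.inr ⟨hf1, fun t ht => ⟨hf2 t ht, hall t ht⟩⟩
        · push Not at hall
          exact Or.inl ⟨hf1, fun t ht => hcon ⟨t, ht⟩, hall⟩
      choose τ hτ using key
      obtain ⟨i, i', hne, heq⟩ := Fintype.exists_ne_map_eq_of_card_lt τ (by
        rw [Fintype.card_subtype_compl, Fintype.card_subtype_compl, Fintype.card_fin,
          Fintype.card_fin, Fintype.card_unique, Fintype.card_unique]
        omega)
      refine Set.mem_iUnion.2 ⟨⟨⟨i.1, i'.1, (τ i).1⟩, i.2, i'.2,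
        fun hh => hne (Subtype.ext hh), (τ i).2⟩, hf2 _ (τ i).2, hτ i, ?_⟩
      rw [heq]
      exact hτ i')
  exact ⟨i, i', h1, h2, h3, large_of_many h.pos hM t (Filter.Eventually.of_forall fun m f hf => hf)⟩

end Pool.Agent.WTK
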