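import Pool.Agent.WTK.FinEmb
import Pool.Agent.WTK.Pigeon
import Pool.Agent.WTK.GrowK

/-!
# [WTK-Contra] no sequence of counterexamples

`Sit`: `few`, `few1` by `few_all`, `few_nbr`; `inj` by `lowerK` and `hbig`; `deg` is `hdeg`. `π > 0` by `piK_pos` (a `(q+1)`-colourable graph has no `(q+2)`-clique). By `dg_le` (WT7.DegL) all degrees are eventually `≥ (π / 2) n` (`dg ≥ (π h - π h / 2) n^(h-1)`, `dg ≤ h deg n^(h-2)`, `h ≥ 2`). `G m` is not `K_k`-free (`inj_le_bF`), so it has a clique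
`x m : Fin (q + 2) → Fin (n m)`. `few_edge` gives the hypothesis `hii` of `Sit.pigeon` (with `x m i`, `x m j`). `l = 2` (any `l`). `fin_emb`.
`step`: by contradiction, for every `m` (with `ε = 1 / (m + 1)`, `n₀ = m + 1`) there is a counterexample; `U = Filter.hyperfilter ℕ`.
-/

set_option autoImplicit false

namespace Pool.Agent.WTK

open Pool.Agent.WT7 Filter

variable {α β : Type}

theorem no_seq [Finite α] [Nonempty α] [Finite β] {q : ℕ} (hq : 1 ≤ q) {H : SimpleGraph α}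
    (hH : H.Colorable (q + 1)) (hI : NoIso H) {F : SimpleGraph β} (hFM : InM F q) {U : Ultrafilter ℕ} {n : ℕ → ℕ}
    {G : ∀ m, SimpleGraph (Fin (n m))} (hpos : ∀ m, 0 < n m) (hn : Tendsto n (U : Filter ℕ) atTop)
    (hF : ∀ m, F.Free (G m)) (hbig : ∀ m, bF H (⊤ : SimpleGraph (Fin (q + 2))) (n m) < inj H (G m))
    (hdeg : ∀ ε : ℝ, 0 < ε → ∀ᶠ m in (U : Filter ℕ), ∀ x,
      (piK q H * Nat.card α - ε) * (n m : ℝ) ^ (Nat.card α - 1) ≤ (dg H (G m) x : ℝ)) : False := by
  have hcf : H.CliqueFree (q + 2) := hH.cliqueFree (by omega)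
  have hπ : 0 < piK q H := piK_pos hcf
  have hh := two_le_card hI
  have hh0 : (0 : ℝ) < Nat.card α := by exact_mod_cast (by omega : 0 < Nat.card α)
  have sit : Sit q H U n G := by
    refine ⟨hpos, hn, few_all hq hFM hpos hn hF, fun x => few_nbr hq hFM hn hF x, ?_, hdeg⟩
    intro ε hε
    obtain ⟨n₀, hn₀⟩ := lowerK H q hε
    filter_upwards [hn.eventually_ge_atTop n₀] with m hm
    refine (hn₀ _ hm).trans ?_
    exact_mod_cast (hbig m).le
  -- the minimum degree
  have hmin : ∀ᶠ m in (U : Filter ℕ), ∀ v, piK q H / 2 * (n m : ℝ) ≤ (((G m).neighborSet v).ncard : ℝ) := by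
    filter_upwards [hdeg (piK q H * Nat.card α / 2) (by positivity)] with m hm v
    have h1 := hm v
    have h2 : (dg H (G m) v : ℝ) ≤
        Nat.card α * ((((G m).neighborSet v).ncard : ℝ) * (n m : ℝ) ^ (Nat.card α - 2)) := by
      have h3 := dg_le hI (G m) v
      rw [Nat.card_fin] at h3
      exact_mod_cast h3
    have h3 : Nat.card α - 1 = (Nat.card α - 2) + 1 := by omega
    rw [h3, pow_succ] at h1
    have hnm : (0 : ℝ) < (n m : ℝ) := by exact_mod_cast hpos m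
    have h4 : (0 : ℝ) < (n m : ℝ) ^ (Nat.card α - 2) := by positivity
    have h5 : Nat.card α * (piK q H / 2 * (n m : ℝ)) * (n m : ℝ) ^ (Nat.card α - 2) ≤
        Nat.card α * (((G m).neighborSet v).ncard : ℝ) * (n m : ℝ) ^ (Nat.card α - 2) := by
      nlinarith
    have h6 := le_of_mul_le_mul_right h5 h4
    exact le_of_mul_le_mul_left h6 hh0
  -- the cliques
  have hcl : ∀ m, ∃ x : Fin (q + 2) → Fin (n m), ∀ i j, i ≠ j → (G m).Adj (x i) (x j) := by
    intro m
    have h1 : ¬ (⊤ : SimpleGraph (Fin (q + 2))).Free (G m) := by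
      intro hfree
      have h2 := inj_le_bF H (⊤ : SimpleGraph (Fin (q + 2))) hfree
      rw [Nat.card_fin] at h2
      exact absurd (hbig m) (by omega)
    obtain ⟨f⟩ := SimpleGraph.not_free.1 h1
    exact ⟨f, fun i j hij => f.toHom.map_adj (by simpa using hij)⟩
  choose x hx using hcl
  obtain ⟨δ, hδ, i, i', hi, hi', hii', hlarge⟩ := sit.pigeon hq hH hI hπ x
    (fun i j hij b => few_edge hq hFM hn hF (fun m => x m i) (fun m => x m j) (fun m => hx m i j hij) b) 0
  exact fin_emb hq hFM hpos hn hF (c₀ := piK q H / 2) (by linarith) hmin x hx hi hi' hii' hδ hlarge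

theorem stepK [Finite α] [Nonempty α] [Finite β] {q : ℕ} (hq : 1 ≤ q) {H : SimpleGraph α}
    (hH : H.Colorable (q + 1)) (hI : NoIso H) {F : SimpleGraph β} (hFM : InM F q) :
    ∃ ε : ℝ, 0 < ε ∧ ∃ n₀ : ℕ, ∀ n ≥ n₀, ∀ G : SimpleGraph (Fin n), F.Free G →
      bF H (⊤ : SimpleGraph (Fin (q + 2))) n < inj H G →
      ∃ x, (dg H G x : ℝ) < (piK q H * Nat.card α - ε) * (n : ℝ) ^ (Nat.card α - 1) := by
  by_contra hcon
  push Not at hcon
  have h1 : ∀ m : ℕ, ∃ n : ℕ, m + 1 ≤ n ∧ ∃ G : SimpleGraph (Fin n), F.Free G ∧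
      bF H (⊤ : SimpleGraph (Fin (q + 2))) n < inj H G ∧
      ∀ x, (piK q H * Nat.card α - 1 / ((m : ℝ) + 1)) * (n : ℝ) ^ (Nat.card α - 1) ≤ (dg H G x : ℝ) := by
    intro m
    obtain ⟨n, hn, G, hG, hb, hd⟩ := hcon (1 / ((m : ℝ) + 1)) (by positivity) (m + 1)
    exact ⟨n, hn, G, fun ⟨f⟩ => hG.false f, hb, hd⟩
  choose n hn G hG hb hd using h1
  refine no_seq (U := Filter.hyperfilter ℕ) (n := n) (G := G) hq hH hI hFM
    (fun m => lt_of_lt_of_le (Nat.succ_pos m) (hn m)) ?_ hG hb ?_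
  · have h2 : Tendsto n atTop atTop :=
      tendsto_atTop_mono (fun m => (Nat.le_succ m).trans (hn m)) tendsto_id
    exact h2.mono_left Nat.hyperfilter_le_atTop
  · intro ε hε
    have h3 : ∀ᶠ m : ℕ in atTop, 1 / ((m : ℝ) + 1) < ε :=
      (tendsto_one_div_add_atTop_nhds_zero_nat (𝕜 := ℝ)).eventually_lt_const hε
    filter_upwards [Nat.hyperfilter_le_atTop h3] with m hm x
    refine le_trans ?_ (hd m x)
    have h4 : (0 : ℝ) ≤ (n m : ℝ) ^ (Nat.card α - 1) := by positivity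
    exact mul_le_mul_of_nonneg_right (by linarith) h4

end Pool.Agent.WTK
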