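import Pool.Agent.WTK.Col1
import Pool.Agent.WT7.KEmb

/-!
# [WTK-Ex] classes of graphs which are in `InM`

`inM_glue`: `φ x = x 0`, `φ z = x 1`; the other `v ∈ V₁`: `φ v = b` if `c₁ v = 0`, `φ v = a i` if `c₁ v = i + 1` (`Fin.succ i`); the other `v ∈ V₂` (not in `V₁`): `φ v = b` if `c₂ v = 0`, `φ v = a' i` if `c₂ v = i + 1`. On `V₁ ∩ V₂` both colours are `0`. An edge other than `x z` has both ends in `V₁`
(colours `c₁` different) or both in `V₂`.
`inM_crit3`: `q = 1`. `u ↦ x 0`, `v ↦ x 1`, the common neighbour of `u`, `v` (if there is one) `↦ x 2`, the other vertices `w` with `c w = true` to `b`, the other vertices with `c w = false` to `a 0` if they are adjacent to `u`, and to `a' 0` otherwise.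
`inM_KB`: `Q ≃ Fin (q + 2)`. For `v ∉ Q` let `i` be the index of the vertex of `Q` which is connected with `v` in `offQ F Q` if there is one (unique by `sep`), else `0`; with a 2-colouring of `offQ F Q`, changed on components (see `root` in WT7.KEmb), map `v` to `w i` if it has the colour of the vertex `i` of `Q`, to `u i` otherwise.
-/

set_option autoImplicit false

namespace Pool.Agent.WTK

open Pool.Agent.WT7 Filter

variable {β : Type}

/-- `F` minus the edge `x z` is the union of its subgraphs on `V₁` and `V₂`, which are properly coloured with `q + 1` colours by `c₁` and `c₂`;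
`x ∈ V₁`, `z ∈ V₂` and the common vertices all have the colour `0`. So `F` arises from two `(q+1)`-coloured graphs by identifying vertices of
the colour `0` of the first with vertices of the colour `0` of the second and adding an edge between two further vertices of colour `0`
(in particular every Hajos join of two graphs along colour-critical edges) -/
structure Glue (F : SimpleGraph β) (q : ℕ) (x z : β) (V₁ V₂ : Set β) (c₁ c₂ : β → Fin (q + 1)) : Prop where
  adj : F.Adj x z
  cover : ∀ v, v ∈ V₁ ∨ v ∈ V₂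
  hx : x ∈ V₁ ∧ x ∉ V₂
  hz : z ∈ V₂ ∧ z ∉ V₁
  edge : ∀ u v, F.Adj u v → (u ∈ V₁ ∧ v ∈ V₁) ∨ (u ∈ V₂ ∧ v ∈ V₂) ∨ (u = x ∧ v = z) ∨ (u = z ∧ v = x)
  col₁ : ∀ u v, u ∈ V₁ → v ∈ V₁ → F.Adj u v → c₁ u ≠ c₁ v
  col₂ : ∀ u v, u ∈ V₂ → v ∈ V₂ → F.Adj u v → c₂ u ≠ c₂ v
  cx : c₁ x = 0
  cz : c₂ z = 0
  cb : ∀ v, v ∈ V₁ → v ∈ V₂ → c₁ v = 0 ∧ c₂ v = 0

/-- `0 ↦ b`, `i + 1 ↦ a i` -/
private def fa {q : ℕ} (c : Fin (q + 1)) : MV q := Fin.cases MV.b (fun i => MV.a i) c

/-- `0 ↦ b`, `i + 1 ↦ a' i` -/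
private def fa' {q : ℕ} (c : Fin (q + 1)) : MV q := Fin.cases MV.b (fun i => MV.a' i) c

private theorem fa_zero {q : ℕ} : fa (0 : Fin (q + 1)) = MV.b := rfl

private theorem fa_succ {q : ℕ} (i : Fin q) : fa i.succ = MV.a i := rfl

private theorem fa'_zero {q : ℕ} : fa' (0 : Fin (q + 1)) = MV.b := rfl

private theorem fa'_succ {q : ℕ} (i : Fin q) : fa' i.succ = MV.a' i := rfl

private theorem adj_fa {q : ℕ} {c d : Fin (q + 1)} (h : c ≠ d) : (M q).Adj (fa c) (fa d) := by
  induction c using Fin.cases with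
  | zero =>
    induction d using Fin.cases with
    | zero => exact absurd rfl h
    | succ j =>
      rw [fa_zero, fa_succ]
      simp [M, Mrel]
  | succ i =>
    induction d using Fin.cases with
    | zero =>
      rw [fa_zero, fa_succ]
      simp [M, Mrel]
    | succ j =>
      rw [fa_succ, fa_succ]
      have hij : i ≠ j := fun e => h (by rw [e])
      simp [M, Mrel, hij]

private theorem adj_fa' {q : ℕ} {c d : Fin (q + 1)} (h : c ≠ d) : (M q).Adj (fa' c) (fa' d) := by
  induction c using Fin.cases with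
  | zero =>
    induction d using Fin.cases with
    | zero => exact absurd rfl h
    | succ j =>
      rw [fa'_zero, fa'_succ]
      simp [M, Mrel]
  | succ i =>
    induction d using Fin.cases with
    | zero =>
      rw [fa'_zero, fa'_succ]
      simp [M, Mrel]
    | succ j =>
      rw [fa'_succ, fa'_succ]
      have hij : i ≠ j := fun e => h (by rw [e])
      simp [M, Mrel, hij]

private theorem adj_x0_fa {q : ℕ} {c : Fin (q + 1)} (h : c ≠ 0) : (M q).Adj (.x 0) (fa c) := by
  induction c using Fin.cases with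
  | zero => exact absurd rfl h
  | succ i =>
    rw [fa_succ]
    simp [M, Mrel]

private theorem adj_x1_fa' {q : ℕ} {c : Fin (q + 1)} (h : c ≠ 0) : (M q).Adj (.x 1) (fa' c) := by
  induction c using Fin.cases with
  | zero => exact absurd rfl h
  | succ i =>
    rw [fa'_succ]
    simp [M, Mrel]

private theorem fa_ne_x {q : ℕ} (c : Fin (q + 1)) (i : Fin (q + 2)) : fa c ≠ MV.x i := by
  induction c using Fin.cases with
  | zero => rw [fa_zero]; simp
  | succ j => rw [fa_succ]; simp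

private theorem fa'_ne_x {q : ℕ} (c : Fin (q + 1)) (i : Fin (q + 2)) : fa' c ≠ MV.x i := by
  induction c using Fin.cases with
  | zero => rw [fa'_zero]; simp
  | succ j => rw [fa'_succ]; simp

private theorem adj_x01 {q : ℕ} : (M q).Adj (.x 0) (.x 1) := by
  simp [M, Mrel]

theorem inM_glue {F : SimpleGraph β} {q : ℕ} {x z : β} {V₁ V₂ : Set β} {c₁ c₂ : β → Fin (q + 1)}
    (h : Glue F q x z V₁ V₂ c₁ c₂) : InM F q := by
  classical
  obtain ⟨φ, hφ⟩ : ∃ φ : β → MV q, ∀ v, φ v = if v = x then .x 0 else if v = z then .x 1 else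
    if v ∈ V₁ then fa (c₁ v) else fa' (c₂ v) := ⟨_, fun v => rfl⟩
  have hxz : x ≠ z := h.adj.ne
  have hφx : φ x = .x 0 := by rw [hφ, if_pos rfl]
  have hφz : φ z = .x 1 := by rw [hφ, if_neg hxz.symm, if_pos rfl]
  have hφ1 : ∀ v, v ∈ V₁ → v ≠ x → φ v = fa (c₁ v) := by
    intro v hv hvx
    have hvz : v ≠ z := fun e => h.hz.2 (e ▸ hv)
    rw [hφ, if_neg hvx, if_neg hvz, if_pos hv]
  have hφ2 : ∀ v, v ∈ V₂ → v ≠ z → φ v = fa' (c₂ v) := by
    intro v hv hvz
    have hvx : v ≠ x := fun e => h.hx.2 (e ▸ hv)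
    by_cases h1 : v ∈ V₁
    · obtain ⟨h2, h3⟩ := h.cb v h1 hv
      rw [hφ1 v h1 hvx, h2, h3, fa_zero, fa'_zero]
    · rw [hφ, if_neg hvx, if_neg hvz, if_neg h1]
  refine ⟨φ, ?_, ?_⟩
  · have key : ∀ u v, F.Adj u v → u ∈ V₁ → v ∈ V₁ → (M q).Adj (φ u) (φ v) := by
      intro u v huv hu hv
      have hc := h.col₁ u v hu hv huv
      by_cases hux : u = x
      · have hvx : v ≠ x := fun e => huv.ne (hux.trans e.symm)
        rw [hux, hφx, hφ1 v hv hvx]
        refine adj_x0_fa fun e => hc ?_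
        rw [hux, h.cx, e]
      · by_cases hvx : v = x
        · rw [hvx, hφx, hφ1 u hu hux]
          refine (adj_x0_fa fun e => hc ?_).symm
          rw [hvx, h.cx, e]
        · rw [hφ1 u hu hux, hφ1 v hv hvx]
          exact adj_fa hc
    have key' : ∀ u v, F.Adj u v → u ∈ V₂ → v ∈ V₂ → (M q).Adj (φ u) (φ v) := by
      intro u v huv hu hv
      have hc := h.col₂ u v hu hv huv
      by_cases huz : u = z
      · have hvz : v ≠ z := fun e => huv.ne (huz.trans e.symm)
        rw [huz, hφz, hφ2 v hv hvz]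
        refine adj_x1_fa' fun e => hc ?_
        rw [huz, h.cz, e]
      · by_cases hvz : v = z
        · rw [hvz, hφz, hφ2 u hu huz]
          refine (adj_x1_fa' fun e => hc ?_).symm
          rw [hvz, h.cz, e]
        · rw [hφ2 u hu huz, hφ2 v hv hvz]
          exact adj_fa' hc
    intro u v huv
    rcases h.edge u v huv with ⟨h1, h2⟩ | ⟨h1, h2⟩ | ⟨h1, h2⟩ | ⟨h1, h2⟩
    · exact key u v huv h1 h2
    · exact key' u v huv h1 h2
    · rw [h1, h2, hφx, hφz]
      exact adj_x01
    · rw [h1, h2, hφx, hφz]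
      exact adj_x01.symm
  · have hcase : ∀ u i, φ u = .x i → (u = x ∧ i = 0) ∨ (u = z ∧ i = 1) := by
      intro u i hu
      by_cases hux : u = x
      · refine Or.inl ⟨hux, ?_⟩
        rw [hux, hφx] at hu
        exact (MV.x.inj hu).symm
      · by_cases huz : u = z
        · refine Or.inr ⟨huz, ?_⟩
          rw [huz, hφz] at hu
          exact (MV.x.inj hu).symm
        · exfalso
          rw [hφ, if_neg hux, if_neg huz] at hu
          by_cases h1 : u ∈ V₁
          · rw [if_pos h1] at hu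
            exact fa_ne_x _ _ hu
          · rw [if_neg h1] at hu
            exact fa'_ne_x _ _ hu
    intro u v i hu hv
    have h01 : (0 : Fin (q + 2)) ≠ 1 := by simp
    rcases hcase u i hu with ⟨h1, h2⟩ | ⟨h1, h2⟩ <;> rcases hcase v i hv with ⟨h3, h4⟩ | ⟨h3, h4⟩
    · rw [h1, h3]
    · exact absurd (h2.symm.trans h4) h01
    · exact absurd (h4.symm.trans h2) h01
    · rw [h1, h3]

theorem inM_crit3 {F : SimpleGraph β} {u v : β} {c : β → Bool} (h : Crit F u v c) : InM F 1 := by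
  classical
  obtain ⟨φ, hφ⟩ : ∃ φ : β → MV 1, ∀ w, φ w = if w = u then .x 0 else if w = v then .x 1 else
    if F.Adj u w ∧ F.Adj v w then .x 2 else if c w = true then .b else
      if F.Adj u w then .a 0 else .a' 0 := ⟨_, fun v => rfl⟩
  have huv : u ≠ v := h.adj.ne
  have hφu : φ u = .x 0 := by rw [hφ, if_pos rfl]
  have hφv : φ v = .x 1 := by rw [hφ, if_neg huv.symm, if_pos rfl]
  have hφb : ∀ w, w ≠ u → w ≠ v → c w = true → φ w = .b := by
    intro w hwu hwv hcw
    have h1 : ¬ (F.Adj u w ∧ F.Adj v w) := by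
      rintro ⟨h2, -⟩
      rcases h.col u w h2 with h3 | ⟨-, h3⟩ | ⟨h3, -⟩
      · exact h3 (h.cu.trans hcw.symm)
      · exact hwv h3
      · exact huv h3
    rw [hφ, if_neg hwu, if_neg hwv, if_neg h1, if_pos hcw]
  have hfalse : ∀ w, w ≠ u → w ≠ v → c w = false → φ w = .x 2 ∨ φ w = .a 0 ∨ φ w = .a' 0 := by
    intro w hwu hwv hcw
    by_cases h1 : F.Adj u w ∧ F.Adj v w
    · exact Or.inl (by rw [hφ, if_neg hwu, if_neg hwv, if_pos h1])
    · by_cases h2 : F.Adj u w
      · exact Or.inr (Or.inl (by rw [hφ, if_neg hwu, if_neg hwv, if_neg h1, if_neg (by simp [hcw]),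
          if_pos h2]))
      · exact Or.inr (Or.inr (by rw [hφ, if_neg hwu, if_neg hwv, if_neg h1, if_neg (by simp [hcw]),
          if_neg h2]))
  have keyu : ∀ w, F.Adj u w → (M 1).Adj (φ u) (φ w) := by
    intro w huw
    by_cases hwv : w = v
    · rw [hφu, hwv, hφv]
      exact adj_x01
    have hwu : w ≠ u := huw.ne'
    have hcw : c w = false := by
      rcases h.col u w huw with h3 | ⟨-, h3⟩ | ⟨h3, -⟩
      · rw [h.cu] at h3
        exact Bool.eq_false_iff.mpr (Ne.symm h3)
      · exact absurd h3 hwv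
      · exact absurd h3 huv
    by_cases h1 : F.Adj v w
    · have : φ w = .x 2 := by rw [hφ, if_neg hwu, if_neg hwv, if_pos ⟨huw, h1⟩]
      rw [hφu, this]
      simp [M, Mrel]
    · have : φ w = .a 0 := by
        rw [hφ, if_neg hwu, if_neg hwv, if_neg (fun h2 => h1 h2.2), if_neg (by simp [hcw]), if_pos huw]
      rw [hφu, this]
      simp [M, Mrel]
  have keyv : ∀ w, F.Adj v w → (M 1).Adj (φ v) (φ w) := by
    intro w hvw
    by_cases hwu : w = u
    · rw [hφv, hwu, hφu]
      exact adj_x01.symm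
    have hwv : w ≠ v := hvw.ne'
    have hcw : c w = false := by
      rcases h.col v w hvw with h3 | ⟨h3, -⟩ | ⟨-, h3⟩
      · rw [h.cv] at h3
        exact Bool.eq_false_iff.mpr (Ne.symm h3)
      · exact absurd h3.symm huv
      · exact absurd h3 hwu
    by_cases h1 : F.Adj u w
    · have : φ w = .x 2 := by rw [hφ, if_neg hwu, if_neg hwv, if_pos ⟨h1, hvw⟩]
      rw [hφv, this]
      simp [M, Mrel]
    · have : φ w = .a' 0 := by
        rw [hφ, if_neg hwu, if_neg hwv, if_neg (fun h2 => h1 h2.1), if_neg (by simp [hcw]), if_neg h1]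
      rw [hφv, this]
      simp [M, Mrel]
  have keyb : ∀ w w', w ≠ u → w ≠ v → w' ≠ u → w' ≠ v → c w = true → c w' = false →
      (M 1).Adj (φ w) (φ w') := by
    intro w w' h1 h2 h3 h4 h5 h6
    rw [hφb w h1 h2 h5]
    rcases hfalse w' h3 h4 h6 with h7 | h7 | h7 <;> rw [h7] <;> simp [M, Mrel]
  refine ⟨φ, ?_, ?_⟩
  · intro w w' hww
    by_cases h1 : w = u
    · rw [h1]; exact keyu w' (h1 ▸ hww)
    by_cases h2 : w = v
    · rw [h2]; exact keyv w' (h2 ▸ hww)
    by_cases h3 : w' = u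
    · rw [h3]; exact (keyu w (h3 ▸ hww.symm)).symm
    by_cases h4 : w' = v
    · rw [h4]; exact (keyv w (h4 ▸ hww.symm)).symm
    have hc : c w ≠ c w' := by
      rcases h.col w w' hww with h5 | ⟨h5, -⟩ | ⟨h5, -⟩
      · exact h5
      · exact absurd h5 h1
      · exact absurd h5 h2
    cases hcw : c w with
    | true =>
      have hcw' : c w' = false := by
        rw [hcw] at hc
        exact Bool.eq_false_iff.mpr (Ne.symm hc)
      exact keyb w w' h1 h2 h3 h4 hcw hcw'
    | false =>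
      have hcw' : c w' = true := by
        rw [hcw] at hc
        exact Bool.eq_true_of_not_eq_false (Ne.symm hc)
      exact (keyb w' w h3 h4 h1 h2 hcw' hcw).symm
  · have hcase : ∀ w i, φ w = .x i → (w = u ∧ i = 0) ∨ (w = v ∧ i = 1) ∨
        (F.Adj u w ∧ F.Adj v w ∧ i = 2) := by
      intro w i hw
      by_cases h1 : w = u
      · rw [h1, hφu] at hw
        exact Or.inl ⟨h1, (MV.x.inj hw).symm⟩
      by_cases h2 : w = v
      · rw [h2, hφv] at hw
        exact Or.inr (Or.inl ⟨h2, (MV.x.inj hw).symm⟩)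
      by_cases h3 : F.Adj u w ∧ F.Adj v w
      · rw [hφ, if_neg h1, if_neg h2, if_pos h3] at hw
        exact Or.inr (Or.inr ⟨h3.1, h3.2, (MV.x.inj hw).symm⟩)
      · exfalso
        rw [hφ, if_neg h1, if_neg h2, if_neg h3] at hw
        split_ifs at hw
    intro w w' i hw hw'
    rcases hcase w i hw with ⟨h1, h2⟩ | ⟨h1, h2⟩ | ⟨h1, h1', h2⟩ <;>
      rcases hcase w' i hw' with ⟨h3, h4⟩ | ⟨h3, h4⟩ | ⟨h3, h3', h4⟩
    · rw [h1, h3]
    · exact absurd (h2.symm.trans h4) (by decide)
    · exact absurd (h2.symm.trans h4) (by decide)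
    · exact absurd (h2.symm.trans h4) (by decide)
    · rw [h1, h3]
    · exact absurd (h2.symm.trans h4) (by decide)
    · exact absurd (h2.symm.trans h4) (by decide)
    · exact absurd (h2.symm.trans h4) (by decide)
    · exact h.one w w' h1 h1' h3 h3'

theorem inM_KB [Finite β] {F : SimpleGraph β} {Q : Set β} {q : ℕ} (h : KB F Q (q + 2)) : InM F q := by
  classical
  have hQfin : Q.Finite := Set.finite_of_ncard_pos (by rw [h.card]; omega)
  have : Finite Q := hQfin.to_subtype
  let e : Q ≃ Fin (q + 2) := Finite.equivFinOfCardEq (by rw [Nat.card_coe_set_eq, h.card])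
  let κ : Fin (q + 2) → β := fun i => (e.symm i : β)
  have hκQ : ∀ i, κ i ∈ Q := fun i => (e.symm i).2
  have hκinj : Function.Injective κ := fun i j h => e.symm.injective (Subtype.ext h)
  have hκsurj : ∀ x ∈ Q, ∃ i, κ i = x := fun x hx => ⟨e ⟨x, hx⟩, by simp [κ]⟩
  -- the root
  let sel : (Fin (q + 2) → Prop) → Fin (q + 2) := fun p => if h : ∃ i, p i then h.choose else 0
  let ρ : β → Fin (q + 2) := fun x => sel (fun i => (offQ F Q).Reachable (κ i) x)
  have hρadj : ∀ x y, (offQ F Q).Adj x y → ρ x = ρ y := by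
    intro x y hxy
    apply congrArg sel
    funext i
    exact propext ⟨fun h => h.trans hxy.reachable, fun h => h.trans hxy.symm.reachable⟩
  have hρκ : ∀ i, ρ (κ i) = i := by
    intro i
    have hex : ∃ j, (offQ F Q).Reachable (κ j) (κ i) := ⟨i, SimpleGraph.Reachable.refl _⟩
    have h1 : ρ (κ i) = hex.choose := by
      show sel _ = _
      simp only [sel]
      rw [dif_pos hex]
    rw [h1]
    exact hκinj (h.sep _ (hκQ _) _ (hκQ _) hex.choose_spec)
  -- the colouring
  obtain ⟨col⟩ := h.bip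
  let c' : β → Prop := fun x => col x = col (κ (ρ x))
  have hc'κ : ∀ i, c' (κ i) := fun i => by
    show col (κ i) = col (κ (ρ (κ i)))
    rw [hρκ]
  have hc'adj : ∀ x y, (offQ F Q).Adj x y → (c' x ∧ ¬ c' y) ∨ (¬ c' x ∧ c' y) := by
    intro x y hxy
    have h1 : col x ≠ col y := col.valid hxy
    have h2 := hρadj x y hxy
    show ((col x = col (κ (ρ x))) ∧ ¬ (col y = col (κ (ρ y)))) ∨
      (¬ (col x = col (κ (ρ x))) ∧ (col y = col (κ (ρ y))))
    rw [h2]
    generalize col (κ (ρ y)) = z at *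
    generalize col x = a at *
    generalize col y = b at *
    fin_cases a <;> fin_cases b <;> fin_cases z <;> simp_all
  obtain ⟨φ, hφ⟩ : ∃ φ : β → MV q, ∀ x, φ x = if x ∈ Q then .x (ρ x) else if c' x then .w (ρ x)
      else .u (ρ x) := ⟨_, fun x => rfl⟩
  have hφQ : ∀ x ∈ Q, φ x = .x (ρ x) := fun x hx => by rw [hφ, if_pos hx]
  have hφw : ∀ x, x ∉ Q → c' x → φ x = .w (ρ x) := fun x hx hc => by
    rw [hφ, if_neg hx, if_pos hc]
  have hφu : ∀ x, x ∉ Q → ¬ c' x → φ x = .u (ρ x) := fun x hx hc => by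
    rw [hφ, if_neg hx, if_neg hc]
  have hedge : ∀ x z, (offQ F Q).Adj x z → c' x → ¬ c' z → (M q).Adj (φ x) (φ z) := by
    intro x z hxz hcx hcz
    have hr := hρadj x z hxz
    have hz : z ∉ Q := by
      intro hz
      obtain ⟨j, rfl⟩ := hκsurj z hz
      exact hcz (hc'κ j)
    rw [hφu z hz hcz]
    by_cases hx : x ∈ Q
    · rw [hφQ x hx, hr]
      simp [M, Mrel]
    · rw [hφw x hx hcx, hr]
      simp [M, Mrel]
  refine ⟨φ, ?_, ?_⟩
  · intro x z hxz
    by_cases hQ : x ∈ Q ∧ z ∈ Q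
    · obtain ⟨i, rfl⟩ := hκsurj x hQ.1
      obtain ⟨j, rfl⟩ := hκsurj z hQ.2
      rw [hφQ _ hQ.1, hφQ _ hQ.2, hρκ, hρκ]
      have hij : i ≠ j := by
        rintro rfl
        exact hxz.ne rfl
      simp [M, Mrel, hij]
    · have hoff : (offQ F Q).Adj x z := ⟨hxz, hQ⟩
      rcases hc'adj x z hoff with ⟨h1, h2⟩ | ⟨h1, h2⟩
      · exact hedge x z hoff h1 h2
      · exact (hedge z x hoff.symm h2 h1).symm
  · have hcase : ∀ x i, φ x = .x i → x ∈ Q ∧ ρ x = i := by
      intro x i hx
      by_cases h1 : x ∈ Q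
      · rw [hφQ x h1] at hx
        exact ⟨h1, MV.x.inj hx⟩
      · exfalso
        rw [hφ, if_neg h1] at hx
        split_ifs at hx
    intro x z i hx hz
    obtain ⟨h1, h2⟩ := hcase x i hx
    obtain ⟨h3, h4⟩ := hcase z i hz
    obtain ⟨j, rfl⟩ := hκsurj x h1
    obtain ⟨l, rfl⟩ := hκsurj z h3
    rw [hρκ] at h2 h4
    rw [h2, h4]

end Pool.Agent.WTK
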