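import Pool.Agent.WTK.Defs

/-!
# [WTK-FM] few and many

`few_or_many`: if not `Few` there is `ε > 0` such that not eventually `≤ ε n^j`; by `Ultrafilter.eventually_not` (or `Ultrafilter.em`) eventually `> ε n^j`.
`Many.pigeon`: if all `T' j` are few, then so is `T ⊆ ⋃ T' j`, a contradiction with `not_few_of_many`.
-/

set_option autoImplicit false

namespace Pool.Agent.WTK

open Pool.Agent.WT7 Filter

variable {U : Ultrafilter ℕ} {n : ℕ → ℕ} {ι κ : Type}

private lemma ncard_iUnion_real_le {X J : Type} [Finite X] [Finite J] {T : J → Set X} {c : ℝ}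
    (h : ∀ j, ((T j).ncard : ℝ) ≤ c) : ((⋃ j, T j).ncard : ℝ) ≤ Nat.card J * c := by
  classical
  have := Fintype.ofFinite J
  have h1 : ∀ s : Finset J, ((⋃ j ∈ s, T j).ncard : ℝ) ≤ ∑ j ∈ s, ((T j).ncard : ℝ) := by
    intro s
    induction s using Finset.induction_on with
    | empty => simp
    | insert a s ha ih =>
      rw [Finset.set_biUnion_insert, Finset.sum_insert ha]
      have h2 : ((T a ∪ ⋃ j ∈ s, T j).ncard : ℝ) ≤ (T a).ncard + (⋃ j ∈ s, T j).ncard := by
        exact_mod_cast Set.ncard_union_le _ _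
      linarith
  have h2 := h1 Finset.univ
  simp only [Finset.mem_univ, Set.iUnion_true] at h2
  refine h2.trans ?_
  refine (Finset.sum_le_sum fun j _ => h j).trans_eq ?_
  rw [Finset.sum_const, nsmul_eq_mul, Finset.card_univ, Nat.card_eq_fintype_card]

theorem few_or_many (T : ∀ m, Set (ι → Fin (n m))) : Few U n T ∨ Many U n T := by
  by_cases h : Few U n T
  · exact Or.inl h
  · right
    unfold Few at h
    push Not at h
    obtain ⟨ε, hε, h⟩ := h
    refine ⟨ε, hε, ?_⟩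
    have h1 : ∀ᶠ m in (U : Filter ℕ), ¬ (((T m).ncard : ℝ) ≤ ε * (n m : ℝ) ^ Nat.card ι) :=
      Ultrafilter.eventually_not.mpr (by simpa [Filter.not_eventually] using h)
    filter_upwards [h1] with m hm
    exact (not_le.mp hm).le

theorem not_few_of_many (hn : ∀ m, 0 < n m) {T : ∀ m, Set (ι → Fin (n m))} (h : Many U n T) : ¬ Few U n T := by
  intro hf
  obtain ⟨c, hc, h⟩ := h
  obtain ⟨m, h1, h2⟩ := (h.and (hf (c / 2) (by linarith))).exists
  have h3 : (0 : ℝ) < (n m : ℝ) ^ Nat.card ι := pow_pos (by exact_mod_cast hn m) _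
  nlinarith

theorem Few.mono [Finite ι] {T T' : ∀ m, Set (ι → Fin (n m))} (h : Few U n T')
    (hT : ∀ᶠ m in (U : Filter ℕ), T m ⊆ T' m) : Few U n T := by
  intro ε hε
  filter_upwards [h ε hε, hT] with m h1 h2
  refine le_trans ?_ h1
  exact_mod_cast Set.ncard_le_ncard h2 (Set.toFinite _)

theorem Many.mono [Finite ι] {T T' : ∀ m, Set (ι → Fin (n m))} (h : Many U n T)
    (hT : ∀ᶠ m in (U : Filter ℕ), T m ⊆ T' m) : Many U n T' := by
  obtain ⟨c, hc, h⟩ := h
  refine ⟨c, hc, ?_⟩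
  filter_upwards [h, hT] with m h1 h2
  refine h1.trans ?_
  exact_mod_cast Set.ncard_le_ncard h2 (Set.toFinite _)

theorem Few.union [Finite ι] {T T' : ∀ m, Set (ι → Fin (n m))} (h : Few U n T) (h' : Few U n T') :
    Few U n (fun m => T m ∪ T' m) := by
  intro ε hε
  filter_upwards [h (ε / 2) (by linarith), h' (ε / 2) (by linarith)] with m h1 h2
  have h3 : ((T m ∪ T' m).ncard : ℝ) ≤ (T m).ncard + (T' m).ncard := by
    exact_mod_cast Set.ncard_union_le _ _
  linarith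

theorem Few.iUnion [Finite ι] {J : Type} [Finite J] {T : J → ∀ m, Set (ι → Fin (n m))} (h : ∀ j, Few U n (T j)) :
    Few U n (fun m => ⋃ j, T j m) := by
  intro ε hε
  have h1 : ∀ᶠ m in (U : Filter ℕ), ∀ j, ((T j m).ncard : ℝ) ≤
      ε / (Nat.card J + 1) * (n m : ℝ) ^ Nat.card ι :=
    eventually_all.mpr fun j => h j _ (by positivity)
  filter_upwards [h1] with m hm
  refine (ncard_iUnion_real_le hm).trans ?_
  have h2 : (Nat.card J : ℝ) * (ε / (Nat.card J + 1)) ≤ ε := by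
    rw [mul_div_assoc', div_le_iff₀ (by positivity)]
    nlinarith [(Nat.cast_nonneg (Nat.card J) : (0 : ℝ) ≤ (Nat.card J : ℝ))]
  have h3 : (0 : ℝ) ≤ (n m : ℝ) ^ Nat.card ι := by positivity
  calc (Nat.card J : ℝ) * (ε / (Nat.card J + 1) * (n m : ℝ) ^ Nat.card ι)
      = (Nat.card J : ℝ) * (ε / (Nat.card J + 1)) * (n m : ℝ) ^ Nat.card ι := by ring
    _ ≤ ε * (n m : ℝ) ^ Nat.card ι := mul_le_mul_of_nonneg_right h2 h3

/-- a union of sets each of which is eventually small -/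
theorem eventually_iUnion_le [Finite ι] {J : Type} [Finite J] {T : J → ∀ m, Set (ι → Fin (n m))} {ρ : ℝ}
    (h : ∀ j, ∀ᶠ m in (U : Filter ℕ), ((T j m).ncard : ℝ) ≤ ρ * (n m : ℝ) ^ Nat.card ι) :
    ∀ᶠ m in (U : Filter ℕ), ((⋃ j, T j m).ncard : ℝ) ≤ Nat.card J * ρ * (n m : ℝ) ^ Nat.card ι := by
  have h1 : ∀ᶠ m in (U : Filter ℕ), ∀ j, ((T j m).ncard : ℝ) ≤ ρ * (n m : ℝ) ^ Nat.card ι :=
    eventually_all.mpr fun j => h j
  filter_upwards [h1] with m hm
  refine (ncard_iUnion_real_le hm).trans_eq ?_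
  ring

theorem Many.pigeon [Finite ι] {J : Type} [Finite J] (hn : ∀ m, 0 < n m) {T : ∀ m, Set (ι → Fin (n m))}
    {T' : J → ∀ m, Set (ι → Fin (n m))} (h : Many U n T) (hT : ∀ᶠ m in (U : Filter ℕ), T m ⊆ ⋃ j, T' j m) :
    ∃ j, Many U n (T' j) := by
  by_contra hcon
  push Not at hcon
  have h1 : ∀ j, Few U n (T' j) := fun j => (few_or_many (T' j)).resolve_right (hcon j)
  exact not_few_of_many hn h ((Few.iUnion h1).mono hT)

/-- if `T` has density `≥ c` and `T'` has density `≤ c / 2` then the difference has density `≥ c / 2` -/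
theorem many_diff [Finite ι] {T T' : ∀ m, Set (ι → Fin (n m))} {c : ℝ} (hc : 0 < c)
    (h : ∀ᶠ m in (U : Filter ℕ), c * (n m : ℝ) ^ Nat.card ι ≤ ((T m).ncard : ℝ))
    (h' : ∀ᶠ m in (U : Filter ℕ), ((T' m).ncard : ℝ) ≤ c / 2 * (n m : ℝ) ^ Nat.card ι) :
    Many U n (fun m => T m \ T' m) := by
  refine ⟨c / 2, by linarith, ?_⟩
  filter_upwards [h, h'] with m h1 h2
  have h3 : ((T m).ncard : ℝ) ≤ ((T m \ T' m).ncard : ℝ) + ((T' m).ncard : ℝ) := by
    have h4 : (T m).ncard ≤ (T m \ T' m ∪ T' m).ncard :=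
      Set.ncard_le_ncard (by rw [Set.sdiff_union_self]; exact Set.subset_union_left) (Set.toFinite _)
    exact_mod_cast h4.trans (Set.ncard_union_le _ _)
  linarith

theorem Many.nonempty (hn : ∀ m, 0 < n m) {T : ∀ m, Set (ι → Fin (n m))} (h : Many U n T) :
    ∀ᶠ m in (U : Filter ℕ), (T m).Nonempty := by
  obtain ⟨c, hc, h⟩ := h
  filter_upwards [h] with m h1
  have h2 : (0 : ℝ) < (n m : ℝ) ^ Nat.card ι := pow_pos (by exact_mod_cast hn m) _
  have h3 : (0 : ℝ) < ((T m).ncard : ℝ) := lt_of_lt_of_le (by positivity) h1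
  rw [Set.nonempty_iff_ne_empty]
  intro he
  rw [he, Set.ncard_empty] at h3
  simp at h3

end Pool.Agent.WTK
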