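import Pool.Agent.WTK.Col

/-!
# [WTK-FinEmb] the final embedding

`ι = Unit ⊕ (Fin q ⊕ Fin q) ⊕ Fin (q+2) ⊕ Fin (q+2)` (or any bracketing) for the vertices `b, a i, a' i, u i, w i` of `M q`. `T m` = the set of the tuples `Q` with `Q b ∈ Z m`, `Q a` a clique in `N(Q b) ∩ N(x i₁)`, `Q a'` a clique in `N(Q b) ∩ N(x i₂)`, `Q (u j) ∈ N(x (σ j))`, `Q (w j) ∈ N(Q (u j))`, where `σ` is a permutation of
`Fin (q + 2)` with `σ 0 = i₁`, `σ 1 = i₂`, `σ 2 = l`. `T` is many: `many_of_large`, then `large_mul_many` several times (for `Z` by the definition of `R`: at least `δ n^q` cliques; for the `u` and `w`: at least `(c₀ n)^(q+2)`, `Set.pi`). `embs` with `c v = none` if `φ v = x j`, otherwise `some` of the vertex of `M q`; `x v = x m (σ j)` for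
`φ v = x j`. The edges: `x j ~ x j'`; `x 0 ~ a`, `x 1 ~ a'`, `x 2 ~ b`, `x j ~ u j`; `a ~ a`, `a' ~ a'`, `b ~ a`, `b ~ a'`, `u j ~ w j`. So `T` is not many: contradiction.
-/

set_option autoImplicit false

namespace Pool.Agent.WTK

open Pool.Agent.WT7 Filter

/-- the index type of the tuples -/
private abbrev FeI (q : ℕ) : Type := (((Unit ⊕ Fin q) ⊕ Fin q) ⊕ Fin (q + 2)) ⊕ Fin (q + 2)

private def feIdx {q : ℕ} : MV q → Option (FeI q)
  | .x _ => none
  | .b => some (.inl (.inl (.inl (.inl ()))))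
  | .a i => some (.inl (.inl (.inl (.inr i))))
  | .a' i => some (.inl (.inl (.inr i)))
  | .u i => some (.inl (.inr i))
  | .w i => some (.inr i)

/-- the image of a vertex of `M q` -/
private def feEv {q N : ℕ} (y : Fin (q + 2) → Fin N) (Q : FeI q → Fin N) : MV q → Fin N
  | .x i => y i
  | .b => Q (.inl (.inl (.inl (.inl ()))))
  | .a i => Q (.inl (.inl (.inl (.inr i))))
  | .a' i => Q (.inl (.inl (.inr i)))
  | .u i => Q (.inl (.inr i))
  | .w i => Q (.inr i)

private lemma feEv_none {q N : ℕ} (y : Fin (q + 2) → Fin N) (Q Q' : FeI q → Fin N) (s : MV q)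
    (h : feIdx s = none) : feEv y Q s = feEv y Q' s := by
  cases s <;> simp_all [feIdx, feEv]

private lemma feEv_some {q N : ℕ} (y : Fin (q + 2) → Fin N) (Q : FeI q → Fin N) (s : MV q) (i : FeI q)
    (h : feIdx s = some i) : feEv y Q s = Q i := by
  cases s <;> simp [feIdx] at h <;> subst h <;> rfl

private lemma fe_none {q : ℕ} (s : MV q) (h : feIdx s = none) : ∃ i, s = .x i := by
  cases s with
  | x i => exact ⟨i, rfl⟩
  | b => simp [feIdx] at h
  | a i => simp [feIdx] at h
  | a' i => simp [feIdx] at h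
  | u i => simp [feIdx] at h
  | w i => simp [feIdx] at h

/-- a permutation with three given values -/
private lemma fe_perm {q : ℕ} {p0 p1 p2 r0 r1 r2 : Fin (q + 2)} (hp01 : p0 ≠ p1) (hp02 : p0 ≠ p2) (hp12 : p1 ≠ p2)
    (hr01 : r0 ≠ r1) (hr02 : r0 ≠ r2) (hr12 : r1 ≠ r2) :
    ∃ σ : Equiv.Perm (Fin (q + 2)), σ p0 = r0 ∧ σ p1 = r1 ∧ σ p2 = r2 := by
  let s1 : Equiv.Perm (Fin (q + 2)) := Equiv.swap p0 r0
  have h10 : s1 p0 = r0 := Equiv.swap_apply_left _ _
  let s2 : Equiv.Perm (Fin (q + 2)) := s1.trans (Equiv.swap (s1 p1) r1)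
  have h20 : s2 p0 = r0 := by
    show Equiv.swap (s1 p1) r1 (s1 p0) = r0
    rw [Equiv.swap_apply_of_ne_of_ne (fun h => hp01 (s1.injective h)) (by rw [h10]; exact hr01), h10]
  have h21 : s2 p1 = r1 := by
    show Equiv.swap (s1 p1) r1 (s1 p1) = r1
    exact Equiv.swap_apply_left _ _
  let s3 : Equiv.Perm (Fin (q + 2)) := s2.trans (Equiv.swap (s2 p2) r2)
  refine ⟨s3, ?_, ?_, ?_⟩
  · show Equiv.swap (s2 p2) r2 (s2 p0) = r0
    rw [Equiv.swap_apply_of_ne_of_ne (fun h => hp02 (s2.injective h)) (by rw [h20]; exact hr02), h20]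
  · show Equiv.swap (s2 p2) r2 (s2 p1) = r1
    rw [Equiv.swap_apply_of_ne_of_ne (fun h => hp12 (s2.injective h)) (by rw [h21]; exact hr12), h21]
  · show Equiv.swap (s2 p2) r2 (s2 p2) = r2
    exact Equiv.swap_apply_left _ _

private lemma fe_pi {κ : Type} [Finite κ] {N : ℕ} {c : ℝ} (hc : 0 ≤ c) (A : κ → Set (Fin N))
    (hA : ∀ j, c * (N : ℝ) ≤ ((A j).ncard : ℝ)) :
    c ^ Nat.card κ * (N : ℝ) ^ Nat.card κ ≤ (({g : κ → Fin N | ∀ j, g j ∈ A j}).ncard : ℝ) := by
  classical
  have : Fintype κ := Fintype.ofFinite κ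
  have h1 : {g : κ → Fin N | ∀ j, g j ∈ A j} =
      ((Fintype.piFinset (fun j => (A j).toFinset) : Finset (κ → Fin N)) : Set (κ → Fin N)) := by
    ext g
    simp
  rw [h1, Set.ncard_coe_finset, Fintype.card_piFinset, ← mul_pow, Nat.card_eq_fintype_card]
  push_cast
  have h2 : (c * (N : ℝ)) ^ Fintype.card κ = ∏ _j : κ, (c * (N : ℝ)) := by
    rw [Finset.prod_const, Finset.card_univ]
  rw [h2]
  apply Finset.prod_le_prod
  · intro j _
    positivity
  · intro j _
    have h3 := hA j
    rw [Set.ncard_eq_toFinset_card'] at h3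
    exact h3

/-- the tuples -/
private def feT {q N : ℕ} (G : SimpleGraph (Fin N)) (Z : Set (Fin N)) (y : Fin (q + 2) → Fin N)
    (y0 y1 : Fin N) : Set (FeI q → Fin N) :=
  {Q | Q (.inl (.inl (.inl (.inl ())))) ∈ Z ∧
    (fun i => Q (.inl (.inl (.inl (.inr i))))) ∈
      cq G (G.neighborSet (Q (.inl (.inl (.inl (.inl ()))))) ∩ G.neighborSet y0) (Fin q) ∧
    (fun i => Q (.inl (.inl (.inr i)))) ∈
      cq G (G.neighborSet (Q (.inl (.inl (.inl (.inl ()))))) ∩ G.neighborSet y1) (Fin q) ∧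
    (∀ j, Q (.inl (.inr j)) ∈ G.neighborSet (y j)) ∧
    ∀ j, Q (.inr j) ∈ G.neighborSet (Q (.inl (.inr j)))}

private lemma fe_key {q N : ℕ} (G : SimpleGraph (Fin N)) {Z : Set (Fin N)} {y : Fin (q + 2) → Fin N}
    {y0 y1 y2 : Fin N} (hy : ∀ i j, i ≠ j → G.Adj (y i) (y j)) (h0 : ∀ i : Fin (q + 2), i.val = 0 → y i = y0)
    (h1 : ∀ i : Fin (q + 2), i.val = 1 → y i = y1) (h2 : ∀ i : Fin (q + 2), i.val = 2 → y i = y2)
    (hZ : ∀ v ∈ Z, G.Adj y2 v) {Q : FeI q → Fin N} (hQ : Q ∈ feT G Z y y0 y1) (s t : MV q)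
    (hst : (M q).Adj s t) : G.Adj (feEv y Q s) (feEv y Q t) := by
  have main : ∀ s t : MV q, s ≠ t → Mrel q s t → G.Adj (feEv y Q s) (feEv y Q t) := by
    intro s t hne hr
    obtain ⟨hb, ⟨ha1, ha2⟩, ⟨ha'1, ha'2⟩, hu, hw⟩ := hQ
    cases s with
    | x i =>
      cases t with
      | x j =>
        exact hy i j (fun h => hne (by rw [h]))
      | b =>
        have : i.val = 2 := hr
        show G.Adj (y i) _
        rw [h2 i this]
        exact hZ _ hb
      | a j =>
        have : i.val = 0 := hr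
        show G.Adj (y i) _
        rw [h0 i this]
        exact (ha1 j).2
      | a' j =>
        have : i.val = 1 := hr
        show G.Adj (y i) _
        rw [h1 i this]
        exact (ha'1 j).2
      | u j =>
        have : i = j := hr
        subst this
        exact hu i
      | w j => exact (hr : False).elim
    | b =>
      cases t with
      | x j => exact (hr : False).elim
      | b => exact (hr : False).elim
      | a j => exact (ha1 j).1
      | a' j => exact (ha'1 j).1
      | u j => exact (hr : False).elim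
      | w j => exact (hr : False).elim
    | a i =>
      cases t with
      | x j => exact (hr : False).elim
      | b => exact (hr : False).elim
      | a j => exact ha2 i j (fun h => hne (by rw [h]))
      | a' j => exact (hr : False).elim
      | u j => exact (hr : False).elim
      | w j => exact (hr : False).elim
    | a' i =>
      cases t with
      | x j => exact (hr : False).elim
      | b => exact (hr : False).elim
      | a j => exact (hr : False).elim
      | a' j => exact ha'2 i j (fun h => hne (by rw [h]))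
      | u j => exact (hr : False).elim
      | w j => exact (hr : False).elim
    | u i =>
      cases t with
      | x j => exact (hr : False).elim
      | b => exact (hr : False).elim
      | a j => exact (hr : False).elim
      | a' j => exact (hr : False).elim
      | u j => exact (hr : False).elim
      | w j =>
        have : i = j := hr
        subst this
        exact hw i
    | w i =>
      cases t <;> exact (hr : False).elim
  rw [M, SimpleGraph.fromRel_adj] at hst
  rcases hst with ⟨hne, h | h⟩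
  · exact main s t hne h
  · exact (main t s hne.symm h).symm

theorem fin_emb {β : Type} [Finite β] {F : SimpleGraph β} {q : ℕ} (hq : 1 ≤ q) (hFM : InM F q)
    {U : Ultrafilter ℕ} {n : ℕ → ℕ} {G : ∀ m, SimpleGraph (Fin (n m))} (hpos : ∀ m, 0 < n m)
    (hn : Tendsto n (U : Filter ℕ) atTop) (hF : ∀ m, F.Free (G m)) {c₀ : ℝ} (hc₀ : 0 < c₀)
    (hdeg : ∀ᶠ m in (U : Filter ℕ), ∀ v, c₀ * (n m : ℝ) ≤ (((G m).neighborSet v).ncard : ℝ))
    (x : ∀ m, Fin (q + 2) → Fin (n m)) (hx : ∀ m i j, i ≠ j → (G m).Adj (x m i) (x m j)) {l i₁ i₂ : Fin (q + 2)}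
    (h1 : i₁ ≠ l) (h2 : i₂ ≠ l) (h12 : i₁ ≠ i₂) {δ : ℝ} (hδ : 0 < δ)
    (hZ : Large U n (fun m => {v | (G m).Adj (x m l) v ∧
      v ∈ R (G m) q ((G m).neighborSet (x m i₁)) δ ∧ v ∈ R (G m) q ((G m).neighborSet (x m i₂)) δ})) : False := by
  obtain ⟨φ, hφ, hφx⟩ := hFM
  obtain ⟨σ, hσ0, hσ1, hσ2⟩ := fe_perm (q := q) (p0 := ⟨0, by omega⟩) (p1 := ⟨1, by omega⟩)
    (p2 := ⟨2, by omega⟩) (r0 := i₁) (r1 := i₂) (r2 := l) (by simp) (by simp) (by simp) h12 h1 h2
  have hn0 : ∀ m, (0 : ℝ) ≤ (n m : ℝ) := fun m => Nat.cast_nonneg _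
  -- the tuples are many
  have S0 := many_of_large hZ
  have S1 := large_mul_many S0
    (fun m f => cq (G m) ((G m).neighborSet (f ()) ∩ (G m).neighborSet (x m i₁)) (Fin q)) ⟨δ, hδ, by
      apply Eventually.of_forall
      intro m f hf
      have h := hf.2.1
      simp only [R, Set.mem_setOf_eq, Nat.card_eq_fintype_card, Fintype.card_fin] at h
      simpa only [Nat.card_eq_fintype_card, Fintype.card_fin] using h⟩
  have S2 := large_mul_many S1
    (fun m f => cq (G m) ((G m).neighborSet (f (.inl ())) ∩ (G m).neighborSet (x m i₂)) (Fin q)) ⟨δ, hδ, by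
      apply Eventually.of_forall
      intro m f hf
      have h := hf.1.2.2
      simp only [R, Set.mem_setOf_eq, Nat.card_eq_fintype_card, Fintype.card_fin] at h
      simpa only [Nat.card_eq_fintype_card, Fintype.card_fin] using h⟩
  have S3 := large_mul_many S2
    (fun m _ => {g : Fin (q + 2) → Fin (n m) | ∀ j, g j ∈ (G m).neighborSet (x m (σ j))})
      ⟨c₀ ^ (q + 2), by positivity, by
      filter_upwards [hdeg] with m hm f _
      have h := fe_pi (κ := Fin (q + 2)) hc₀.le (fun j => (G m).neighborSet (x m (σ j)))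
        (fun j => hm (x m (σ j)))
      simpa only [Nat.card_eq_fintype_card, Fintype.card_fin] using h⟩
  have S4 := large_mul_many S3
    (fun m f => {g : Fin (q + 2) → Fin (n m) | ∀ j, g j ∈ (G m).neighborSet (f (.inr j))})
      ⟨c₀ ^ (q + 2), by positivity, by
      filter_upwards [hdeg] with m hm f _
      have h := fe_pi (κ := Fin (q + 2)) hc₀.le (fun j => (G m).neighborSet (f (.inr j)))
        (fun j => hm (f (.inr j)))
      simpa only [Nat.card_eq_fintype_card, Fintype.card_fin] using h⟩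
  set Z : ∀ m, Set (Fin (n m)) := fun m => {v | (G m).Adj (x m l) v ∧
      v ∈ R (G m) q ((G m).neighborSet (x m i₁)) δ ∧ v ∈ R (G m) q ((G m).neighborSet (x m i₂)) δ} with hZdef
  have hT : Many U n (fun m => feT (G m) (Z m) (fun j => x m (σ j)) (x m i₁) (x m i₂)) := by
    refine Many.mono S4 (Eventually.of_forall ?_)
    intro m Q hQ
    obtain ⟨⟨⟨⟨hb, ha⟩, ha'⟩, hu⟩, hw⟩ := hQ
    exact ⟨hb, ha, ha', hu, hw⟩
  -- the embedding
  have hxinj : ∀ m i j, x m i = x m j → i = j := by
    intro m i j hij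
    by_contra hne
    have := hx m i j hne
    rw [hij] at this
    exact (G m).irrefl this
  have hQ0 : ∀ m, FeI q → Fin (n m) := fun m _ => ⟨0, hpos m⟩
  have hkey : ∀ m, ∀ Q ∈ feT (G m) (Z m) (fun j => x m (σ j)) (x m i₁) (x m i₂), ∀ s t : MV q, (M q).Adj s t →
      (G m).Adj (feEv (fun j => x m (σ j)) Q s) (feEv (fun j => x m (σ j)) Q t) := by
    intro m Q hQ s t hst
    refine fe_key (G m) (y2 := x m l) (fun i j hij => hx m _ _ (fun h => hij (σ.injective h))) ?_ ?_ ?_
      (fun v hv => hv.1) hQ s t hst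
    · intro i hi
      have : i = ⟨0, by omega⟩ := Fin.ext hi
      rw [this]
      show x m (σ _) = _
      rw [hσ0]
    · intro i hi
      have : i = ⟨1, by omega⟩ := Fin.ext hi
      rw [this]
      show x m (σ _) = _
      rw [hσ1]
    · intro i hi
      have : i = ⟨2, by omega⟩ := Fin.ext hi
      rw [this]
      show x m (σ _) = _
      rw [hσ2]
  refine embs (ι := FeI q) (fun v => feIdx (φ v)) hn hF
    (fun m v => feEv (fun j => x m (σ j)) (hQ0 m) (φ v)) ?_ ?_ ?_ ?_ hT
  · intro m u v hu hv huv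
    obtain ⟨i, hi⟩ := fe_none _ hu
    obtain ⟨j, hj⟩ := fe_none _ hv
    rw [hi, hj] at huv
    have h3 : σ i = σ j := hxinj m _ _ huv
    have h4 : i = j := σ.injective h3
    subst h4
    exact hφx u v i hi hj
  · intro m u v huv hu hv
    obtain ⟨i, hi⟩ := fe_none _ hu
    obtain ⟨j, hj⟩ := fe_none _ hv
    have h3 := hφ u v huv
    rw [hi, hj] at h3
    rw [hi, hj]
    have hij : i ≠ j := by
      intro h
      rw [h] at h3
      exact (M q).irrefl h3
    exact hx m _ _ (fun h => hij (σ.injective h))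
  · intro m u v i huv hu hv Q hQ
    have h3 := hkey m Q hQ _ _ (hφ u v huv)
    rw [feEv_some _ _ _ i hv, feEv_none _ Q (hQ0 m) _ hu] at h3
    exact h3
  · intro m u v i j huv hu hv Q hQ
    have h3 := hkey m Q hQ _ _ (hφ u v huv)
    rw [feEv_some _ _ _ i hu, feEv_some _ _ _ j hv] at h3
    exact h3

end Pool.Agent.WTK
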