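import Pool.Agent.WTK.MainK

/-!
# [WTK-FinK] the statement

`exK`: as the first half of `k_ex` in WT7.KFin (`inj_eq_aut_mul`, `aut_pos`, `mainK_all`).
`colorable_of_good`: for large `n` let `G` be the complete `(q+1)`-partite graph with `copyCount = ex n H K_k`; the graph `H` with isolated vertices added is `K_k`-free, so `ex n H K_k ≥ 1`, `H` is contained in `G` and `(q+1)`-colourable. (`χ(K_k) = k`: `SimpleGraph.chromaticNumber_top`.)
`goodK`: as `good` in WT7.FinM: the complete `(q+1)`-partite graph `G` of the hypothesis is `F`-free since `χ(F) = q + 2`; so `ex n H K_k = copyCount G H ≤ ex n H F ≤ ex n H K_k`.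
(`F.chromaticNumber = q + 2` gives an edge of `F`.)
-/

set_option autoImplicit false

namespace Pool.Agent.WTK

open Pool.Agent.WT7 Filter

variable {α β : Type}

private theorem finK_edge (q : ℕ) : ∃ a b, (⊤ : SimpleGraph (Fin (q + 2))).Adj a b :=
  ⟨⟨0, by omega⟩, ⟨1, by omega⟩, by simp⟩

private theorem finK_ne_bot {γ : Type} {K : SimpleGraph γ} (h : ∃ a b, K.Adj a b) : K ≠ ⊥ := by
  rintro rfl
  obtain ⟨a, b, hab⟩ := h
  exact hab

private theorem finK_bdd [Finite α] (H : SimpleGraph α) {n : ℕ} (P : SimpleGraph (Fin n) → Prop) :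
    BddAbove {m | ∃ G : SimpleGraph (Fin n), P G ∧ G.copyCount H = m} := by
  refine ⟨Nat.card (Fin n) ^ Nat.card α, ?_⟩
  rintro m ⟨G, -, rfl⟩
  refine le_trans ?_ ((inj_le_hom H G).trans (hom_le_pow H G))
  rw [inj_eq_aut_mul H G]
  exact Nat.le_mul_of_pos_left _ (aut_pos H)

private theorem finK_exists [Finite α] (H : SimpleGraph α) {γ : Type} {K : SimpleGraph γ}
    (hK : ∃ a b, K.Adj a b) (n : ℕ) : ∃ G : SimpleGraph (Fin n), K.Free G ∧ G.copyCount H = ex n H K :=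
  Nat.sSup_mem (s := {m | ∃ G : SimpleGraph (Fin n), K.Free G ∧ G.copyCount H = m})
    ⟨_, ⊥, SimpleGraph.free_bot (finK_ne_bot hK), rfl⟩ (finK_bdd H _)

private theorem finK_le_ex [Finite α] (H : SimpleGraph α) {γ : Type} {K : SimpleGraph γ} {n : ℕ}
    {G : SimpleGraph (Fin n)} (hG : K.Free G) : G.copyCount H ≤ ex n H K :=
  le_csSup (finK_bdd H _) ⟨G, hG, rfl⟩

theorem exK [Finite α] [Finite β] {q : ℕ} (hq : 1 ≤ q) {H : SimpleGraph α}
    (hH : H.Colorable (q + 1)) {F : SimpleGraph β} (hFe : ∃ a b, F.Adj a b) (hFM : InM F q) :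
    ∃ n₀ : ℕ, ∀ n ≥ n₀, ex n H F ≤ ex n H (⊤ : SimpleGraph (Fin (q + 2))) := by
  obtain ⟨n₀, hn₀⟩ := mainK_all hq hH hFe hFM
  refine ⟨n₀, fun n hn => ?_⟩
  obtain ⟨G, hGF, hG⟩ := finK_exists H hFe n
  obtain ⟨G₁, hG₁F, hG₁⟩ := exists_bF H (finK_edge q) n
  have h1 := inj_le_bF H F hGF
  rw [Nat.card_fin] at h1
  have h2 : inj H G ≤ inj H G₁ := by
    rw [hG₁]
    exact h1.trans (hn₀ n hn)
  rw [inj_eq_aut_mul H G, inj_eq_aut_mul H G₁] at h2
  have h3 := Nat.le_of_mul_le_mul_left h2 (aut_pos H)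
  rw [← hG]
  exact h3.trans (finK_le_ex H hG₁F)

private theorem finK_part {q k' : ℕ} (hk : (⊤ : SimpleGraph (Fin (q + 2))).chromaticNumber = (k' + 1 : ℕ)) :
    k' = q + 1 := by
  rw [SimpleGraph.chromaticNumber_top, Fintype.card_fin] at hk
  have h := Nat.cast_injective (R := ℕ∞) hk
  omega

theorem colorable_of_good [Finite α] {q : ℕ} {H : SimpleGraph α} (hH : H.CliqueFree (q + 2))
    (hg : WeaklyTuranGood H (⊤ : SimpleGraph (Fin (q + 2)))) : H.Colorable (q + 1) := by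
  classical
  obtain ⟨k', hk, n₀, hn₀⟩ := hg
  have hk' := finK_part hk
  subst hk'
  rcases isEmpty_or_nonempty α with hem | hne
  · exact ⟨SimpleGraph.Coloring.mk (fun _ => 0) (fun {x _} _ => isEmptyElim x)⟩
  obtain ⟨n, hn1, hn⟩ : ∃ n, n ≥ n₀ ∧ Nat.card α ≤ n := ⟨max n₀ (Nat.card α), le_max_left _ _, le_max_right _ _⟩
  obtain ⟨G, ⟨d, -, hd⟩, hG⟩ := hn₀ n hn1
  have := Fintype.ofFinite α
  obtain ⟨e⟩ : Nonempty (α ↪ Fin n) := by
    rw [Function.Embedding.nonempty_iff_card_le, Fintype.card_fin, ← Nat.card_eq_fintype_card]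
    exact hn
  have h1 : (H.map e).CliqueFree (q + 2) := SimpleGraph.cliqueFree_map_iff.mpr hH
  have h2 : (⊤ : SimpleGraph (Fin (q + 2))).Free (H.map e) := by
    rintro ⟨f⟩
    exact (SimpleGraph.cliqueFree_iff.1 h1).elim ⟨f.toHom, SimpleGraph.Hom.injective_of_top_hom _⟩
  have h3 := finK_le_ex H h2
  have h4 : 0 < inj H (H.map e) := by
    unfold inj
    rw [Set.ncard_pos (Set.toFinite _)]
    refine ⟨e, e.injective, ?_⟩
    intro x y hxy
    rw [SimpleGraph.map_adj]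
    exact ⟨x, y, hxy, rfl, rfl⟩
  have h5 : 0 < (H.map e).copyCount H := by
    rw [inj_eq_aut_mul] at h4
    exact Nat.pos_of_mul_pos_left h4
  have h6 : 0 < inj H G := by
    rw [inj_eq_aut_mul, hG]
    exact Nat.mul_pos (aut_pos H) (lt_of_lt_of_le h5 h3)
  unfold inj at h6
  rw [Set.ncard_pos (Set.toFinite _)] at h6
  obtain ⟨f, -, hf⟩ := h6
  exact ⟨SimpleGraph.Coloring.mk (fun x => d (f x)) (fun {x y} hxy => (hd _ _).1 (hf x y hxy))⟩

theorem goodK [Finite α] [Finite β] {q : ℕ} (hq : 1 ≤ q) {H : SimpleGraph α} (hH : H.CliqueFree (q + 2))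
    {F : SimpleGraph β} (hχ : F.chromaticNumber = (q + 2 : ℕ)) (hFM : InM F q)
    (hg : WeaklyTuranGood H (⊤ : SimpleGraph (Fin (q + 2)))) : WeaklyTuranGood H F := by
  have hFe : ∃ a b, F.Adj a b := by
    by_contra hcon
    push Not at hcon
    have h1 : F.Colorable 1 := ⟨SimpleGraph.Coloring.mk (fun _ => 0) (fun {x y} hxy => absurd hxy (hcon x y))⟩
    have h2 := SimpleGraph.chromaticNumber_le_iff_colorable.2 h1
    rw [hχ] at h2
    have h3 : q + 2 ≤ 1 := by exact_mod_cast h2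
    omega
  have hcol := colorable_of_good hH hg
  obtain ⟨n₁, hn₁⟩ := exK hq hcol hFe hFM
  obtain ⟨k', hk, n₀, hn₀⟩ := hg
  have hk' := finK_part hk
  subst hk'
  refine ⟨q + 1, hχ, max n₀ n₁, fun n hn => ?_⟩
  obtain ⟨G, hG, hG'⟩ := hn₀ n (le_trans (le_max_left _ _) hn)
  refine ⟨G, hG, le_antisymm (finK_le_ex H ?_) ?_⟩
  · rintro ⟨f⟩
    obtain ⟨d, -, hd⟩ := hG
    have h2 : F.Colorable (q + 1) :=
      ⟨SimpleGraph.Coloring.mk (fun x => d (f x)) (fun {x y} hxy => (hd _ _).1 (f.toHom.map_adj hxy))⟩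
    have h' := SimpleGraph.chromaticNumber_le_iff_colorable.2 h2
    rw [hχ] at h'
    have h3 : q + 2 ≤ q + 1 := by exact_mod_cast h'
    omega
  · rw [hG']
    exact hn₁ n (le_trans (le_max_right _ _) hn)

end Pool.Agent.WTK
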