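import Pool.Agent.WTK.Defs

/-!
# [WTK-KGain] the gain of a vertex adjacent to all vertices

The set `B` of the pairs `(φ, s)`, `φ` a labelled copy of `H` in `G`, `φ s ∉ S`, has `∑_{w ∉ S} dg w ≥ |Sᶜ| d` elements. Choose for every `s` a neighbour `r(s)` in `H`. `(φ, s) ↦ (f, s, φ (r s))` with `f = some ∘ φ` except `f (r s) = none` is injective; `f` is a labelled copy of `H` in `Ext G univ` through `none`, and
not one in `Ext G S` (because of the edge from `r s` to `s`, `f s = some w`, `w ∉ S`). The labelled copies in `Ext G S` through `none` are ones in `Ext G univ`. So `|B| ≤ (D univ - D S) h n`.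
-/

set_option autoImplicit false

namespace Pool.Agent.WTK

open Pool.Agent.WT7 Filter

variable {α : Type}

private theorem gain_key [Fintype α] [DecidableEq α] {V : Type} [Fintype V] {H : SimpleGraph α}
    {r : α → α} (hr : ∀ x, H.Adj x (r x)) (G : SimpleGraph V) (S : Set V) [DecidablePred (fun w => w ∉ S)]
    (P : V → Finset (α → V)) (hP : ∀ w f, f ∈ P w ↔ IsInj H G f ∧ ∃ x, f x = w)
    (X : Finset (α → Option V))
    (hX : ∀ f, f ∈ X ↔ (IsInj H (Ext G Set.univ) f ∧ ∃ x, f x = none) ∧ ¬ (IsInj H (Ext G S) f ∧ ∃ x, f x = none)) :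
    ∑ w ∈ Finset.univ.filter (fun w => w ∉ S), (P w).card ≤ X.card * (Fintype.card α * Fintype.card V) := by
  rw [← Finset.card_sigma, ← Finset.card_univ (α := α), ← Finset.card_univ (α := V), ← Finset.card_product,
    ← Finset.card_product]
  refine Finset.card_le_card_of_surjOn (fun p : (α → Option V) × (α × V) =>
    (⟨(if p.2.1 = r p.2.1 then p.2.2 else (p.1 p.2.1).getD p.2.2),
      fun x => if x = r p.2.1 then p.2.2 else (p.1 x).getD p.2.2⟩ : Σ _ : V, (α → V))) ?_
  rintro ⟨w, φ⟩ hwφ
  rw [Finset.mem_coe, Finset.mem_sigma, Finset.mem_filter] at hwφ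
  obtain ⟨⟨-, hw⟩, hφ⟩ := hwφ
  obtain ⟨⟨hinj, hhom⟩, s, hs⟩ := (hP _ _).1 hφ
  have hs' : φ s = w := hs
  have hw' : w ∉ S := hw
  have hsr : s ≠ r s := (hr s).ne
  refine ⟨(fun x => if x = r s then none else some (φ x), s, φ (r s)), ?_, ?_⟩
  · rw [Finset.mem_coe, Finset.mem_product]
    refine ⟨?_, Finset.mem_product.2 ⟨Finset.mem_univ _, Finset.mem_univ _⟩⟩
    rw [hX]
    refine ⟨⟨⟨?_, ?_⟩, r s, if_pos rfl⟩, ?_⟩
    · intro x y hxy
      by_cases h1 : x = r s
      · by_cases h2 : y = r s
        · rw [h1, h2]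
        · simp [h1, h2] at hxy
      · by_cases h2 : y = r s
        · simp [h1, h2] at hxy
        · simp only [h1, h2, if_false, Option.some.injEq] at hxy
          exact hinj hxy
    · intro x y hxy
      by_cases h1 : x = r s
      · have h2 : y ≠ r s := fun h2 => hxy.ne (h1.trans h2.symm)
        simp only [h1, h2, if_true, if_false]
        exact Set.mem_univ _
      · by_cases h2 : y = r s
        · simp only [h1, h2, if_true, if_false]
          exact Set.mem_univ _
        · simp only [h1, h2, if_false]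
          exact hhom x y hxy
    · rintro ⟨⟨-, h3⟩, -⟩
      have h4 := h3 s (r s) (hr s)
      simp only [hsr, if_true, if_false] at h4
      have h5 : φ s ∈ S := h4
      rw [hs'] at h5
      exact hw' h5
  · have h6 : (fun x => if x = r s then φ (r s) else
        ((fun x => if x = r s then none else some (φ x) : α → Option V) x).getD (φ (r s))) = φ := by
      funext x
      by_cases h1 : x = r s
      · simp [h1]
      · simp [h1]
    simp only [hsr, if_false, Option.getD_some]
    have h7 : (fun x => if x = r s then φ (r s) else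
        (if x = r s then none else some (φ x) : Option V).getD (φ (r s))) = φ := h6
    rw [h7, hs']

theorem gain [Finite α] {V : Type} [Finite V] {H : SimpleGraph α} (hI : NoIso H) (G : SimpleGraph V) (S : Set V)
    {d : ℝ} (hd : ∀ w, w ∉ S → d ≤ (dg H G w : ℝ)) :
    (Nat.card α * Nat.card V : ℝ) * D H G S + (Sᶜ.ncard : ℝ) * d ≤
      (Nat.card α * Nat.card V : ℝ) * D H G Set.univ := by
  classical
  have := Fintype.ofFinite α
  have := Fintype.ofFinite V
  choose r hr using hI
  set XU : Set (α → Option V) := {f | IsInj H (Ext G Set.univ) f ∧ ∃ x, f x = none} with hXU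
  set XS : Set (α → Option V) := {f | IsInj H (Ext G S) f ∧ ∃ x, f x = none} with hXS
  have hsub : XS ⊆ XU := by
    rintro f ⟨⟨h1, h2⟩, h3⟩
    refine ⟨⟨h1, fun x y hxy => ?_⟩, h3⟩
    have h4 := h2 x y hxy
    cases hx : f x with
    | none =>
      cases hy : f y with
      | none =>
        rw [hx, hy] at h4
        exact h4
      | some b => exact Set.mem_univ _
    | some a =>
      cases hy : f y with
      | none => exact Set.mem_univ _
      | some b =>
        rw [hx, hy] at h4
        exact h4
  have h1 := gain_key hr G S (fun w => ({f : α → V | IsInj H G f ∧ ∃ x, f x = w}).toFinset)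
    (fun w f => by rw [Set.mem_toFinset]; rfl) (XU \ XS).toFinset
    (fun f => by rw [Set.mem_toFinset]; rfl)
  have h2 : (D H G Set.univ : ℝ) = D H G S + ((XU \ XS).toFinset.card : ℝ) := by
    have h3 : (XU \ XS).ncard + XS.ncard = XU.ncard := Set.ncard_sdiff_add_ncard_of_subset hsub
    rw [Set.ncard_eq_toFinset_card' (XU \ XS)] at h3
    have h4 : D H G Set.univ = XU.ncard := rfl
    have h5 : D H G S = XS.ncard := rfl
    rw [h4, h5, ← h3]
    push_cast
    ring
  have h3 : (Sᶜ.ncard : ℝ) * d ≤ ((∑ w ∈ Finset.univ.filter (fun w => w ∉ S),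
      (({f : α → V | IsInj H G f ∧ ∃ x, f x = w}).toFinset).card : ℕ) : ℝ) := by
    have h4 : (Sᶜ.ncard : ℝ) * d = ∑ w ∈ Finset.univ.filter (fun w => w ∉ S), d := by
      rw [Finset.sum_const, nsmul_eq_mul, Set.ncard_eq_toFinset_card']
      congr 2
      refine congrArg _ ?_
      ext w
      simp
    rw [h4]
    push_cast
    refine Finset.sum_le_sum fun w hw => ?_
    rw [Finset.mem_filter] at hw
    refine (hd w hw.2).trans (le_of_eq ?_)
    unfold dg
    rw [Set.ncard_eq_toFinset_card']
  have h4 : ((∑ w ∈ Finset.univ.filter (fun w => w ∉ S),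
      (({f : α → V | IsInj H G f ∧ ∃ x, f x = w}).toFinset).card : ℕ) : ℝ) ≤
      ((XU \ XS).toFinset.card : ℝ) * (Fintype.card α * Fintype.card V : ℝ) := by
    exact_mod_cast h1
  rw [h2, Nat.card_eq_fintype_card, Nat.card_eq_fintype_card]
  nlinarith [h3, h4]

end Pool.Agent.WTK
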