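import Pool.Agent.WTK.StarK
import Pool.Agent.WTK.FM2
import Pool.Agent.WTK.KGain
import Pool.Agent.WT7.ExtM
import Pool.Agent.WT7.Del

/-!
# [WTK-KCount] many `(k-1)`-cliques

`exists_codeg`: if all vertices had `|V \ N(v)| ≤ c n`, `c = 1 / (2 (q+2)²)`, then all but `(q+2)² c n^(q+2)` maps `Fin (q + 2) → V` are cliques, so at least `n^(q+2) / 2` are: not few.
`Sit.manyK`: if not many, then few, and `Sit.star` for `S = univ` gives `D univ ≤ (π h + ε) n^(h-1)`. Take `x` with `|V \ N(x)| ≥ c n`: `D (N(x)) ≥ dg x ≥ (π h - ε) n^(h-1)` (`dg_le_D`) and `∑_{w ∉ N(x)} dg w ≥ c n (π h - ε) n^(h-1)`, so `gain` gives `D univ ≥ (π h - ε) n^(h-1) + (c / h) (π h - ε) n^(h-1)`.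
Contradiction for small `ε` as `π > 0`.
-/

set_option autoImplicit false

namespace Pool.Agent.WTK

open Pool.Agent.WT7 Filter

variable {α : Type}

private theorem kc_ncard_iUnion_le {X J : Type} [Finite X] [Finite J] {T : J → Set X} {c : ℝ}
    (h : ∀ j, ((T j).ncard : ℝ) ≤ c) : ((⋃ j, T j).ncard : ℝ) ≤ Nat.card J * c := by
  classical
  have := Fintype.ofFinite J
  have h1 : ∀ s : Finset J, ((⋃ j ∈ s, T j).ncard : ℝ) ≤ ∑ j ∈ s, ((T j).ncard : ℝ) := by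
    intro s
    induction s using Finset.induction_on with
    | empty => simp
    | insert a s ha ih =>
      rw [Finset.set_biUnion_insert, Finset.sum_insert ha]
      have h2 : ((T a ∪ ⋃ j ∈ s, T j).ncard : ℝ) ≤ (T a).ncard + (⋃ j ∈ s, T j).ncard := by
        exact_mod_cast Set.ncard_union_le _ _
      linarith
  have h2 := h1 Finset.univ
  simp only [Finset.mem_univ, Set.iUnion_true] at h2
  refine h2.trans ?_
  refine (Finset.sum_le_sum fun j _ => h j).trans_eq ?_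
  rw [Finset.sum_const, nsmul_eq_mul, Finset.card_univ, Nat.card_eq_fintype_card]

/-- the maps with `f i`, `f j` not adjacent -/
private theorem kc_pair {n r : ℕ} (G : SimpleGraph (Fin n)) {d : ℝ}
    (hd : ∀ x, (((G.neighborSet x)ᶜ).ncard : ℝ) ≤ d) (i j : Fin (r + 1)) (hij : i ≠ j) :
    (({f : Fin (r + 1) → Fin n | ¬ G.Adj (f i) (f j)}).ncard : ℝ) ≤ (n : ℝ) ^ r * d := by
  classical
  obtain ⟨A, hA⟩ : ∃ A : Set (Fin (r + 1) → Fin n), A = {f | ¬ G.Adj (f i) (f j)} := ⟨_, rfl⟩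
  rw [← hA]
  have h3 : A.toFinset.card ≤ ((Finset.univ : Finset ({k : Fin (r + 1) // k ≠ j} → Fin n)).sigma
      (fun f => ((G.neighborSet (f ⟨i, hij⟩))ᶜ).toFinset)).card := by
    refine Finset.card_le_card_of_injOn (fun f => ⟨fun k => f k.1, f j⟩) ?_ ?_
    · intro f hf
      simp only [Finset.mem_coe, Set.mem_toFinset, hA, Set.mem_ofPred_eq] at hf
      simp only [Finset.mem_coe, Finset.mem_sigma, Finset.mem_univ, true_and, Set.mem_toFinset,
        Set.mem_compl_iff, SimpleGraph.mem_neighborSet]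
      exact hf
    · intro f _ g _ hfg
      simp only [Sigma.mk.injEq] at hfg
      obtain ⟨h1, h2⟩ := hfg
      have h2' : f j = g j := eq_of_heq h2
      funext k
      by_cases hk : k = j
      · rw [hk]; exact h2'
      · exact congrFun h1 ⟨k, hk⟩
  rw [Finset.card_sigma, ← Set.ncard_eq_toFinset_card'] at h3
  have h4 : (A.ncard : ℝ) ≤ ((∑ f : {k : Fin (r + 1) // k ≠ j} → Fin n,
      (((G.neighborSet (f ⟨i, hij⟩))ᶜ).toFinset).card : ℕ) : ℝ) := by
    exact_mod_cast h3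
  refine h4.trans ?_
  push_cast
  have h5 : ∀ f : {k : Fin (r + 1) // k ≠ j} → Fin n,
      (((((G.neighborSet (f ⟨i, hij⟩))ᶜ).toFinset).card : ℕ) : ℝ) ≤ d := by
    intro f
    rw [← Set.ncard_eq_toFinset_card']
    exact hd _
  refine (Finset.sum_le_sum fun f _ => h5 f).trans_eq ?_
  rw [Finset.sum_const, nsmul_eq_mul, Finset.card_univ, Fintype.card_fun, Fintype.card_fin,
    Fintype.card_subtype_compl, Fintype.card_subtype_eq, Fintype.card_fin]
  simp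

theorem exists_codeg {q : ℕ} {U : Ultrafilter ℕ} {n : ℕ → ℕ} {G : ∀ m, SimpleGraph (Fin (n m))}
    (hpos : ∀ m, 0 < n m) (hfew : Few U n (fun m => cq (G m) Set.univ (Fin (q + 2)))) :
    ∀ᶠ m in (U : Filter ℕ), ∃ x, 1 / (2 * ((q : ℝ) + 2) ^ 2) * (n m : ℝ) ≤
      ((((G m).neighborSet x)ᶜ).ncard : ℝ) := by
  filter_upwards [hfew (1 / 4) (by norm_num)] with m hm
  by_contra hcon
  push Not at hcon
  have hn : (0 : ℝ) < n m := by exact_mod_cast hpos m
  rw [Nat.card_fin] at hm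
  -- the bad maps
  let J := {p : Fin (q + 2) × Fin (q + 2) // p.1 ≠ p.2}
  have h1 : ∀ p : J, (({f : Fin (q + 2) → Fin (n m) | ¬ (G m).Adj (f p.1.1) (f p.1.2)}).ncard : ℝ) ≤
      (n m : ℝ) ^ (q + 1) * (1 / (2 * ((q : ℝ) + 2) ^ 2) * (n m : ℝ)) := by
    intro p
    exact kc_pair (G m) (fun x => (hcon x).le) p.1.1 p.1.2 p.2
  have h2 := kc_ncard_iUnion_le h1
  have h3 : (Nat.card J : ℝ) ≤ ((q : ℝ) + 2) ^ 2 := by
    have h4 : Nat.card J ≤ Nat.card (Fin (q + 2) × Fin (q + 2)) :=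
      Nat.card_le_card_of_injective (fun p : J => p.1) Subtype.val_injective
    rw [Nat.card_prod, Nat.card_fin] at h4
    have h5 : (Nat.card J : ℝ) ≤ (((q + 2) * (q + 2) : ℕ) : ℝ) := by exact_mod_cast h4
    push_cast at h5
    nlinarith
  have h6 : (Set.univ : Set (Fin (q + 2) → Fin (n m))) ⊆ cq (G m) Set.univ (Fin (q + 2)) ∪
      ⋃ p : J, {f : Fin (q + 2) → Fin (n m) | ¬ (G m).Adj (f p.1.1) (f p.1.2)} := by
    intro f _
    by_cases hf : ∀ i j, i ≠ j → (G m).Adj (f i) (f j)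
    · exact Or.inl ⟨fun i => Set.mem_univ _, hf⟩
    · push Not at hf
      obtain ⟨i, j, hij, hf⟩ := hf
      exact Or.inr (Set.mem_iUnion.2 ⟨⟨(i, j), hij⟩, hf⟩)
  have h7 := (Set.ncard_le_ncard h6 (Set.toFinite _)).trans (Set.ncard_union_le _ _)
  rw [Set.ncard_univ, Nat.card_fun, Nat.card_fin, Nat.card_fin] at h7
  have h8 : (n m : ℝ) ^ (q + 2) ≤ ((cq (G m) Set.univ (Fin (q + 2))).ncard : ℝ) +
      ((⋃ p : J, {f : Fin (q + 2) → Fin (n m) | ¬ (G m).Adj (f p.1.1) (f p.1.2)}).ncard : ℝ) := by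
    exact_mod_cast h7
  have h9 : (0 : ℝ) < (n m : ℝ) ^ (q + 2) := pow_pos hn _
  have h10 : (Nat.card J : ℝ) * ((n m : ℝ) ^ (q + 1) * (1 / (2 * ((q : ℝ) + 2) ^ 2) * (n m : ℝ))) ≤
      1 / 2 * (n m : ℝ) ^ (q + 2) := by
    have h11 : (0 : ℝ) < (q : ℝ) + 2 := by positivity
    calc (Nat.card J : ℝ) * ((n m : ℝ) ^ (q + 1) * (1 / (2 * ((q : ℝ) + 2) ^ 2) * (n m : ℝ)))
        ≤ ((q : ℝ) + 2) ^ 2 * ((n m : ℝ) ^ (q + 1) * (1 / (2 * ((q : ℝ) + 2) ^ 2) * (n m : ℝ))) :=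
          mul_le_mul_of_nonneg_right h3 (by positivity)
      _ = 1 / 2 * (n m : ℝ) ^ (q + 2) := by
          field_simp
          ring
  linarith

theorem Sit.manyK [Finite α] [Nonempty α] {q : ℕ} {H : SimpleGraph α} (hI : NoIso H) (hπ : 0 < piK q H)
    {U : Ultrafilter ℕ} {n : ℕ → ℕ} {G : ∀ m, SimpleGraph (Fin (n m))} (h : Sit q H U n G) :
    Many U n (fun m => cq (G m) Set.univ (Fin (q + 1))) := by
  refine (few_or_many _).resolve_left fun hfew => ?_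
  have hh : (0 : ℝ) < Nat.card α := by exact_mod_cast Nat.card_pos
  obtain ⟨a, ha⟩ : ∃ a : ℝ, a = Nat.card α := ⟨_, rfl⟩
  obtain ⟨p, hp⟩ : ∃ p : ℝ, p = piK q H := ⟨_, rfl⟩
  obtain ⟨c, hc⟩ : ∃ c : ℝ, c = 1 / (2 * ((q : ℝ) + 2) ^ 2) := ⟨_, rfl⟩
  rw [← ha] at hh
  have hp0 : 0 < p := by rw [hp]; exact hπ
  have hc0 : 0 < c := by rw [hc]; positivity
  obtain ⟨ε, hε⟩ : ∃ ε : ℝ, ε = c * p * a / (2 * (2 * a + c)) := ⟨_, rfl⟩
  have hε0 : 0 < ε := by rw [hε]; positivity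
  have hε1 : ε * (2 * (2 * a + c)) = c * p * a := by
    rw [hε]; field_simp
  have hε2 : ε ≤ p * a := by
    have : c * p * a ≤ p * a * (2 * (2 * a + c)) := by nlinarith [mul_pos hp0 hh, mul_pos (mul_pos hp0 hh) hh, mul_pos (mul_pos hp0 hh) hc0]
    rw [← hε1] at this
    exact le_of_mul_le_mul_right this (by positivity)
  have hstar := h.star hfew hε0
  have hdeg := h.deg ε hε0
  have hcod := exists_codeg h.pos h.few
  obtain ⟨m, h1, h2, x, h3⟩ := (hstar.and (hdeg.and hcod)).exists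
  have hn : (0 : ℝ) < n m := by exact_mod_cast h.pos m
  rw [← hp, ← ha] at h1 h2
  rw [← hc] at h3
  have h4 := gain hI (G m) ((G m).neighborSet x) (d := (p * a - ε) * (n m : ℝ) ^ (Nat.card α - 1))
    (fun w _ => h2 w)
  have h5 : (dg H (G m) x : ℝ) ≤ (D H (G m) ((G m).neighborSet x) : ℝ) := by
    exact_mod_cast dg_le_D H (G m) x
  have h6 := (h2 x).trans h5
  rw [Nat.card_fin, ← ha] at h4
  obtain ⟨t, ht⟩ : ∃ t : ℝ, t = (n m : ℝ) ^ (Nat.card α - 1) := ⟨_, rfl⟩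
  have ht0 : 0 < t := by rw [ht]; exact pow_pos hn _
  rw [← ht] at h1 h4 h6
  have h7 : c * (n m : ℝ) * ((p * a - ε) * t) ≤
      ((((G m).neighborSet x)ᶜ).ncard : ℝ) * ((p * a - ε) * t) :=
    mul_le_mul_of_nonneg_right h3 (mul_nonneg (by linarith) ht0.le)
  have h8 : a * (n m : ℝ) * ((p * a - ε) * t) ≤ a * (n m : ℝ) * (D H (G m) ((G m).neighborSet x) : ℝ) :=
    mul_le_mul_of_nonneg_left h6 (by positivity)
  have h9 : a * (n m : ℝ) * (D H (G m) Set.univ : ℝ) ≤ a * (n m : ℝ) * ((p * a + ε) * t) :=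
    mul_le_mul_of_nonneg_left h1 (by positivity)
  have h10 : (n m : ℝ) * t * (a * (p * a - ε) + c * (p * a - ε)) ≤ (n m : ℝ) * t * (a * (p * a + ε)) := by
    nlinarith
  have h11 := le_of_mul_le_mul_left h10 (mul_pos hn ht0)
  have h12 : c * p * a ≤ ε * (2 * a + c) := by nlinarith
  have h13 : 0 < c * p * a := by positivity
  nlinarith

end Pool.Agent.WTK
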