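import Pool.Agent.WTK.FM2

/-!
# [WTK-LemR0] two simple families of few tuples

`few_E1`: for `v ∉ R` there are less than `δ n^q` cliques `g : Fin q → V` in `N(v) ∩ S`; `f ↦ (f i₀, f ∘ i₀.succAbove)` is injective, and `f ∘ i₀.succAbove` is a clique in `N(f i₀) ∩ S`: so the number is `≤ n δ n^q` (if `δ m < 0` then `R` is everything and the set is empty).
`few_pair`: the set has `|E m| n^(q-1)` elements (`q ≥ 1` because of `i ≠ i'`): the map `f ↦ ((f i, f i'), f` on the other `q - 1` indices`)` is injective.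
-/

set_option autoImplicit false

namespace Pool.Agent.WTK

open Pool.Agent.WT7 Filter

theorem few_E1 {q : ℕ} {U : Ultrafilter ℕ} {n : ℕ → ℕ} {G : ∀ m, SimpleGraph (Fin (n m))}
    (S : ∀ m, Set (Fin (n m))) {δ : ℕ → ℝ} (hδ : Tendsto δ (U : Filter ℕ) (nhds 0)) (i₀ : Fin (q + 1)) :
    Few U n (fun m => {f | f ∈ cq (G m) Set.univ (Fin (q + 1)) ∧ f i₀ ∉ R (G m) q (S m) (δ m) ∧
      ∀ i, i ≠ i₀ → f i ∈ S m}) := by
  classical
  intro ε hε
  filter_upwards [hδ.eventually (gt_mem_nhds hε)] with m hm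
  obtain ⟨A, hA⟩ : ∃ A : Set (Fin (q + 1) → Fin (n m)), A = {f | f ∈ cq (G m) Set.univ (Fin (q + 1)) ∧
      f i₀ ∉ R (G m) q (S m) (δ m) ∧ ∀ i, i ≠ i₀ → f i ∈ S m} := ⟨_, rfl⟩
  rw [← hA]
  obtain ⟨B, hB⟩ : ∃ B : Fin (n m) → Set (Fin q → Fin (n m)), ∀ v, B v =
      {g | v ∉ R (G m) q (S m) (δ m) ∧ g ∈ cq (G m) ((G m).neighborSet v ∩ S m) (Fin q)} := ⟨_, fun _ => rfl⟩
  have h3 : A.toFinset.card ≤ (Finset.univ.sigma (fun v => (B v).toFinset)).card := by
    refine Finset.card_le_card_of_injOn (fun f => ⟨f i₀, fun j => f (i₀.succAbove j)⟩) ?_ ?_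
    · intro f hf
      simp only [Finset.mem_coe, Set.mem_toFinset, hA, Set.mem_ofPred_eq] at hf
      simp only [Finset.mem_coe, Finset.mem_sigma, Finset.mem_univ, true_and, Set.mem_toFinset, hB,
        Set.mem_ofPred_eq]
      refine ⟨hf.2.1, fun j => ⟨?_, hf.2.2 _ (Fin.succAbove_ne i₀ j)⟩, fun j j' hj => ?_⟩
      · exact hf.1.2 _ _ (Fin.succAbove_ne i₀ j).symm
      · exact hf.1.2 _ _ (fun h => hj (Fin.succAbove_right_injective h))
    · intro f _ f' _ hx
      simp only [Sigma.mk.injEq, heq_eq_eq] at hx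
      funext i
      rcases eq_or_ne i i₀ with rfl | hi
      · exact hx.1
      · obtain ⟨j, rfl⟩ := Fin.exists_succAbove_eq hi
        exact congrFun hx.2 j
  rw [Finset.card_sigma, ← Set.ncard_eq_toFinset_card'] at h3
  have h4 : (A.ncard : ℝ) ≤ ∑ v : Fin (n m), ((B v).toFinset.card : ℝ) := by
    exact_mod_cast h3
  have h5 : ∀ v : Fin (n m), ((B v).toFinset.card : ℝ) ≤ ε * (n m : ℝ) ^ q := by
    intro v
    rw [← Set.ncard_eq_toFinset_card']
    by_cases hv : v ∈ R (G m) q (S m) (δ m)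
    · have : B v = ∅ := by
        rw [hB, Set.eq_empty_iff_forall_notMem]
        intro g hg
        exact hg.1 hv
      rw [this, Set.ncard_empty, Nat.cast_zero]
      positivity
    · have e : B v = cq (G m) ((G m).neighborSet v ∩ S m) (Fin q) := by
        rw [hB]
        ext g
        simp [hv]
      rw [e]
      simp only [R, Set.mem_ofPred_eq, not_le, Nat.card_fin] at hv
      refine hv.le.trans ?_
      exact mul_le_mul_of_nonneg_right hm.le (by positivity)
  refine h4.trans ((Finset.sum_le_sum fun v _ => h5 v).trans (le_of_eq ?_))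
  rw [Finset.sum_const, Finset.card_univ, Fintype.card_fin, nsmul_eq_mul, Nat.card_fin, pow_succ]
  ring

theorem few_pair {q : ℕ} {U : Ultrafilter ℕ} {n : ℕ → ℕ} {E : ∀ m, Set (Fin 2 → Fin (n m))} (hE : Few U n E)
    {i i' : Fin (q + 1)} (hi : i ≠ i') :
    Few U n (fun m => {f : Fin (q + 1) → Fin (n m) | (fun t : Fin 2 => if t = 0 then f i else f i') ∈ E m}) := by
  classical
  intro ε hε
  filter_upwards [hE ε hε] with m hm
  obtain ⟨A, hA⟩ : ∃ A : Set (Fin (q + 1) → Fin (n m)),
      A = {f | (fun t : Fin 2 => if t = 0 then f i else f i') ∈ E m} := ⟨_, rfl⟩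
  rw [← hA]
  have hq : 1 ≤ q := by
    by_contra h
    apply hi
    have h1 := i.isLt
    have h2 := i'.isLt
    ext
    omega
  have h3 : A.toFinset.card ≤ ((E m).toFinset ×ˢ
      (Finset.univ : Finset ({j : Fin (q + 1) // ¬ (j = i ∨ j = i')} → Fin (n m)))).card := by
    refine Finset.card_le_card_of_injOn
      (fun f => (fun t : Fin 2 => if t = 0 then f i else f i', fun j => f j.1)) ?_ ?_
    · intro f hf
      simp only [Finset.mem_coe, Set.mem_toFinset, hA, Set.mem_ofPred_eq] at hf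
      simp only [Finset.mem_coe, Finset.mem_product, Finset.mem_univ, and_true, Set.mem_toFinset]
      exact hf
    · intro f _ f' _ hx
      simp only [Prod.mk.injEq] at hx
      have e0 := congrFun hx.1 0
      have e1 := congrFun hx.1 1
      simp only [if_true, one_ne_zero, if_false] at e0 e1
      funext j
      by_cases hj : j = i ∨ j = i'
      · rcases hj with rfl | rfl
        · exact e0
        · exact e1
      · exact congrFun hx.2 ⟨j, hj⟩
  rw [Finset.card_product, ← Set.ncard_eq_toFinset_card', ← Set.ncard_eq_toFinset_card', Finset.card_univ,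
    Fintype.card_fun, Fintype.card_fin] at h3
  have h6 : Fintype.card {j : Fin (q + 1) // ¬ (j = i ∨ j = i')} = q - 1 := by
    rw [Fintype.card_subtype_compl, Fintype.card_fin]
    have : Fintype.card {j : Fin (q + 1) // j = i ∨ j = i'} = 2 := by
      rw [Fintype.card_subtype]
      have e : (Finset.univ.filter (fun j : Fin (q + 1) => j = i ∨ j = i')) = {i, i'} := by
        ext j
        simp
      rw [e, Finset.card_pair hi]
    rw [this]
    omega
  rw [h6] at h3
  have h4 : (A.ncard : ℝ) ≤ (E m).ncard * (n m : ℝ) ^ (q - 1) := by exact_mod_cast h3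
  have h5 : ((E m).ncard : ℝ) * (n m : ℝ) ^ (q - 1) ≤ ε * (n m : ℝ) ^ Nat.card (Fin 2) * (n m : ℝ) ^ (q - 1) :=
    mul_le_mul_of_nonneg_right hm (by positivity)
  refine (h4.trans h5).trans (le_of_eq ?_)
  rw [Nat.card_fin, Nat.card_fin, mul_assoc, ← pow_add]
  congr 2
  omega

end Pool.Agent.WTK
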