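import Pool.Agent.WTK.Box
import Pool.Agent.WT7.DegL

/-!
# [WTK-Use] useful vertices

Let `C : H → Fin (q + 1)` be a proper colouring, `r s` an edge of `H` (`NoIso`), `σ` a permutation of `Fin (q + 1)` with `σ (C r) = b`, `σ (C s) = i₀`; `κ = {v // v ≠ r}`, `c v = σ (C v)`, `T₀` = the set of the hypothesis. `box`: at least `γ n^(h-1)` maps `f : κ → V` are blow-ups in `T₀`
(`Blow c T₀ f`), at most `h² n^(h-2)` of them are not injective (`ncard_noninj_le`). For an injective blow-up `f` the map `F : α → Option V`, `F r = none`, `F v = some (f v)` is a labelled copy of `H` in `Ext G T` with `none` in the range: for an edge `v w` not at `r` take `Q` = `g` changed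
at `c v ≠ c w`; for an edge `v r`: `c v ≠ b`, so `f v ∈ T`. It is not a labelled copy in `Ext G S` as `f s ∉ S`. The labelled copies in `Ext G S` through `none` are labelled copies in `Ext G T` (`S ⊆ T`). So `D T ≥ D S + (γ n^(h-1) - h² n^(h-2))`.
-/

set_option autoImplicit false

namespace Pool.Agent.WTK

open Pool.Agent.WT7 Filter

variable {α : Type}

theorem useful [Finite α] [Nonempty α] {H : SimpleGraph α} {q : ℕ} (hH : H.Colorable (q + 1)) (hI : NoIso H)
    {ρ : ℝ} (hρ : 0 < ρ) :
    ∃ c : ℝ, 0 < c ∧ ∃ n₀ : ℕ, ∀ (V : Type) [Finite V], n₀ ≤ Nat.card V → ∀ (G : SimpleGraph V) (S T : Set V),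
      S ⊆ T → ∀ i₀ b : Fin (q + 1), i₀ ≠ b →
      ρ * (Nat.card V : ℝ) ^ (q + 1) ≤
        (({f | f ∈ cq G Set.univ (Fin (q + 1)) ∧ (∀ i, i ≠ b → f i ∈ T) ∧ f i₀ ∉ S}).ncard : ℝ) →
      (D H G S : ℝ) + c * (Nat.card V : ℝ) ^ (Nat.card α - 1) ≤ D H G T := by
  classical
  obtain ⟨C⟩ := hH
  obtain ⟨r⟩ := (inferInstance : Nonempty α)
  obtain ⟨s, hrs⟩ := hI r
  have hCrs : C r ≠ C s := C.valid hrs
  have h2 : 2 ≤ Nat.card α := two_le_card hI
  have hκ : Nat.card {v : α // v ≠ r} = Nat.card α - 1 := by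
    have := Fintype.ofFinite α
    rw [Nat.card_eq_fintype_card, Nat.card_eq_fintype_card, Fintype.card_subtype_compl,
      Fintype.card_subtype_eq]
  obtain ⟨γ, hγ, hbox⟩ := box (κ := {v : α // v ≠ r}) (fun v => C v.1) hρ
  obtain ⟨n₀, hn₀⟩ := exists_nat_ge (2 * (Nat.card α : ℝ) ^ 2 / γ)
  refine ⟨γ / 2, by linarith, n₀ + 1, ?_⟩
  intro V _ hn G S T hST i₀ b hib hT₀
  have hnpos : 0 < Nat.card V := by omega
  have : Nonempty V := (Nat.card_pos_iff.mp hnpos).1
  have hnR : 2 * (Nat.card α : ℝ) ^ 2 / γ ≤ (Nat.card V : ℝ) := by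
    refine hn₀.trans ?_
    exact_mod_cast (by omega : n₀ ≤ Nat.card V)
  -- the permutation
  obtain ⟨σ, hσ1, hσ2⟩ : ∃ σ : Equiv.Perm (Fin (q + 1)), σ (C r) = b ∧ σ (C s) = i₀ := by
    refine ⟨(Equiv.swap (C r) b).trans (Equiv.swap (Equiv.swap (C r) b (C s)) i₀), ?_, ?_⟩
    · rw [Equiv.trans_apply, Equiv.swap_apply_left]
      refine Equiv.swap_apply_of_ne_of_ne ?_ hib.symm
      intro h
      have h1 : Equiv.swap (C r) b (C r) = Equiv.swap (C r) b (C s) := by
        rw [Equiv.swap_apply_left]; exact h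
      exact hCrs ((Equiv.injective _) h1)
    · rw [Equiv.trans_apply, Equiv.swap_apply_left]
  obtain ⟨T₁, hT₁⟩ : ∃ T₁ : Set (Fin (q + 1) → V), T₁ = {f | f ∈ cq G Set.univ (Fin (q + 1)) ∧
      (∀ i, i ≠ C r → f i ∈ T) ∧ f (C s) ∉ S} := ⟨_, rfl⟩
  have hle : ({f | f ∈ cq G Set.univ (Fin (q + 1)) ∧ (∀ i, i ≠ b → f i ∈ T) ∧ f i₀ ∉ S}).ncard ≤
      T₁.ncard := by
    refine Set.ncard_le_ncard_of_injOn (fun f => f ∘ σ) ?_ ?_ (Set.toFinite _)
    · rintro f ⟨⟨-, h2⟩, h3, h4⟩
      rw [hT₁]
      refine ⟨⟨fun i => Set.mem_univ _, fun i j hij => h2 _ _ (fun h => hij (σ.injective h))⟩,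
        fun i hi => h3 _ (fun h => hi (σ.injective (h.trans hσ1.symm))), ?_⟩
      simp only [Function.comp_apply, hσ2]
      exact h4
    · intro f _ g _ hfg
      funext i
      have := congrFun hfg (σ.symm i)
      simpa using this
  have hT₁' : ρ * (Nat.card V : ℝ) ^ Nat.card (Fin (q + 1)) ≤ (T₁.ncard : ℝ) := by
    rw [Nat.card_fin]
    refine hT₀.trans ?_
    exact_mod_cast hle
  have hb := hbox V T₁ hT₁'
  rw [hκ] at hb
  have hni : (({f : {v : α // v ≠ r} → V | ¬ Function.Injective f}).ncard : ℝ) ≤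
      γ / 2 * (Nat.card V : ℝ) ^ (Nat.card α - 1) := by
    have h3 := ncard_noninj_le (κ := {v : α // v ≠ r}) (V := V)
    rw [hκ] at h3
    have h4 : (({f : {v : α // v ≠ r} → V | ¬ Function.Injective f}).ncard : ℝ) ≤
        ((Nat.card α - 1 : ℕ) : ℝ) ^ 2 * (Nat.card V : ℝ) ^ (Nat.card α - 1 - 1) := by
      exact_mod_cast h3
    refine h4.trans ?_
    have h5 : (Nat.card V : ℝ) ^ (Nat.card α - 1) =
        Nat.card V * (Nat.card V : ℝ) ^ (Nat.card α - 1 - 1) := by
      rw [← pow_succ']
      congr 1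
      omega
    have h6 : ((Nat.card α - 1 : ℕ) : ℝ) ^ 2 ≤ (Nat.card α : ℝ) ^ 2 := by
      refine pow_le_pow_left₀ (Nat.cast_nonneg _) ?_ 2
      exact_mod_cast Nat.sub_le _ _
    have h7 : (Nat.card α : ℝ) ^ 2 ≤ γ / 2 * Nat.card V := by
      rw [div_le_iff₀ hγ] at hnR
      linarith
    rw [h5, ← mul_assoc]
    exact mul_le_mul_of_nonneg_right (h6.trans h7) (by positivity)
  obtain ⟨Bs, hBs⟩ : ∃ Bs : Set ({v : α // v ≠ r} → V), Bs =
      {f | Blow (fun v : {v : α // v ≠ r} => C v.1) T₁ f ∧ Function.Injective f} := ⟨_, rfl⟩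
  have hBcard : γ / 2 * (Nat.card V : ℝ) ^ (Nat.card α - 1) ≤ (Bs.ncard : ℝ) := by
    have h3 : {f : {v : α // v ≠ r} → V | Blow (fun v : {v : α // v ≠ r} => C v.1) T₁ f} ⊆
        Bs ∪ {f | ¬ Function.Injective f} := by
      intro f hf
      by_cases hi : Function.Injective f
      · left
        rw [hBs]
        exact ⟨hf, hi⟩
      · right
        exact hi
    have h4 : (({f : {v : α // v ≠ r} → V |
        Blow (fun v : {v : α // v ≠ r} => C v.1) T₁ f}).ncard : ℝ) ≤ (Bs.ncard : ℝ) +
        (({f : {v : α // v ≠ r} → V | ¬ Function.Injective f}).ncard : ℝ) := by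
      exact_mod_cast (Set.ncard_le_ncard h3 (Set.toFinite _)).trans (Set.ncard_union_le _ _)
    linarith
  -- the map
  obtain ⟨Φ, hΦ⟩ : ∃ Φ : ({v : α // v ≠ r} → V) → α → Option V,
      Φ = fun f v => if h : v = r then none else some (f ⟨v, h⟩) := ⟨_, rfl⟩
  have hΦr : ∀ f, Φ f r = none := fun f => by rw [hΦ]; simp
  have hΦn : ∀ f v (h : v ≠ r), Φ f v = some (f ⟨v, h⟩) := fun f v h => by
    rw [hΦ]; simp [h]
  have hΦinj : Function.Injective Φ := by
    intro f g hfg
    funext v
    have h3 := congrFun hfg v.1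
    rw [hΦn _ _ v.2, hΦn _ _ v.2] at h3
    exact Option.some_injective _ h3
  have hsr : s ≠ r := hrs.ne.symm
  have hsub : {f : α → Option V | IsInj H (Ext G S) f ∧ ∃ x, f x = none} ∪ Φ '' Bs ⊆
      {f : α → Option V | IsInj H (Ext G T) f ∧ ∃ x, f x = none} := by
    rintro f (⟨⟨h3, h4⟩, h5⟩ | ⟨f, hf, rfl⟩)
    · refine ⟨⟨h3, fun x y hxy => ?_⟩, h5⟩
      have h6 := h4 x y hxy
      revert h6
      generalize f x = a
      generalize f y = a'
      intro h6
      cases a with
      | none =>
        cases a' with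
        | none => exact h6
        | some w => exact hST h6
      | some v =>
        cases a' with
        | none => exact hST h6
        | some w => exact h6
    · rw [hBs] at hf
      obtain ⟨⟨g, hg⟩, hinj⟩ := hf
      rw [hT₁] at hg
      have hone : ∀ v : {v : α // v ≠ r}, C v.1 ≠ C r → f v ∈ T := by
        intro v hv
        have h3 := (hg (Function.update g (C v.1) (f v)) (fun i => by
          by_cases hi : i = C v.1
          · right
            exact ⟨v, hi.symm, by rw [hi, Function.update_self]⟩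
          · left
            rw [Function.update_of_ne hi])).2.1 (C v.1) hv
        rwa [Function.update_self] at h3
      refine ⟨⟨?_, ?_⟩, r, hΦr f⟩
      · intro x y hxy
        by_cases hx : x = r
        · by_cases hy : y = r
          · rw [hx, hy]
          · rw [hx, hΦr, hΦn _ _ hy] at hxy
            simp at hxy
        · by_cases hy : y = r
          · rw [hy, hΦr, hΦn _ _ hx] at hxy
            simp at hxy
          · rw [hΦn _ _ hx, hΦn _ _ hy] at hxy
            have h3 := hinj (Option.some_injective _ hxy)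
            exact congrArg Subtype.val h3
      · intro x y hxy
        by_cases hx : x = r
        · have hy : y ≠ r := fun h => hxy.ne (hx.trans h.symm)
          rw [hx, hΦr, hΦn _ _ hy]
          refine hone ⟨y, hy⟩ ?_
          have h3 := (C.valid hxy).symm
          rw [hx] at h3
          exact h3
        · by_cases hy : y = r
          · rw [hy, hΦr, hΦn _ _ hx]
            refine hone ⟨x, hx⟩ ?_
            have h3 := C.valid hxy
            rw [hy] at h3
            exact h3
          · rw [hΦn _ _ hx, hΦn _ _ hy]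
            have hC : C x ≠ C y := C.valid hxy
            have h3 := (hg (Function.update (Function.update g (C x) (f ⟨x, hx⟩)) (C y)
              (f ⟨y, hy⟩)) (fun i => by
              by_cases hi : i = C y
              · right
                exact ⟨⟨y, hy⟩, hi.symm, by rw [hi, Function.update_self]⟩
              · by_cases hi' : i = C x
                · right
                  exact ⟨⟨x, hx⟩, hi'.symm, by
                    rw [Function.update_of_ne hi, hi', Function.update_self]⟩
                · left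
                  rw [Function.update_of_ne hi, Function.update_of_ne hi'])).1.2 (C x) (C y) hC
            rw [Function.update_self, Function.update_of_ne hC, Function.update_self] at h3
            exact h3
  have hdisj : Disjoint {f : α → Option V | IsInj H (Ext G S) f ∧ ∃ x, f x = none}
      (Φ '' Bs) := by
    rw [Set.disjoint_left]
    rintro _ ⟨⟨-, h4⟩, -⟩ ⟨f, hf, rfl⟩
    rw [hBs] at hf
    obtain ⟨⟨g, hg⟩, -⟩ := hf
    rw [hT₁] at hg
    have h3 := (hg (Function.update g (C s) (f ⟨s, hsr⟩)) (fun i => by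
      by_cases hi : i = C s
      · right
        exact ⟨⟨s, hsr⟩, hi.symm, by rw [hi, Function.update_self]⟩
      · left
        rw [Function.update_of_ne hi])).2.2
    rw [Function.update_self] at h3
    have h5 := h4 r s hrs
    rw [hΦr, hΦn _ _ hsr] at h5
    exact h3 h5
  have hfin : (D H G S + Bs.ncard : ℕ) ≤ D H G T := by
    unfold D
    rw [← Set.ncard_image_of_injective Bs hΦinj, ← Set.ncard_union_eq hdisj (Set.toFinite _)
      (Set.toFinite _)]
    exact Set.ncard_le_ncard hsub (Set.toFinite _)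
  have hfin' : (D H G S : ℝ) + (Bs.ncard : ℝ) ≤ D H G T := by exact_mod_cast hfin
  linarith

end Pool.Agent.WTK
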