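import Pool.Agent.WTK.StarK
import Pool.Agent.WTK.Use
import Pool.Agent.WTK.FM2
import Pool.Agent.WT7.ExtM

/-!
# [WTK-Tight] neighbourhoods are tight

If not few, then many (`few_or_many`), density `≥ ρ`; `useful` with `S = N(x)` gives `D T ≥ D (N(x)) + c n^(h-1) ≥ dg x + c n^(h-1) ≥ (π h - c/3 + c) n^(h-1)` (`dg_le_D`, `Sit.deg`), and `D T ≤ (π h + c/3) n^(h-1)` by `Sit.star`. Contradiction for `n m > 0`.
-/

set_option autoImplicit false

namespace Pool.Agent.WTK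

open Pool.Agent.WT7 Filter

variable {α : Type}

theorem Sit.tight [Finite α] [Nonempty α] {q : ℕ} {H : SimpleGraph α} (hH : H.Colorable (q + 1)) (hI : NoIso H)
    {U : Ultrafilter ℕ} {n : ℕ → ℕ} {G : ∀ m, SimpleGraph (Fin (n m))} (h : Sit q H U n G) (x : ∀ m, Fin (n m))
    {T : ∀ m, Set (Fin (n m))} (hxT : ∀ m, (G m).neighborSet (x m) ⊆ T m)
    (hT : Few U n (fun m => cq (G m) (T m) (Fin (q + 1)))) {i₀ b : Fin (q + 1)} (hb : i₀ ≠ b) :
    Few U n (fun m => {f | f ∈ cq (G m) Set.univ (Fin (q + 1)) ∧ (∀ i, i ≠ b → f i ∈ T m) ∧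
      f i₀ ∉ (G m).neighborSet (x m)}) := by
  rcases few_or_many (U := U) (n := n) (fun m => {f : Fin (q + 1) → Fin (n m) |
      f ∈ cq (G m) Set.univ (Fin (q + 1)) ∧ (∀ i, i ≠ b → f i ∈ T m) ∧
      f i₀ ∉ (G m).neighborSet (x m)}) with hfew | hmany
  · exact hfew
  · exfalso
    obtain ⟨ρ, hρ, hev⟩ := hmany
    obtain ⟨c, hc, n₀, huse⟩ := useful hH hI hρ
    have hstar := h.star hT (ε := c / 3) (by linarith)
    have hdeg := h.deg (c / 3) (by linarith)
    have hn0 : ∀ᶠ m in (U : Filter ℕ), n₀ ≤ n m := h.ntop.eventually_ge_atTop n₀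
    obtain ⟨m, h1, h2, h3, h4⟩ := (hev.and (hstar.and (hdeg.and hn0))).exists
    have h5 := huse (Fin (n m)) (by rw [Nat.card_fin]; exact h4) (G m) ((G m).neighborSet (x m)) (T m)
      (hxT m) i₀ b hb (by rw [Nat.card_fin]; rw [Nat.card_fin] at h1; exact h1)
    rw [Nat.card_fin] at h5
    have h6 := h3 (x m)
    have h7 : (dg H (G m) (x m) : ℝ) ≤ D H (G m) ((G m).neighborSet (x m)) := by
      exact_mod_cast dg_le_D H (G m) (x m)
    have h8 : (0 : ℝ) < (n m : ℝ) ^ (Nat.card α - 1) := pow_pos (by exact_mod_cast h.pos m) _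
    nlinarith

end Pool.Agent.WTK
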