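import Pool.Agent.WTK.Pick
import Pool.Agent.WTK.Tight
import Pool.Agent.WTK.LemR0

/-!
# [WTK-LemR1] the key lemma

Notation: `S = N(x)`, `P = (S ∪ R)ᶜ` with `R = R G q S (δ m)`, `U_J,b = Uq .. J b`, and `E_J` = the cliques `f : Fin (q+1) → V` with `f i ∈ P` for `i ∈ J` and `f i ∈ S` for `i ∉ J`.

`few_E1` (LemR0): `E_J` is few for `|J| = 1`, `J = {i₀}`.

`lemR_step` by strong induction on `|J|`: suppose that `U_J,b` is not few, so many (`few_or_many`). `pick` gives `Q'`. Let `Y_i = {v ∈ P | v ~ Q' l for all l ≠ i}` (`i ∈ J`) and `T = S ∪ ⋃_{i ∈ J} Y_i`. There are few `(q+1)`-cliques in `T`: let `f` be one and `J' = {i | f i ∉ S}`. If `J'` is empty `f` is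
a clique in `S` (`Sit.few1`). Otherwise `f i ∈ Y_(l(i))` for `i ∈ J'`. If `l i = l i'` for some `i ≠ i'`, then `(f i, f i')` is in the few pairs of `pick`: few such `f` (the set of the `f : Fin (q + 1) → V` with `(f i, f i') ∈ E` has `|E| n^(q-1)` elements). Otherwise `|J'| ≤ |J|`, and `f ∈ E_J'`. If `|J'| = 1` use
`few_E1`; if `|J'| ≥ 2` let `b' ∈ J'`: `E_J' ⊆ U_(J' \ {b'}),b'` and `1 ≤ |J'| - 1 < |J|`, few by induction. (Finite union over `J'`: `Few.iUnion`.)
So `Sit.tight` with `i₀ ∈ J` and `b`: the cliques `f` with `f i ∈ T` for `i ≠ b`, `f i₀ ∉ S` are few. But they contain the many `f` of `pick`: `f ∈ U_J,b`, and `f i ∈ Y_i` for `i ∈ J`. Contradiction (`not_few_of_many`).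
-/

set_option autoImplicit false

namespace Pool.Agent.WTK

open Pool.Agent.WT7 Filter

variable {α : Type}

theorem lemR_step [Finite α] [Nonempty α] {q : ℕ} {H : SimpleGraph α} (hH : H.Colorable (q + 1)) (hI : NoIso H)
    {U : Ultrafilter ℕ} {n : ℕ → ℕ} {G : ∀ m, SimpleGraph (Fin (n m))} (h : Sit q H U n G) (x : ∀ m, Fin (n m))
    {δ : ℕ → ℝ} (hδ : Tendsto δ (U : Filter ℕ) (nhds 0)) (J : Finset (Fin (q + 1))) (hJ : J.Nonempty)
    (b : Fin (q + 1)) (hb : b ∉ J)
    (ih : ∀ J' : Finset (Fin (q + 1)), J'.Nonempty → J'.card < J.card → ∀ b', b' ∉ J' →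
      Few U n (fun m => Uq (G m) q ((G m).neighborSet (x m)) (δ m) J' b')) :
    Few U n (fun m => Uq (G m) q ((G m).neighborSet (x m)) (δ m) J b) := by
  classical
  rcases few_or_many (U := U) (n := n) (fun m => Uq (G m) q ((G m).neighborSet (x m)) (δ m) J b) with hf | hm
  · exact hf
  exfalso
  obtain ⟨i₀, hi₀⟩ := hJ
  obtain ⟨Q', hQ1, hQ2⟩ := pick h.pos h.few (fun m f hf => hf.1) hm
  let T' : ∀ m, Set (Fin (n m)) := fun m => (G m).neighborSet (x m) ∪
    {v | v ∉ (G m).neighborSet (x m) ∧ v ∉ R (G m) q ((G m).neighborSet (x m)) (δ m) ∧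
      ∃ j ∈ J, ∀ l, l ≠ j → (G m).Adj v (Q' m l)}
  have hA : Few U n (fun m => cq (G m) ((G m).neighborSet (x m)) (Fin (q + 1))) := h.few1 x
  have hB := Few.iUnion (J := {p : Fin (q + 1) × Fin (q + 1) // p.1 ≠ p.2} × Fin (q + 1))
    (fun p => few_pair (hQ2 p.2) p.1.2)
  have hC := Few.iUnion (fun i₁ : Fin (q + 1) =>
    few_E1 (G := G) (fun m => (G m).neighborSet (x m)) hδ i₁)
  have hD := Few.iUnion
    (J := {p : Finset (Fin (q + 1)) × Fin (q + 1) // p.1.Nonempty ∧ p.1.card < J.card ∧ p.2 ∉ p.1})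
    (fun p => ih p.1.1 p.2.1 p.2.2.1 p.1.2 p.2.2.2)
  have hT : Few U n (fun m => cq (G m) (T' m) (Fin (q + 1))) := by
    refine (((hA.union hB).union hC).union hD).mono (Eventually.of_forall fun m f hf => ?_)
    obtain ⟨hfT, hfc⟩ := hf
    obtain ⟨J', hJ'⟩ : ∃ J' : Finset (Fin (q + 1)), ∀ i, i ∈ J' ↔ f i ∉ (G m).neighborSet (x m) :=
      ⟨Finset.univ.filter (fun i => f i ∉ (G m).neighborSet (x m)), fun i => by simp⟩
    have hP : ∀ i, i ∈ J' → f i ∉ R (G m) q ((G m).neighborSet (x m)) (δ m) ∧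
        ∃ j ∈ J, ∀ l, l ≠ j → (G m).Adj (f i) (Q' m l) := by
      intro i hi
      rcases hfT i with h1 | h1
      · exact absurd h1 ((hJ' i).1 hi)
      · exact h1.2
    rcases J'.eq_empty_or_nonempty with hJe | hJn
    · refine Or.inl (Or.inl (Or.inl ⟨fun i => ?_, hfc⟩))
      by_contra hc
      have := (hJ' i).2 hc
      rw [hJe] at this
      exact absurd this (Finset.notMem_empty i)
    · have hl : ∀ i, ∃ j, i ∈ J' → j ∈ J ∧ ∀ l, l ≠ j → (G m).Adj (f i) (Q' m l) := by
        intro i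
        by_cases hi : i ∈ J'
        · obtain ⟨j, hj, hj'⟩ := (hP i hi).2
          exact ⟨j, fun _ => ⟨hj, hj'⟩⟩
        · exact ⟨i, fun h => absurd h hi⟩
      choose l hl using hl
      by_cases hinj : Set.InjOn l (J' : Set (Fin (q + 1)))
      · have hcard : J'.card ≤ J.card :=
          Finset.card_le_card_of_injOn l (fun i hi => (hl i hi).1) hinj
        obtain ⟨b', hb'⟩ := hJn
        rcases (J'.erase b').eq_empty_or_nonempty with hE | hE
        · refine Or.inl (Or.inr ?_)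
          rw [Set.mem_iUnion]
          refine ⟨b', ⟨fun _ => Set.mem_univ _, hfc⟩, (hP b' hb').1, fun i hi => ?_⟩
          by_contra hc
          have h1 : i ∈ J'.erase b' := Finset.mem_erase.2 ⟨hi, (hJ' i).2 hc⟩
          rw [hE] at h1
          exact absurd h1 (Finset.notMem_empty i)
        · refine Or.inr ?_
          rw [Set.mem_iUnion]
          have h2 : (J'.erase b').card < J'.card := Finset.card_erase_lt_of_mem hb'
          refine ⟨⟨(J'.erase b', b'), hE, lt_of_lt_of_le h2 hcard, Finset.notMem_erase b' J'⟩,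
            ⟨fun _ => Set.mem_univ _, hfc⟩, fun i hi => ?_, fun i hi hib => ?_⟩
          · have h3 : i ∈ J' := Finset.mem_of_mem_erase hi
            exact ⟨(hJ' i).1 h3, (hP i h3).1⟩
          · by_contra hc
            exact hi (Finset.mem_erase.2 ⟨hib, (hJ' i).2 hc⟩)
      · refine Or.inl (Or.inl (Or.inr ?_))
        unfold Set.InjOn at hinj
        push Not at hinj
        obtain ⟨i, hi, i', hi', hll, hne⟩ := hinj
        rw [Set.mem_iUnion]
        refine ⟨⟨⟨(i, i'), hne⟩, l i⟩, ?_, ?_⟩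
        · have := hfc i i' hne
          simpa using this
        · intro t k hk
          have h1 := (hl i hi).2 k hk
          have h2 := (hl i' hi').2 k (by rw [← hll]; exact hk)
          by_cases ht : t = 0
          · simpa [ht] using h1
          · simpa [ht] using h2
  have hbi : i₀ ≠ b := fun hc => hb (hc ▸ hi₀)
  have hfin := h.tight hH hI x (T := T') (fun m => Set.subset_union_left) hT hbi
  refine not_few_of_many h.pos hQ1 (hfin.mono (Eventually.of_forall fun m f hf => ?_))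
  obtain ⟨⟨hf1, hf2, hf3⟩, hf4⟩ := hf
  refine ⟨hf1, fun i hi => ?_, (hf2 i₀ hi₀).1⟩
  by_cases hiJ : i ∈ J
  · exact Or.inr ⟨(hf2 i hiJ).1, (hf2 i hiJ).2, i, hiJ, fun l hl => hf4 i l hl⟩
  · exact Or.inl (hf3 i hiJ hi)

theorem lemR_seq [Finite α] [Nonempty α] {q : ℕ} {H : SimpleGraph α} (hH : H.Colorable (q + 1)) (hI : NoIso H)
    {U : Ultrafilter ℕ} {n : ℕ → ℕ} {G : ∀ m, SimpleGraph (Fin (n m))} (h : Sit q H U n G) (x : ∀ m, Fin (n m))
    {δ : ℕ → ℝ} (hδ : Tendsto δ (U : Filter ℕ) (nhds 0)) (J : Finset (Fin (q + 1))) (hJ : J.Nonempty)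
    (b : Fin (q + 1)) (hb : b ∉ J) :
    Few U n (fun m => Uq (G m) q ((G m).neighborSet (x m)) (δ m) J b) := by
  have main : ∀ (k : ℕ) (J : Finset (Fin (q + 1))), J.card = k → J.Nonempty → ∀ b, b ∉ J →
      Few U n (fun m => Uq (G m) q ((G m).neighborSet (x m)) (δ m) J b) := by
    intro k
    induction k using Nat.strong_induction_on with
    | _ k ih =>
      intro J hk hJ b hb
      exact lemR_step hH hI h x hδ J hJ b hb
        (fun J' hJ' hc b' hb' => ih J'.card (hk ▸ hc) J' rfl hJ' b' hb')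
  exact main J.card J rfl hJ b hb

end Pool.Agent.WTK
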