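import Pool.Agent.WTK.LemR1

/-!
# [WTK-LemR2] the key lemma, with a fixed `δ`

`uq_mono`: if `δ ≤ δ'` then `R .. δ' ⊆ R .. δ`, so `Uq .. δ ⊆ Uq .. δ'`.
`lemR`: for fixed `J`, `b`, `ρ` suppose that for all `δ > 0` it is not true that eventually `|Uq δ| ≤ ρ n^(q+1)`; then `A_t = {m | |Uq (1/(t+1))| > ρ n^(q+1)}` is in `U` for all `t : ℕ` (ultrafilter). Let `t m` be the largest `t ≤ m` with `m ∈ A_t` (or `0`), `δ m = 1 / (t m + 1)`. `δ → 0` along `U`: for `t₀` and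
`m ∈ A_(t₀)`, `m ≥ t₀`, we have `t m ≥ t₀`. (`U` contains the sets `{m | m ≥ t₀}`: this follows from `h.ntop` if `n` is bounded on finite sets: `{m | m < t₀} ∈ U` would give a bound for `n` on a set of `U`.) So `lemR_seq` gives eventually `|Uq (δ m)| ≤ ρ n^(q+1)`; but for `m ∈ A_0` we have `m ∈ A_(t m)`. Contradiction. Then take the minimum of the `δ` over the finitely many `J`, `b` (`uq_mono`).
`lemR'`: a clique `f` with `f i ∉ R` for all `i ≠ b` and not all these `f i` in `S` is in `Uq J b` with `J = {i | i ≠ b ∧ f i ∉ S}`; finitely many `J` (`eventually_iUnion_le`), apply `lemR` with `ρ / (number of the J)`.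
-/

set_option autoImplicit false

namespace Pool.Agent.WTK

open Pool.Agent.WT7 Filter

variable {α : Type}

theorem uq_mono {V : Type} [Finite V] (G : SimpleGraph V) (q : ℕ) (S : Set V) {δ δ' : ℝ} (h : δ ≤ δ')
    (J : Finset (Fin (q + 1))) (b : Fin (q + 1)) : Uq G q S δ J b ⊆ Uq G q S δ' J b := by
  rintro f ⟨h1, h2, h3⟩
  refine ⟨h1, fun i hi => ⟨(h2 i hi).1, fun hR => (h2 i hi).2 ?_⟩, h3⟩
  have hR' : δ' * (Nat.card V : ℝ) ^ q ≤ ((cq G (G.neighborSet (f i) ∩ S) (Fin q)).ncard : ℝ) := hR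
  show δ * (Nat.card V : ℝ) ^ q ≤ ((cq G (G.neighborSet (f i) ∩ S) (Fin q)).ncard : ℝ)
  exact (mul_le_mul_of_nonneg_right h (by positivity)).trans hR'

/-- the diagonal argument for one pair `J`, `b` -/
private theorem lemR2_one [Finite α] [Nonempty α] {q : ℕ} {H : SimpleGraph α} (hH : H.Colorable (q + 1)) (hI : NoIso H)
    {U : Ultrafilter ℕ} {n : ℕ → ℕ} {G : ∀ m, SimpleGraph (Fin (n m))} (h : Sit q H U n G) (x : ∀ m, Fin (n m))
    {ρ : ℝ} (hρ : 0 < ρ) (J : Finset (Fin (q + 1))) (hJ : J.Nonempty) (b : Fin (q + 1)) (hb : b ∉ J) :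
    ∃ δ : ℝ, 0 < δ ∧ ∀ᶠ m in (U : Filter ℕ),
      ((Uq (G m) q ((G m).neighborSet (x m)) δ J b).ncard : ℝ) ≤ ρ * (n m : ℝ) ^ (q + 1) := by
  classical
  by_contra hcon
  push Not at hcon
  let P : ℕ → ℕ → Prop := fun m t =>
    ρ * (n m : ℝ) ^ (q + 1) < ((Uq (G m) q ((G m).neighborSet (x m)) (1 / ((t : ℝ) + 1)) J b).ncard : ℝ)
  have hP : ∀ t, ∀ᶠ m in (U : Filter ℕ), P m t := by
    intro t
    have h1 := hcon (1 / ((t : ℝ) + 1)) (by positivity)
    exact h1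
  have hbig : ∀ t₀ : ℕ, ∀ᶠ m in (U : Filter ℕ), t₀ ≤ m := by
    intro t₀
    filter_upwards [h.ntop.eventually (eventually_gt_atTop (∑ i ∈ Finset.range t₀, n i))] with m hm
    by_contra hlt
    push Not at hlt
    have := Finset.single_le_sum (f := n) (fun i _ => Nat.zero_le (n i)) (Finset.mem_range.2 hlt)
    omega
  let t : ℕ → ℕ := fun m => Nat.findGreatest (P m) m
  have ht : Tendsto t (U : Filter ℕ) atTop := by
    rw [tendsto_atTop]
    intro t₀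
    filter_upwards [hP t₀, hbig t₀] with m h1 h2
    exact Nat.le_findGreatest h2 h1
  have hδ : Tendsto (fun m => 1 / ((t m : ℝ) + 1)) (U : Filter ℕ) (nhds 0) :=
    tendsto_one_div_add_atTop_nhds_zero_nat.comp ht
  have hfew := lemR_seq hH hI h x hδ J hJ b hb ρ hρ
  have hfalse : ∀ᶠ m in (U : Filter ℕ), False := by
    filter_upwards [hfew, hP 0] with m h1 h2
    have h3 : P m (t m) := Nat.findGreatest_spec (P := P m) (Nat.zero_le m) h2
    rw [Nat.card_fin] at h1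
    exact absurd h1 (not_le.2 h3)
  exact hfalse.exists.elim (fun _ h => h)

theorem lemR [Finite α] [Nonempty α] {q : ℕ} {H : SimpleGraph α} (hH : H.Colorable (q + 1)) (hI : NoIso H)
    {U : Ultrafilter ℕ} {n : ℕ → ℕ} {G : ∀ m, SimpleGraph (Fin (n m))} (h : Sit q H U n G) (x : ∀ m, Fin (n m))
    {ρ : ℝ} (hρ : 0 < ρ) :
    ∃ δ : ℝ, 0 < δ ∧ ∀ J : Finset (Fin (q + 1)), J.Nonempty → ∀ b, b ∉ J → ∀ᶠ m in (U : Filter ℕ),
      ((Uq (G m) q ((G m).neighborSet (x m)) δ J b).ncard : ℝ) ≤ ρ * (n m : ℝ) ^ (q + 1) := by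
  classical
  have h0 : ∀ p : Finset (Fin (q + 1)) × Fin (q + 1), ∃ δ : ℝ, 0 < δ ∧ (p.1.Nonempty → p.2 ∉ p.1 →
      ∀ᶠ m in (U : Filter ℕ),
      ((Uq (G m) q ((G m).neighborSet (x m)) δ p.1 p.2).ncard : ℝ) ≤ ρ * (n m : ℝ) ^ (q + 1)) := by
    intro p
    by_cases hp : p.1.Nonempty ∧ p.2 ∉ p.1
    · obtain ⟨δ, hδ, h1⟩ := lemR2_one hH hI h x hρ p.1 hp.1 p.2 hp.2
      exact ⟨δ, hδ, fun _ _ => h1⟩
    · exact ⟨1, one_pos, fun h1 h2 => absurd ⟨h1, h2⟩ hp⟩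
  choose d hd hd' using h0
  obtain ⟨p₀, -, hp₀⟩ := Finset.exists_min_image (Finset.univ : Finset (Finset (Fin (q + 1)) × Fin (q + 1))) d
    Finset.univ_nonempty
  refine ⟨d p₀, hd p₀, fun J hJ b hb => ?_⟩
  filter_upwards [hd' (J, b) hJ hb] with m hm
  refine le_trans ?_ hm
  exact_mod_cast Set.ncard_le_ncard (uq_mono (G m) q _ (hp₀ (J, b) (Finset.mem_univ _)) J b) (Set.toFinite _)

/-- almost no `(q+1)`-clique has `q` vertices outside of `R`, not all of these in `S = N(x)` -/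
theorem lemR' [Finite α] [Nonempty α] {q : ℕ} {H : SimpleGraph α} (hH : H.Colorable (q + 1)) (hI : NoIso H)
    {U : Ultrafilter ℕ} {n : ℕ → ℕ} {G : ∀ m, SimpleGraph (Fin (n m))} (h : Sit q H U n G) (x : ∀ m, Fin (n m))
    {ρ : ℝ} (hρ : 0 < ρ) :
    ∃ δ : ℝ, 0 < δ ∧ ∀ δ', 0 < δ' → δ' ≤ δ → ∀ b, ∀ᶠ m in (U : Filter ℕ),
      (({f | f ∈ cq (G m) Set.univ (Fin (q + 1)) ∧
        (∀ i, i ≠ b → f i ∉ R (G m) q ((G m).neighborSet (x m)) δ') ∧
        ∃ i, i ≠ b ∧ f i ∉ (G m).neighborSet (x m)}).ncard : ℝ) ≤ ρ * (n m : ℝ) ^ (q + 1) := by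
  classical
  have hK : (0 : ℝ) < Nat.card (Finset (Fin (q + 1))) := by
    exact_mod_cast Nat.card_pos
  obtain ⟨δ, hδ, h1⟩ := lemR hH hI h x (ρ := ρ / Nat.card (Finset (Fin (q + 1)))) (by positivity)
  refine ⟨δ, hδ, fun δ' hδ' hle b => ?_⟩
  have h2 : ∀ J : Finset (Fin (q + 1)), ∀ᶠ m in (U : Filter ℕ),
      (({f | (J.Nonempty ∧ b ∉ J) ∧ f ∈ Uq (G m) q ((G m).neighborSet (x m)) δ' J b} :
        Set (Fin (q + 1) → Fin (n m))).ncard : ℝ) ≤
        ρ / Nat.card (Finset (Fin (q + 1))) * (n m : ℝ) ^ Nat.card (Fin (q + 1)) := by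
    intro J
    rw [Nat.card_fin]
    by_cases hJ : J.Nonempty ∧ b ∉ J
    · filter_upwards [h1 J hJ.1 b hJ.2] with m hm
      refine le_trans ?_ hm
      refine Nat.cast_le.2 (Set.ncard_le_ncard ?_ (Set.toFinite _))
      rintro f ⟨-, hf⟩
      exact uq_mono (G m) q _ hle J b hf
    · refine Eventually.of_forall (fun m => ?_)
      have h3 : ({f | (J.Nonempty ∧ b ∉ J) ∧ f ∈ Uq (G m) q ((G m).neighborSet (x m)) δ' J b} :
          Set (Fin (q + 1) → Fin (n m))) = ∅ := by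
        ext f
        simp only [Set.mem_ofPred_eq, Set.mem_empty_iff_false, iff_false]
        exact fun hf => hJ hf.1
      rw [h3, Set.ncard_empty]
      simp only [Nat.cast_zero]
      positivity
  have h4 := eventually_iUnion_le (U := U) (n := n) (ι := Fin (q + 1)) (J := Finset (Fin (q + 1))) h2
  filter_upwards [h4] with m hm
  rw [Nat.card_fin] at hm
  have h5 : (Nat.card (Finset (Fin (q + 1))) : ℝ) * (ρ / Nat.card (Finset (Fin (q + 1)))) = ρ := by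
    field_simp
  rw [h5] at hm
  refine le_trans ?_ hm
  refine Nat.cast_le.2 (Set.ncard_le_ncard ?_ (Set.toFinite _))
  rintro f ⟨hf1, hf2, i₀, hi₀, hi₀'⟩
  refine Set.mem_iUnion.2 ⟨Finset.univ.filter (fun i => i ≠ b ∧ f i ∉ (G m).neighborSet (x m)), ⟨⟨?_, ?_⟩, ?_⟩⟩
  · exact ⟨i₀, Finset.mem_filter.2 ⟨Finset.mem_univ _, hi₀, hi₀'⟩⟩
  · intro hb
    exact (Finset.mem_filter.1 hb).2.1 rfl
  · refine ⟨hf1, ?_, ?_⟩
    · intro i hi
      have hi' := (Finset.mem_filter.1 hi).2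
      exact ⟨hi'.2, hf2 i hi'.1⟩
    · intro i hi hib
      by_contra hS
      exact hi (Finset.mem_filter.2 ⟨Finset.mem_univ _, hib, hS⟩)

end Pool.Agent.WTK
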