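import Pool.Agent.WTK.LemR2
import Pool.Agent.WTK.KCount

/-!
# [WTK-Link] many `(k-1)`-cliques with `k - 2` vertices in `N(x)`

`q ≥ 1`. Let `c` be the density of the `(q+1)`-cliques (`Sit.manyK`). `lemR'` with `ρ = c / (4 (q + 1))` gives `δ`. The cliques `f` with `f i ∉ R` for all `i` are in `cq (N(x))` (few) or in the set of `lemR'` for some `b` (choose `b ≠ i₀` where `f i₀ ∉ N(x)`); there are `q + 1 ≥ 2` indices. So the cliques `f` with some `f i ∈ R` are many,
for a fixed `i` (`many_diff`, `Many.pigeon`), and `R` is large (`large_of_many`). For `v ∈ R` there are `δ n^q` cliques `g` in `N(v) ∩ N(x)`, and `b.insertNth v g` is a clique with all vertices except the one at `b` in `N(x)`; the map `(v, g) ↦ b.insertNth v g` is injective.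
-/

set_option autoImplicit false

namespace Pool.Agent.WTK

open Pool.Agent.WT7 Filter

variable {α : Type}

theorem Sit.link [Finite α] [Nonempty α] {q : ℕ} (hq : 1 ≤ q) {H : SimpleGraph α} (hH : H.Colorable (q + 1))
    (hI : NoIso H) (hπ : 0 < piK q H) {U : Ultrafilter ℕ} {n : ℕ → ℕ} {G : ∀ m, SimpleGraph (Fin (n m))}
    (h : Sit q H U n G) (x : ∀ m, Fin (n m)) (b : Fin (q + 1)) :
    Many U n (fun m => {f | f ∈ cq (G m) Set.univ (Fin (q + 1)) ∧
      ∀ t, t ≠ b → f t ∈ (G m).neighborSet (x m)}) := by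
  obtain ⟨c, hc, hK⟩ := Sit.manyK hI hπ h
  have hq0 : (0 : ℝ) < (q : ℝ) + 1 := by positivity
  have hρ : 0 < c / (4 * ((q : ℝ) + 1)) := by positivity
  obtain ⟨δ, hδ, hR⟩ := lemR' hH hI h x hρ
  have hbad := eventually_iUnion_le (U := U) (n := n) (ι := Fin (q + 1)) (J := Fin (q + 1))
    (ρ := c / (4 * ((q : ℝ) + 1)))
    (T := fun b m => {f | f ∈ cq (G m) Set.univ (Fin (q + 1)) ∧
        (∀ i, i ≠ b → f i ∉ R (G m) q ((G m).neighborSet (x m)) δ) ∧
        ∃ i, i ≠ b ∧ f i ∉ (G m).neighborSet (x m)})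
    (fun b => by
      filter_upwards [hR δ hδ le_rfl b] with m hm
      rw [Nat.card_fin]
      exact hm)
  have hfew := h.few1 x (c / 4) (by positivity)
  -- the cliques outside of `R`
  have hT' : ∀ᶠ m in (U : Filter ℕ), (({f : Fin (q + 1) → Fin (n m) |
      f ∈ cq (G m) Set.univ (Fin (q + 1)) ∧
        ∀ i, f i ∉ R (G m) q ((G m).neighborSet (x m)) δ}).ncard : ℝ) ≤
      c / 2 * (n m : ℝ) ^ Nat.card (Fin (q + 1)) := by
    filter_upwards [hbad, hfew] with m h1 h2
    have hsub : {f : Fin (q + 1) → Fin (n m) | f ∈ cq (G m) Set.univ (Fin (q + 1)) ∧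
        ∀ i, f i ∉ R (G m) q ((G m).neighborSet (x m)) δ} ⊆
        cq (G m) ((G m).neighborSet (x m)) (Fin (q + 1)) ∪
        ⋃ b : Fin (q + 1), {f | f ∈ cq (G m) Set.univ (Fin (q + 1)) ∧
        (∀ i, i ≠ b → f i ∉ R (G m) q ((G m).neighborSet (x m)) δ) ∧
        ∃ i, i ≠ b ∧ f i ∉ (G m).neighborSet (x m)} := by
      rintro f ⟨hf1, hf2⟩
      by_cases hall : ∀ i, f i ∈ (G m).neighborSet (x m)
      · exact Or.inl ⟨hall, hf1.2⟩
      · right
        push Not at hall
        obtain ⟨i₀, hi₀⟩ := hall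
        obtain ⟨b', hb'⟩ : ∃ b' : Fin (q + 1), i₀ ≠ b' := by
          have : Nontrivial (Fin (q + 1)) := Fin.nontrivial_iff_two_le.2 (by omega)
          obtain ⟨b', hb'⟩ := exists_ne i₀
          exact ⟨b', hb'.symm⟩
        exact Set.mem_iUnion.2 ⟨b', hf1, fun i _ => hf2 i, i₀, hb', hi₀⟩
    have h3 := (Set.ncard_le_ncard hsub (Set.toFinite _)).trans (Set.ncard_union_le _ _)
    have h4 : (({f : Fin (q + 1) → Fin (n m) | f ∈ cq (G m) Set.univ (Fin (q + 1)) ∧
        ∀ i, f i ∉ R (G m) q ((G m).neighborSet (x m)) δ}).ncard : ℝ) ≤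
        ((cq (G m) ((G m).neighborSet (x m)) (Fin (q + 1))).ncard : ℝ) +
        ((⋃ b : Fin (q + 1), {f | f ∈ cq (G m) Set.univ (Fin (q + 1)) ∧
        (∀ i, i ≠ b → f i ∉ R (G m) q ((G m).neighborSet (x m)) δ) ∧
        ∃ i, i ≠ b ∧ f i ∉ (G m).neighborSet (x m)}).ncard : ℝ) := by
      exact_mod_cast h3
    refine h4.trans ((add_le_add h2 h1).trans (le_of_eq ?_))
    rw [Nat.card_fin]
    push_cast
    field_simp
    ring
  have hdiff := many_diff hc hK hT'
  obtain ⟨i, hi⟩ := Many.pigeon (J := Fin (q + 1)) h.pos hdiff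
    (T' := fun i m => {f | f ∈ cq (G m) Set.univ (Fin (q + 1)) ∧
      f i ∈ R (G m) q ((G m).neighborSet (x m)) δ})
    (Filter.Eventually.of_forall fun m => by
      rintro f ⟨hf1, hf2⟩
      by_contra hcon
      refine hf2 ⟨hf1, fun i hi => hcon (Set.mem_iUnion.2 ⟨i, hf1, hi⟩)⟩)
  have hlarge : Large U n (fun m => R (G m) q ((G m).neighborSet (x m)) δ) :=
    large_of_many h.pos hi i (Filter.Eventually.of_forall fun m f hf => hf.2)
  -- the pairs
  obtain ⟨c', hc', hP⟩ := large_mul_many (κ := Fin q) (many_of_large hlarge)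
    (fun m f => cq (G m) ((G m).neighborSet (f ()) ∩ (G m).neighborSet (x m)) (Fin q))
    ⟨δ, hδ, Filter.Eventually.of_forall fun m f hf => by
      have h1 : δ * (Nat.card (Fin (n m)) : ℝ) ^ q ≤
        ((cq (G m) ((G m).neighborSet (f ()) ∩ (G m).neighborSet (x m)) (Fin q)).ncard : ℝ) := hf
      rw [Nat.card_fin] at h1 ⊢
      exact h1⟩
  refine ⟨c', hc', ?_⟩
  filter_upwards [hP] with m hm
  have hcard : Nat.card (Unit ⊕ Fin q) = Nat.card (Fin (q + 1)) := by
    simp [Nat.card_eq_fintype_card, add_comm]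
  rw [hcard] at hm
  refine hm.trans ?_
  have hinj : Function.Injective (fun f : Unit ⊕ Fin q → Fin (n m) =>
      (b.insertNth (f (Sum.inl ())) (fun j => f (Sum.inr j)) : Fin (q + 1) → Fin (n m))) := by
    intro f g hfg
    have h1 := congrFun hfg b
    simp only [Fin.insertNth_apply_same] at h1
    funext s
    rcases s with ⟨⟩ | j
    · exact h1
    · have h2 := congrFun hfg (b.succAbove j)
      simp only [Fin.insertNth_apply_succAbove] at h2
      exact h2
  have key := Set.ncard_le_ncard_of_injOn (fun f : Unit ⊕ Fin q → Fin (n m) =>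
      (b.insertNth (f (Sum.inl ())) (fun j => f (Sum.inr j)) : Fin (q + 1) → Fin (n m)))
    (s := {f : Unit ⊕ Fin q → Fin (n m) | (fun i => f (Sum.inl i)) ∈
        {f : Unit → Fin (n m) | f () ∈ R (G m) q ((G m).neighborSet (x m)) δ} ∧
      (fun j => f (Sum.inr j)) ∈ cq (G m) ((G m).neighborSet (f (Sum.inl ())) ∩
        (G m).neighborSet (x m)) (Fin q)})
    (t := {f | f ∈ cq (G m) Set.univ (Fin (q + 1)) ∧
      ∀ t, t ≠ b → f t ∈ (G m).neighborSet (x m)})
    (by
      rintro f ⟨-, hf1, hf2⟩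
      refine ⟨⟨fun _ => trivial, ?_⟩, ?_⟩
      · intro s t hst
        rcases Fin.eq_self_or_eq_succAbove b s with rfl | ⟨j, rfl⟩
        · rcases Fin.eq_self_or_eq_succAbove s t with rfl | ⟨j', rfl⟩
          · exact absurd rfl hst
          · simp only [Fin.insertNth_apply_same, Fin.insertNth_apply_succAbove]
            exact (hf1 j').1
        · rcases Fin.eq_self_or_eq_succAbove b t with rfl | ⟨j', rfl⟩
          · simp only [Fin.insertNth_apply_same, Fin.insertNth_apply_succAbove]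
            exact ((hf1 j).1).symm
          · simp only [Fin.insertNth_apply_succAbove]
            exact hf2 j j' (fun hjj => hst (by rw [hjj]))
      · intro t ht
        rcases Fin.eq_self_or_eq_succAbove b t with rfl | ⟨j, rfl⟩
        · exact absurd rfl ht
        · simp only [Fin.insertNth_apply_succAbove]
          exact (hf1 j).2)
    (hinj.injOn) (Set.toFinite _)
  exact_mod_cast key

end Pool.Agent.WTK
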