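import Pool.Agent.WTK.Contra
import Pool.Agent.WT7.KFin

/-!
# [WTK-MainK] the main theorem, isolated vertices

`mainK_inj`: progressive induction as in WT7.MainInj (`main_inj`) and WT7.KMain (`k_main_inj`), with `stepK`, `growthK`, `bF_step`, `exists_bF`.
`mainK_all`: isolated vertices as in WT7.KFin (`k_main_all`).
-/

set_option autoImplicit false

namespace Pool.Agent.WTK

open Pool.Agent.WT7 Filter

variable {α β : Type}

theorem mainK_inj [Finite α] [Nonempty α] [Finite β] {q : ℕ} (hq : 1 ≤ q) {H : SimpleGraph α}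
    (hH : H.Colorable (q + 1)) (hI : NoIso H) {F : SimpleGraph β} (hFe : ∃ a b, F.Adj a b) (hFM : InM F q) :
    ∃ n₀ : ℕ, ∀ n ≥ n₀, bF H F n ≤ bF H (⊤ : SimpleGraph (Fin (q + 2))) n := by
  obtain ⟨ε, hε, n₁, hstep⟩ := stepK hq hH hI hFM
  obtain ⟨n₂, hgr⟩ := growthK H q hε
  have hA : ∀ n, n₁ + n₂ ≤ n → bF H (⊤ : SimpleGraph (Fin (q + 2))) (n + 1) < bF H F (n + 1) →
      bF H F (n + 1) + bF H (⊤ : SimpleGraph (Fin (q + 2))) n <
        bF H F n + bF H (⊤ : SimpleGraph (Fin (q + 2))) (n + 1) := by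
    intro n hn hlt
    obtain ⟨G, hG, hGb⟩ := exists_bF H (F := F) hFe (n + 1)
    have hcard : Nat.card (Fin (n + 1)) = n + 1 := Nat.card_fin _
    obtain ⟨x, hx⟩ := hstep (n + 1) (by omega) G hG (by rw [hGb]; exact hlt)
    have h1 := bF_step H hG x
    have h2 := hgr n (by omega)
    rw [hcard, Nat.add_sub_cancel, hGb] at h1
    push_cast at hx
    have h3 : ((bF H F (n + 1) : ℕ) : ℝ) ≤ bF H F n + dg H G x := by exact_mod_cast h1
    have h4 : ((bF H F (n + 1) + bF H (⊤ : SimpleGraph (Fin (q + 2))) n : ℕ) : ℝ) <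
        ((bF H F n + bF H (⊤ : SimpleGraph (Fin (q + 2))) (n + 1) : ℕ) : ℝ) := by
      push_cast
      linarith
    exact_mod_cast h4
  refine ⟨n₁ + n₂ + bF H F (n₁ + n₂), fun n hn => ?_⟩
  by_contra hcon
  push Not at hcon
  have hB : ∀ d, n₁ + n₂ + d ≤ n →
      bF H (⊤ : SimpleGraph (Fin (q + 2))) (n - d) + d + 1 ≤ bF H F (n - d) := by
    intro d
    induction d with
    | zero =>
      intro _
      rw [Nat.sub_zero]
      omega
    | succ d ih =>
      intro hd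
      have h1 := ih (by omega)
      have h2 : n - d = n - (d + 1) + 1 := by omega
      rw [h2] at h1
      have h3 := hA (n - (d + 1)) (by omega) (by omega)
      omega
  have h1 := hB (n - (n₁ + n₂)) (by omega)
  have h2 : n - (n - (n₁ + n₂)) = n₁ + n₂ := by omega
  rw [h2] at h1
  omega

private theorem mainK_mono [Finite α] {V : Type} [Finite V] (H : SimpleGraph α) (G G₁ : SimpleGraph V)
    (h : inj (H.induce {x | ∃ y, H.Adj x y}) G ≤ inj (H.induce {x | ∃ y, H.Adj x y}) G₁) :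
    inj H G ≤ inj H G₁ := by
  rw [inj_iso H G, inj_iso H G₁]
  exact Nat.mul_le_mul_right _ h

private theorem mainK_empty {γ V : Type} [IsEmpty γ] (K : SimpleGraph γ) (G G₁ : SimpleGraph V) :
    inj K G ≤ inj K G₁ := by
  unfold inj
  have h : {f : γ → V | IsInj K G f} = {f : γ → V | IsInj K G₁ f} := by
    ext f
    constructor
    · intro hf
      exact ⟨hf.1, fun x => isEmptyElim x⟩
    · intro hf
      exact ⟨hf.1, fun x => isEmptyElim x⟩
  rw [h]

private theorem mainK_edge (q : ℕ) : ∃ a b, (⊤ : SimpleGraph (Fin (q + 2))).Adj a b :=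
  ⟨⟨0, by omega⟩, ⟨1, by omega⟩, by simp⟩

private theorem mainK_ne_bot {γ : Type} {K : SimpleGraph γ} (h : ∃ a b, K.Adj a b) : K ≠ ⊥ := by
  rintro rfl
  obtain ⟨a, b, hab⟩ := h
  exact hab

theorem mainK_all [Finite α] [Finite β] {q : ℕ} (hq : 1 ≤ q) {H : SimpleGraph α}
    (hH : H.Colorable (q + 1)) {F : SimpleGraph β} (hFe : ∃ a b, F.Adj a b) (hFM : InM F q) :
    ∃ n₀ : ℕ, ∀ n ≥ n₀, bF H F n ≤ bF H (⊤ : SimpleGraph (Fin (q + 2))) n := by
  have hbot : ∀ n, (⊤ : SimpleGraph (Fin (q + 2))).Free (⊥ : SimpleGraph (Fin n)) := fun n =>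
    SimpleGraph.free_bot (mainK_ne_bot (mainK_edge q))
  rcases Set.eq_empty_or_nonempty {x | ∃ y, H.Adj x y} with hS | ⟨x₀, hx₀⟩
  · refine ⟨0, fun n _ => ?_⟩
    obtain ⟨G, -, hG⟩ := exists_bF H hFe n
    have h1 : inj H G ≤ inj H (⊥ : SimpleGraph (Fin n)) := by
      refine mainK_mono H G ⊥ ?_
      have : IsEmpty ↥{x | ∃ y, H.Adj x y} := by
        rw [hS]
        infer_instance
      exact mainK_empty _ _ _
    have h2 := inj_le_bF H _ (hbot n)
    rw [Nat.card_fin] at h2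
    rw [← hG]
    exact h1.trans h2
  · have : Nonempty ↥{x | ∃ y, H.Adj x y} := ⟨⟨x₀, hx₀⟩⟩
    have hH' : (H.induce {x | ∃ y, H.Adj x y}).Colorable (q + 1) := by
      obtain ⟨C⟩ := hH
      exact ⟨C.comp (SimpleGraph.Embedding.induce _).toHom⟩
    have hI : NoIso (H.induce {x | ∃ y, H.Adj x y}) := by
      rintro ⟨x, y, hxy⟩
      exact ⟨⟨y, x, hxy.symm⟩, hxy⟩
    obtain ⟨n₀, hn₀⟩ := mainK_inj hq hH' hI hFe hFM
    refine ⟨n₀, fun n hn => ?_⟩
    obtain ⟨G, hGF, hG⟩ := exists_bF H hFe n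
    obtain ⟨G₁, hG₁f, hG₁⟩ := exists_bF (H.induce {x | ∃ y, H.Adj x y}) (mainK_edge q) n
    have h1 := inj_le_bF (H.induce {x | ∃ y, H.Adj x y}) F hGF
    rw [Nat.card_fin] at h1
    have h2 : inj (H.induce {x | ∃ y, H.Adj x y}) G ≤ inj (H.induce {x | ∃ y, H.Adj x y}) G₁ := by
      rw [hG₁]
      exact h1.trans (hn₀ n hn)
    have h3 := mainK_mono H G G₁ h2
    have h4 := inj_le_bF H _ hG₁f
    rw [Nat.card_fin] at h4
    rw [← hG]
    exact h3.trans h4

end Pool.Agent.WTK
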