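import Pool.Agent.WTK.Box
import Pool.Agent.WTK.FM2

/-!
# [WTK-Pick] choice of a typical clique

`T m` is a set of `(q+1)`-cliques with density `≥ ρ`. For a tuple `Q'` let `A(Q')` be the set of the `f ∈ T m` with `f i` adjacent to `Q' l` for all `l ≠ i`. `box` with `κ = ι ⊕ ι`, `ι = Fin (q + 1)`, `c = Sum.elim id id`: at least `γ n^(2(q+1))` maps `F : ι ⊕ ι → V` are blow-ups in `T m`; then
`Q' = F ∘ inr`, `f = F ∘ inl` satisfy `f ∈ T m` and, for `l ≠ i`, the tuple which is `F (inl i)` at `i` and `F (inr t)` at `t ≠ i` is in `T m`, a clique; so `f ∈ A(Q')`. Hence `∑_{Q'} |A(Q')| ≥ γ n^(2(q+1))`, and at least `(γ / 2) n^(q+1)` tuples `Q'` have `|A(Q')| ≥ (γ / 2) n^(q+1)`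
(the set `𝒢 m`). Let `e(Q') = ∑_i |E_i(Q')|`, `E_i(Q')` the set of pairs in the last condition. `(Q', p) ↦` the tuple `(Q' l (l ≠ i), p 0, p 1)` is a `(q+2)`-clique if `Q' l`, `l ≠ i`, are pairwise adjacent; so `∑ |E_i(Q')| ≤ n |cq G univ (Fin (q + 2))|` over the `Q'` with
`Q' l` (`l ≠ i`) pairwise adjacent (the elements of `𝒢 m` may be taken to be cliques: `Q' = F ∘ inr ∈ T m`). So for every `ξ > 0` eventually fewer than `(γ / 4) n^(q+1)` such `Q'` have `e(Q') > ξ n²`, and there is one in `𝒢 m` with `e ≤ ξ n²`. Let `Q' m` be an element of `𝒢 m` with minimal `e` (arbitrary if `𝒢 m` is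
empty; `Fin (n m)` is nonempty by `hpos`).
-/

set_option autoImplicit false

namespace Pool.Agent.WTK

open Pool.Agent.WT7 Filter

/-- the tuples of `T` whose entries are adjacent to the other entries of `Q'` -/
private def pA {V : Type} {q : ℕ} (G : SimpleGraph V) (T : Set (Fin (q + 1) → V)) (Q' : Fin (q + 1) → V) :
    Set (Fin (q + 1) → V) :=
  {f | f ∈ T ∧ ∀ i l, l ≠ i → G.Adj (f i) (Q' l)}

/-- the adjacent pairs of vertices which are adjacent to all entries of `Q'` except the one at `i` -/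
private def pE {V : Type} {q : ℕ} (G : SimpleGraph V) (Q' : Fin (q + 1) → V) (i : Fin (q + 1)) :
    Set (Fin 2 → V) :=
  {p | G.Adj (p 0) (p 1) ∧ ∀ t, ∀ l, l ≠ i → G.Adj (p t) (Q' l)}

private theorem pk_sum {X Y : Type} [Fintype X] [Finite Y] (P : Set (X × Y)) :
    P.ncard = ∑ x, ({y | (x, y) ∈ P} : Set Y).ncard := by
  classical
  have := Fintype.ofFinite Y
  rw [Set.ncard_eq_toFinset_card' P,
    Finset.card_eq_sum_card_fiberwise (f := Prod.fst) (s := P.toFinset) (t := Finset.univ) (by intro x _; simp)]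
  refine Finset.sum_congr rfl fun x _ => ?_
  rw [← Set.ncard_coe_finset]
  refine (Set.ncard_congr (fun y _ => (x, y)) ?_ ?_ ?_).symm
  · intro y hy
    simpa using hy
  · intro a b _ _ h
    exact (Prod.mk.inj h).2
  · rintro ⟨a, b⟩ hb
    simp only [Finset.coe_filter, Set.mem_toFinset, Set.mem_ofPred_eq] at hb
    obtain ⟨hb1, rfl⟩ := hb
    exact ⟨b, hb1, rfl⟩

private theorem pk_blow {V : Type} [Finite V] {q : ℕ} (G : SimpleGraph V) {T : Set (Fin (q + 1) → V)}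
    (hT : T ⊆ cq G Set.univ (Fin (q + 1))) :
    ({F : Fin (q + 1) ⊕ Fin (q + 1) → V | Blow (Sum.elim id id) T F}).ncard ≤
      ({P : (Fin (q + 1) → V) × (Fin (q + 1) → V) | P.1 ∈ T ∧ P.2 ∈ pA G T P.1}).ncard := by
  refine Set.ncard_le_ncard_of_injOn (fun F => (fun i => F (Sum.inr i), fun i => F (Sum.inl i))) ?_ ?_
    (Set.toFinite _)
  · rintro F ⟨g, hg⟩
    refine ⟨hg _ fun i => Or.inr ⟨Sum.inr i, rfl, rfl⟩, hg _ fun i => Or.inr ⟨Sum.inl i, rfl, rfl⟩, ?_⟩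
    intro i l hl
    have h1 := hg (fun j => if j = i then F (Sum.inl i) else F (Sum.inr j)) (by
      intro j
      by_cases hj : j = i
      · subst hj
        exact Or.inr ⟨Sum.inl j, rfl, by simp⟩
      · exact Or.inr ⟨Sum.inr j, rfl, by simp [hj]⟩)
    have h2 := (hT h1).2 i l hl.symm
    simpa [hl] using h2
  · intro F _ F' _ h
    have h1 := congrFun (Prod.mk.inj h).1
    have h2 := congrFun (Prod.mk.inj h).2
    funext i
    rcases i with i | i
    · exact h2 i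
    · exact h1 i

private theorem pk_edge {V : Type} [Finite V] {q : ℕ} (G : SimpleGraph V) (i : Fin (q + 1)) :
    ({P : (Fin (q + 1) → V) × (Fin 2 → V) | P.1 ∈ cq G Set.univ (Fin (q + 1)) ∧ P.2 ∈ pE G P.1 i}).ncard ≤
      Nat.card V * (cq G Set.univ (Fin (q + 2))).ncard := by
  have h0 : Nat.card V * (cq G Set.univ (Fin (q + 2))).ncard =
      ((Set.univ : Set V) ×ˢ cq G Set.univ (Fin (q + 2))).ncard := by
    rw [Set.ncard_prod, Set.ncard_univ]
  rw [h0]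
  refine Set.ncard_le_ncard_of_injOn
    (fun P => (P.1 i, Fin.cons (P.2 0) (Fin.cons (P.2 1) fun t => P.1 (i.succAbove t)))) ?_ ?_ (Set.toFinite _)
  · rintro ⟨Q, p⟩ ⟨⟨-, hQ⟩, hp1, hp2⟩
    refine ⟨Set.mem_univ _, fun _ => Set.mem_univ _, ?_⟩
    have e1 : ∀ t, G.Adj (p 0) (Q (i.succAbove t)) := fun t => hp2 0 _ (Fin.succAbove_ne i t)
    have e2 : ∀ t, G.Adj (p 1) (Q (i.succAbove t)) := fun t => hp2 1 _ (Fin.succAbove_ne i t)
    intro a b
    refine Fin.cases ?_ (fun a => Fin.cases ?_ (fun a => ?_) a) a <;>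
      refine Fin.cases ?_ (fun b => Fin.cases ?_ (fun b => ?_) b) b
    · intro h
      exact absurd rfl h
    · intro _
      simpa using hp1
    · intro _
      simpa using e1 b
    · intro _
      simpa using hp1.symm
    · intro h
      exact absurd rfl h
    · intro _
      simpa using e2 b
    · intro _
      simpa using (e1 a).symm
    · intro _
      simpa using (e2 a).symm
    · intro h
      have : i.succAbove a ≠ i.succAbove b := by
        intro h'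
        exact h (by rw [Fin.succAbove_right_injective h'])
      simpa using hQ _ _ this
  · rintro ⟨Q, p⟩ _ ⟨Q₁, p₁⟩ _ h
    have h1 : Q i = Q₁ i := (Prod.mk.inj h).1
    have h2 := (Prod.mk.inj h).2
    have h3 : p 0 = p₁ 0 := by simpa using congrFun h2 0
    have h4 : p 1 = p₁ 1 := by simpa using congrFun h2 1
    have h5 : ∀ t, Q (i.succAbove t) = Q₁ (i.succAbove t) := fun t => by
      simpa using congrFun h2 t.succ.succ
    refine Prod.ext ?_ ?_
    · funext j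
      rcases Fin.eq_self_or_eq_succAbove i j with rfl | ⟨t, rfl⟩
      · exact h1
      · exact h5 t
    · funext t
      fin_cases t
      · exact h3
      · exact h4

/-- the choice of `Q'` in one graph -/
private theorem pk_one {V : Type} [Fintype V] [Nonempty V] {q : ℕ} (G : SimpleGraph V)
    {T : Set (Fin (q + 1) → V)} (hT : T ⊆ cq G Set.univ (Fin (q + 1))) {γ ξ : ℝ} (hγ : 0 < γ) (hξ : 0 < ξ)
    (hB : γ * (Nat.card V : ℝ) ^ Nat.card (Fin (q + 1) ⊕ Fin (q + 1)) ≤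
      (({F : Fin (q + 1) ⊕ Fin (q + 1) → V | Blow (Sum.elim id id) T F}).ncard : ℝ))
    (hK : ((cq G Set.univ (Fin (q + 2))).ncard : ℝ) ≤ γ * ξ / (4 * ((q : ℝ) + 1)) * (Nat.card V : ℝ) ^ (q + 2)) :
    ∃ Q' : Fin (q + 1) → V, γ / 2 * (Nat.card V : ℝ) ^ (q + 1) ≤ ((pA G T Q').ncard : ℝ) ∧
      ∀ i, ((pE G Q' i).ncard : ℝ) ≤ ξ * (Nat.card V : ℝ) ^ 2 := by
  classical
  set n : ℝ := (Nat.card V : ℝ) with hn
  have hn0 : 0 < n := by
    rw [hn]
    exact_mod_cast Nat.card_pos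
  have hq0 : (0 : ℝ) < (q : ℝ) + 1 := by positivity
  have hcard : Nat.card (Fin (q + 1) ⊕ Fin (q + 1)) = (q + 1) + (q + 1) := by simp
  rw [hcard] at hB
  by_contra hcon
  push Not at hcon
  -- the set of the good `Q'`
  set Gd : Finset (Fin (q + 1) → V) :=
    Finset.univ.filter (fun Q' => Q' ∈ T ∧ γ / 2 * n ^ (q + 1) ≤ ((pA G T Q').ncard : ℝ)) with hGd
  have hAle : ∀ Q' : Fin (q + 1) → V, ((pA G T Q').ncard : ℝ) ≤ n ^ (q + 1) := by
    intro Q'
    have h1 : (pA G T Q').ncard ≤ (Set.univ : Set (Fin (q + 1) → V)).ncard :=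
      Set.ncard_le_ncard (Set.subset_univ _) (Set.toFinite _)
    rw [Set.ncard_univ, Nat.card_fun, Nat.card_fin] at h1
    rw [hn]
    exact_mod_cast h1
  -- first count
  have c1 : γ * n ^ ((q + 1) + (q + 1)) ≤ ∑ Q' : Fin (q + 1) → V, (if Q' ∈ T then ((pA G T Q').ncard : ℝ) else 0) := by
    refine hB.trans ?_
    have h1 := pk_blow G hT
    rw [pk_sum] at h1
    have h2 : ∀ Q' : Fin (q + 1) → V, (({y | (Q', y) ∈ {P : (Fin (q + 1) → V) × (Fin (q + 1) → V) |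
        P.1 ∈ T ∧ P.2 ∈ pA G T P.1}} : Set (Fin (q + 1) → V)).ncard : ℝ) =
        if Q' ∈ T then ((pA G T Q').ncard : ℝ) else 0 := by
      intro Q'
      by_cases hQ : Q' ∈ T
      · simp [hQ]
      · simp [hQ]
    calc (({F : Fin (q + 1) ⊕ Fin (q + 1) → V | Blow (Sum.elim id id) T F}).ncard : ℝ)
        ≤ ((∑ Q' : Fin (q + 1) → V, ({y | (Q', y) ∈ {P : (Fin (q + 1) → V) × (Fin (q + 1) → V) |
          P.1 ∈ T ∧ P.2 ∈ pA G T P.1}} : Set (Fin (q + 1) → V)).ncard : ℕ) : ℝ) := by exact_mod_cast h1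
      _ = _ := by
        rw [Nat.cast_sum]
        exact Finset.sum_congr rfl fun Q' _ => h2 Q'
  have c2 : ∑ Q' : Fin (q + 1) → V, (if Q' ∈ T then ((pA G T Q').ncard : ℝ) else 0) ≤
      Gd.card * n ^ (q + 1) + n ^ (q + 1) * (γ / 2 * n ^ (q + 1)) := by
    have h1 : ∀ Q' : Fin (q + 1) → V, (if Q' ∈ T then ((pA G T Q').ncard : ℝ) else 0) ≤
        (if Q' ∈ Gd then n ^ (q + 1) else 0) + γ / 2 * n ^ (q + 1) := by
      intro Q'
      by_cases hQ : Q' ∈ T
      · by_cases hQ2 : γ / 2 * n ^ (q + 1) ≤ ((pA G T Q').ncard : ℝ)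
        · have : Q' ∈ Gd := by simp [hGd, hQ, hQ2]
          rw [if_pos hQ, if_pos this]
          have := hAle Q'
          have h3 : 0 ≤ γ / 2 * n ^ (q + 1) := by positivity
          linarith
        · have : Q' ∉ Gd := by
            simp only [hGd, Finset.mem_filter, Finset.mem_univ, true_and]
            tauto
          rw [if_pos hQ, if_neg this]
          push Not at hQ2
          linarith
      · rw [if_neg hQ]
        have h3 : 0 ≤ γ / 2 * n ^ (q + 1) := by positivity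
        have h4 : (0 : ℝ) ≤ if Q' ∈ Gd then n ^ (q + 1) else 0 := by
          split_ifs <;> positivity
        linarith
    calc ∑ Q' : Fin (q + 1) → V, (if Q' ∈ T then ((pA G T Q').ncard : ℝ) else 0)
        ≤ ∑ Q' : Fin (q + 1) → V, ((if Q' ∈ Gd then n ^ (q + 1) else 0) + γ / 2 * n ^ (q + 1)) :=
          Finset.sum_le_sum fun Q' _ => h1 Q'
      _ = Gd.card * n ^ (q + 1) + n ^ (q + 1) * (γ / 2 * n ^ (q + 1)) := by
        rw [Finset.sum_add_distrib, ← Finset.sum_filter, Finset.sum_const, Finset.sum_const,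
          Finset.card_univ, Fintype.card_fun, Fintype.card_fin, nsmul_eq_mul, nsmul_eq_mul,
          Finset.filter_mem_eq_inter, Finset.univ_inter]
        push_cast
        rw [hn, Nat.card_eq_fintype_card]
  have c3 : γ / 2 * n ^ (q + 1) ≤ Gd.card := by
    have h1 : γ * n ^ ((q + 1) + (q + 1)) = (γ * n ^ (q + 1)) * n ^ (q + 1) := by rw [pow_add]; ring
    have h2 : (γ * n ^ (q + 1)) * n ^ (q + 1) ≤ (Gd.card + γ / 2 * n ^ (q + 1)) * n ^ (q + 1) := by
      rw [← h1]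
      calc _ ≤ _ := c1.trans c2
        _ = _ := by ring
    have h3 := le_of_mul_le_mul_right h2 (by positivity)
    linarith
  -- second count
  have d1 : ∀ i : Fin (q + 1), ∑ Q' ∈ Gd, ((pE G Q' i).ncard : ℝ) ≤
      n * ((cq G Set.univ (Fin (q + 2))).ncard : ℝ) := by
    intro i
    have h1 := pk_edge G i
    rw [pk_sum] at h1
    have h2 : ∑ Q' ∈ Gd, (pE G Q' i).ncard ≤ ∑ Q' : Fin (q + 1) → V, ({y | (Q', y) ∈
        {P : (Fin (q + 1) → V) × (Fin 2 → V) | P.1 ∈ cq G Set.univ (Fin (q + 1)) ∧ P.2 ∈ pE G P.1 i}} :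
        Set (Fin 2 → V)).ncard := by
      refine (Finset.sum_le_sum fun Q' hQ' => ?_).trans
        (Finset.sum_le_univ_sum_of_nonneg fun _ => Nat.zero_le _)
      refine Set.ncard_le_ncard (fun p hp => ?_) (Set.toFinite _)
      simp only [hGd, Finset.mem_filter, Finset.mem_univ, true_and] at hQ'
      exact ⟨hT hQ'.1, hp⟩
    have h3 := h2.trans h1
    rw [hn]
    exact_mod_cast h3
  have d2 : ∀ Q' ∈ Gd, ξ * n ^ 2 ≤ ∑ i, ((pE G Q' i).ncard : ℝ) := by
    intro Q' hQ'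
    simp only [hGd, Finset.mem_filter, Finset.mem_univ, true_and] at hQ'
    obtain ⟨i, hi⟩ := hcon Q' hQ'.2
    calc ξ * n ^ 2 ≤ ((pE G Q' i).ncard : ℝ) := hi.le
      _ ≤ ∑ i, ((pE G Q' i).ncard : ℝ) :=
        Finset.single_le_sum (f := fun i => ((pE G Q' i).ncard : ℝ)) (fun _ _ => Nat.cast_nonneg _)
          (Finset.mem_univ i)
  have d3 : (Gd.card : ℝ) * (ξ * n ^ 2) ≤ ((q : ℝ) + 1) * (n * ((cq G Set.univ (Fin (q + 2))).ncard : ℝ)) := by
    calc (Gd.card : ℝ) * (ξ * n ^ 2) = ∑ _Q' ∈ Gd, ξ * n ^ 2 := by rw [Finset.sum_const, nsmul_eq_mul]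
      _ ≤ ∑ Q' ∈ Gd, ∑ i, ((pE G Q' i).ncard : ℝ) := Finset.sum_le_sum d2
      _ = ∑ i, ∑ Q' ∈ Gd, ((pE G Q' i).ncard : ℝ) := Finset.sum_comm
      _ ≤ ∑ _i : Fin (q + 1), n * ((cq G Set.univ (Fin (q + 2))).ncard : ℝ) := Finset.sum_le_sum fun i _ => d1 i
      _ = _ := by
        rw [Finset.sum_const, Finset.card_univ, Fintype.card_fin, nsmul_eq_mul]
        push_cast
        ring
  have d4 : ((q : ℝ) + 1) * (n * ((cq G Set.univ (Fin (q + 2))).ncard : ℝ)) ≤ γ * ξ / 4 * n ^ (q + 3) := by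
    calc ((q : ℝ) + 1) * (n * ((cq G Set.univ (Fin (q + 2))).ncard : ℝ))
        ≤ ((q : ℝ) + 1) * (n * (γ * ξ / (4 * ((q : ℝ) + 1)) * n ^ (q + 2))) := by gcongr
      _ = γ * ξ / 4 * n ^ (q + 3) := by
        field_simp
        ring
  have d5 : γ / 2 * ξ * n ^ (q + 3) ≤ γ * ξ / 4 * n ^ (q + 3) := by
    calc γ / 2 * ξ * n ^ (q + 3) = (γ / 2 * n ^ (q + 1)) * (ξ * n ^ 2) := by ring
      _ ≤ Gd.card * (ξ * n ^ 2) := by gcongr
      _ ≤ _ := d3.trans d4
  have d6 : 0 < γ * ξ * n ^ (q + 3) := by positivity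
  linarith [d5, d6]

theorem pick {q : ℕ} {U : Ultrafilter ℕ} {n : ℕ → ℕ} {G : ∀ m, SimpleGraph (Fin (n m))} (hpos : ∀ m, 0 < n m)
    (hfew : Few U n (fun m => cq (G m) Set.univ (Fin (q + 2)))) {T : ∀ m, Set (Fin (q + 1) → Fin (n m))}
    (hT : ∀ m, T m ⊆ cq (G m) Set.univ (Fin (q + 1))) (hm : Many U n T) :
    ∃ Q' : ∀ m, Fin (q + 1) → Fin (n m),
      Many U n (fun m => {f | f ∈ T m ∧ ∀ i l, l ≠ i → (G m).Adj (f i) (Q' m l)}) ∧
      ∀ i, Few U n (fun m => {p : Fin 2 → Fin (n m) | (G m).Adj (p 0) (p 1) ∧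
        ∀ t, ∀ l, l ≠ i → (G m).Adj (p t) (Q' m l)}) := by
  classical
  obtain ⟨ρ, hρ, hm⟩ := hm
  obtain ⟨γ, hγ, hbox⟩ := box (κ := Fin (q + 1) ⊕ Fin (q + 1)) (Sum.elim id id : _ → Fin (q + 1)) hρ
  -- the sum of the numbers of pairs
  set e : ∀ m, (Fin (q + 1) → Fin (n m)) → ℕ := fun m Q' => ∑ i, (pE (G m) Q' i).ncard with he
  set Gd : ∀ m, Finset (Fin (q + 1) → Fin (n m)) := fun m => Finset.univ.filter
    (fun Q' => γ / 2 * (n m : ℝ) ^ (q + 1) ≤ ((pA (G m) (T m) Q').ncard : ℝ)) with hGd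
  have hmin : ∀ m, ∃ Q' : Fin (q + 1) → Fin (n m), (Gd m).Nonempty →
      Q' ∈ Gd m ∧ ∀ Q'' ∈ Gd m, e m Q' ≤ e m Q'' := by
    intro m
    by_cases h : (Gd m).Nonempty
    · obtain ⟨Q', hQ', hQ''⟩ := Finset.exists_min_image (Gd m) (e m) h
      exact ⟨Q', fun _ => ⟨hQ', hQ''⟩⟩
    · exact ⟨fun _ => ⟨0, hpos m⟩, fun h' => absurd h' h⟩
  choose Q' hQ' using hmin
  have key : ∀ ξ : ℝ, 0 < ξ → ∀ᶠ m in (U : Filter ℕ), ∃ Q'' ∈ Gd m,
      ∀ i, ((pE (G m) Q'' i).ncard : ℝ) ≤ ξ * (n m : ℝ) ^ 2 := by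
    intro ξ hξ
    filter_upwards [hm, hfew (γ * ξ / (4 * ((q : ℝ) + 1))) (by positivity)] with m h1 h2
    have : Nonempty (Fin (n m)) := ⟨⟨0, hpos m⟩⟩
    have h3 := hbox (Fin (n m)) (T m) (by rw [Nat.card_fin (n m)]; exact h1)
    obtain ⟨Q'', hA, hE⟩ := pk_one (G m) (hT m) hγ hξ h3 (by simpa using h2)
    refine ⟨Q'', ?_, ?_⟩
    · simp only [hGd, Finset.mem_filter, Finset.mem_univ, true_and]
      simpa using hA
    · intro i
      simpa using hE i
  refine ⟨Q', ⟨γ / 2, by positivity, ?_⟩, ?_⟩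
  · filter_upwards [key 1 one_pos] with m ⟨Q'', hQ1, _⟩
    have h1 := (hQ' m ⟨Q'', hQ1⟩).1
    simp only [hGd, Finset.mem_filter, Finset.mem_univ, true_and] at h1
    rw [Nat.card_fin]
    exact h1
  · intro i ε hε
    filter_upwards [key (ε / ((q : ℝ) + 1)) (by positivity)] with m ⟨Q'', hQ1, hQ2⟩
    have h1 := (hQ' m ⟨Q'', hQ1⟩).2 Q'' hQ1
    rw [Nat.card_fin]
    have h2 : (pE (G m) (Q' m) i).ncard ≤ e m (Q' m) :=
      Finset.single_le_sum (f := fun i => (pE (G m) (Q' m) i).ncard) (fun _ _ => Nat.zero_le _)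
        (Finset.mem_univ i)
    have h3 : ((e m Q'' : ℕ) : ℝ) ≤ ε * (n m : ℝ) ^ 2 := by
      rw [he]
      push_cast
      calc ∑ i, ((pE (G m) Q'' i).ncard : ℝ) ≤ ∑ _i : Fin (q + 1), ε / ((q : ℝ) + 1) * (n m : ℝ) ^ 2 :=
            Finset.sum_le_sum fun i _ => hQ2 i
        _ = ε * (n m : ℝ) ^ 2 := by
          rw [Finset.sum_const, Finset.card_univ, Fintype.card_fin, nsmul_eq_mul]
          push_cast
          field_simp
    have h4 : ((pE (G m) (Q' m) i).ncard : ℝ) ≤ ((e m Q'' : ℕ) : ℝ) := by exact_mod_cast h2.trans h1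
    exact h4.trans h3

end Pool.Agent.WTK
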